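import Pool.Agent.H27.GD.DetStr
import Pool.Agent.H44.GD.Ten
import Pool.Agent.H26.DT.Asm

/-!
# The relation for determinants from the relation for admissible triples
-/

set_option autoImplicit false

noncomputable section

namespace GD.DT

open Complex GD NumberField

variable {K F : Type} [Field K] [NumberField K] [Field F] [NumberField F]

/-- Extension of scalars from `K` to `F`. -/
def RkOne.ext (r : RkOne K) (i : K →+* F) : RkOne F where
  wt := r.wt
  c := fun σ => r.c (σ.comp i)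
  p := fun σ => r.p (σ.comp i)
  c_ne := fun _ => r.c_ne _
  p_add := fun σ => r.p_add (σ.comp i)

/-- The map `w ↦ x ⊗ w`. -/
def extMap (r : RkOne K) (i : K →+* F) (x : F) : r.str.W →ₗ[ℂ] (r.ext i).str.W where
  toFun := fun (w : (K →+* ℂ) → ℂ) => (fun σ => σ x * w (σ.comp i) : (F →+* ℂ) → ℂ)
  map_add' := by
    intro (a : (K →+* ℂ) → ℂ) (b : (K →+* ℂ) → ℂ)
    change (fun σ : F →+* ℂ => σ x * (a + b) (σ.comp i)) =
      (fun σ : F →+* ℂ => σ x * a (σ.comp i)) + (fun σ : F →+* ℂ => σ x * b (σ.comp i))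
    funext σ
    simp only [Pi.add_apply, mul_add]
  map_smul' := by
    intro c (a : (K →+* ℂ) → ℂ)
    change (fun σ : F →+* ℂ => σ x * (c • a) (σ.comp i)) =
      c • (fun σ : F →+* ℂ => σ x * a (σ.comp i))
    funext σ
    simp only [Pi.smul_apply, smul_eq_mul]
    ring

theorem isHom_ext (r : RkOne K) (i : K →+* F) (x : F) :
    IsHom r.str (r.ext i).str (extMap r i x) where
  wt := rfl
  betti := by
    rintro (w : (K →+* ℂ) → ℂ) ⟨a, ha⟩
    refine ⟨x * i a, fun σ => ?_⟩
    change σ x * w (σ.comp i) = _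
    rw [ha, map_mul]
    rfl
  deRham := by
    intro (w : (K →+* ℂ) → ℂ) hw σ
    obtain ⟨a, ha⟩ := hw (σ.comp i)
    refine ⟨⟨σ x, mem_algebraicClosure_iff.2 (emb_alg F σ x)⟩ * a, ?_⟩
    change σ x * w (σ.comp i) = ((σ x * (a : ℂ) : ℂ)) * r.c (σ.comp i)
    rw [ha, mul_assoc]
  hodge := by
    intro p (w : (K →+* ℂ) → ℂ) hw σ hσ
    change σ x * w (σ.comp i) = 0
    rw [hw (σ.comp i) hσ, mul_zero]

theorem gen_ext {C : Str → Prop} {r : RkOne K} (h : Gen C r.str) (i : K →+* F) :
    Gen C (r.ext i).str := by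
  refine Gen.lin _ (Module.finrank ℚ F) (fun _ => r.str) (fun k => extMap r i (bas F k))
    (fun _ => h) (fun k => isHom_ext r i _) ?_
  obtain ⟨b, hb⟩ := exists_basisB F
  rw [eq_top_iff]
  intro (w : (F →+* ℂ) → ℂ) _
  have h0 : ∀ k, extMap r i (bas F k) (fun _ => 1 : (K →+* ℂ) → ℂ) = b k := by
    intro k
    funext σ
    change σ (bas F k) * 1 = _
    rw [mul_one, hb]
  have h1 : ∀ k, extMap r i (bas F k) (fun _ => 1 : (K →+* ℂ) → ℂ) ∈
      ⨆ k, LinearMap.range (extMap r i (bas F k)) := fun k =>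
    (le_iSup (fun k => LinearMap.range (extMap r i (bas F k))) k) (LinearMap.mem_range_self _ _)
  simp only [h0] at h1
  have h2 : w = ∑ k, b.repr w k • b k := (b.sum_repr w).symm
  rw [h2]
  exact Submodule.sum_mem _ fun k _ => Submodule.smul_mem _ _ (h1 k)

variable {V : Type*} [AddCommGroup V] [Module ℚ V] {cls : ℂ → V}

/-- The classes of two determinants of periods of the same eigenspace agree. -/
theorem cls_detPeriod (hΓ : GammaSpec V cls) {S : Str} {M : Submodule ℚ S.W} (hM : M ≤ S.B)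
    {L : Type} [Field L] [NumberField L] (ι : L →+* Module.End ℂ (S.cx M)) {τ : L →+* ℂ}
    {z z' : ℂ} (hz : IsDetPeriod ι τ z) (hz' : IsDetPeriod ι τ z') : cls z = cls z' := by
  obtain ⟨h0, h1⟩ := detPeriod_trace ι hM hz
  obtain ⟨h0', h1'⟩ := detPeriod_trace ι hM hz'
  have h := cls_of_dlog hΓ (Finset.univ : Finset (Fin 2)) (fun j => if j = 0 then z else z')
    (fun j => if j = 0 then 1 else -1)
    (by
      intro j _
      split_ifs
      · exact h0
      · exact h0')
    (by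
      intro δ
      rw [Fin.sum_univ_two]
      simp only [if_true, Fin.isValue, one_ne_zero, if_false, Rat.cast_one, Rat.cast_neg]
      rw [← h1, ← h1']
      ring)
  rw [Fin.sum_univ_two] at h
  simp only [if_true, Fin.isValue, one_ne_zero, if_false, one_smul, neg_smul] at h
  exact add_neg_eq_zero.1 h

/-- The relation for determinants from the relation for admissible triples. -/
theorem det_of_relation (hΓ : GammaSpec V cls) {C : Str → Prop}
    (hP : ∀ S, C S → Nonempty (Pol S)) (e : F →+* ℂ) (hex : ∃ d, LiesIn e d)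
    (h : ∀ R, Gen C R → ∀ A : Adm R F, Relation A e) : DetFor C e := by
  intro K _ _ i him hGal hcyc S hS M hM ι hι
  obtain ⟨P⟩ := hP S hS
  obtain ⟨k, r, f, hc, hp, hwt, hB, hD, hH, hs⟩ := exists_det (ι := ι) P hM.sub hι.isEnd hM.ne
  have h1 : Gen C r.str := gen_of_multi (Gen.base S hS) k r.str f hwt hB hD hH hs
  have h2 : Gen C (r.ext i).str := gen_ext h1 i
  obtain ⟨A, hA, -⟩ := (r.ext i).fam.exists_adm
  have hcF := liesIn_conductor hex
  have : NeZero (conductor e) := ⟨hcF.1.ne'⟩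
  have h3 : RelAll cls (conductor e) e hcF.2 (r.ext i).fam.c (r.ext i).fam.p :=
    relationAt_to hΓ hA hcF.2 (h _ h2 A _ rfl)
  have heK : ∀ x, (e.comp i) x ∈ cyc (conductor e) := fun x => hcF.2 (i x)
  have h4 : RelAll cls (conductor e) (e.comp i) heK r.c r.p := h3
  intro d _ hd
  have hexK : ∃ d, LiesIn (e.comp i) d := ⟨conductor e, hcF.1, heK⟩
  have hcK := liesIn_conductor hexK
  rw [← hd] at hcK
  have h5 : RelAll cls d (e.comp i) hcK.2 r.c r.p :=
    h4.change hΓ (three_le heK him) hcK.2 r.p_add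
  intro ε hε l τ hτ z hz
  have hd0 : (d : ℚ) ≠ 0 := by exact_mod_cast NeZero.ne d
  rw [isPhi_iff (e.comp i) hcK.2] at hτ
  subst hτ
  have h6 := h5 ε (by
    intro l
    have h7 := hε l (phi (e.comp i) hcK.2 l) ((isPhi_iff (e.comp i) hcK.2 l _).2 rfl)
    rw [sum_erase, ← tsum_id] at h7
    rw [hp]
    exact (mul_left_cancel₀ hd0 h7).symm) l
  refine sim_of_cls hΓ (detPeriod_trace ι hM.sub.le hz).1 (gammaProd_ne d ε l) ?_
  rw [cls_detPeriod hΓ hM.sub.le ι hz (hc _), h6, cls_gammaProd hΓ]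

end GD.DT
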