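import Pool.Agent.H5.GD.Fam
import Pool.Agent.H26.DT.Defs

/-!
# Natural derivations

`IsNat T`: the family `T` of operators on all Betti, de Rham and Hodge structures commutes with all
compatible linear maps and acts as a derivation for all compatible bilinear maps. The natural
derivations form a complex Lie algebra, closed under several operations.
-/

set_option autoImplicit false

noncomputable section

namespace GD.DT

open Complex GD
open scoped ComplexConjugate TensorProduct

/-- Families of operators. -/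
abbrev Op : Type 1 := (R : Str) → Module.End ℂ R.W

/-! ### The Lie algebra -/

/-- The space of natural derivations. -/
def Lnat : Submodule ℂ Op where
  carrier := {T | IsNat T}
  zero_mem' := by
    refine ⟨fun R R' f _ x => ?_, fun S S' R μ _ x y => ?_⟩
    · simp
    · simp
  add_mem' := by
    intro a b ha hb
    refine ⟨fun R R' f hf x => ?_, fun S S' R μ hμ x y => ?_⟩
    · change a R' (f x) + b R' (f x) = f (a R x + b R x)
      rw [ha.nat R R' f hf, hb.nat R R' f hf, map_add]
    · change a R (μ x y) + b R (μ x y) = μ (a S x + b S x) y + μ x (a S' y + b S' y)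
      rw [ha.der S S' R μ hμ, hb.der S S' R μ hμ, map_add, map_add, LinearMap.add_apply]
      abel
  smul_mem' := by
    intro c a ha
    refine ⟨fun R R' f hf x => ?_, fun S S' R μ hμ x y => ?_⟩
    · change c • a R' (f x) = f (c • a R x)
      rw [ha.nat R R' f hf, map_smul]
    · change c • a R (μ x y) = μ (c • a S x) y + μ x (c • a S' y)
      rw [ha.der S S' R μ hμ, map_smul, map_smul, LinearMap.smul_apply, smul_add]

theorem mem_Lnat {T : Op} : T ∈ Lnat ↔ IsNat T := Iff.rfl

/-- The bracket of two families. -/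
def br (a b : Op) : Op := a * b - b * a

theorem br_apply (a b : Op) (R : Str) (x : R.W) : br a b R x = a R (b R x) - b R (a R x) := rfl

theorem isNat_br {a b : Op} (ha : IsNat a) (hb : IsNat b) : IsNat (br a b) := by
  refine ⟨fun R R' f hf x => ?_, fun S S' R μ hμ x y => ?_⟩
  · rw [br_apply, br_apply, ha.nat R R' f hf, hb.nat R R' f hf, ha.nat R R' f hf,
      hb.nat R R' f hf, map_sub]
  · rw [br_apply, br_apply, br_apply, ha.der S S' R μ hμ, hb.der S S' R μ hμ, map_add, map_add,
      ha.der S S' R μ hμ, hb.der S S' R μ hμ, ha.der S S' R μ hμ, hb.der S S' R μ hμ, map_sub,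
      map_sub, LinearMap.sub_apply]
    abel

/-! ### Expansions over the rational form -/

/-- Every vector is a combination of vectors of a form. -/
theorem form_span {k : Type*} [Field k] [Algebra k ℂ] {W : Type} [AddCommGroup W] [Module ℂ W]
    [Module k W] [IsScalarTower k ℂ W] (L : Submodule k W) (h : IsBaseChange ℂ L.subtype) (w : W) :
    w ∈ Submodule.span ℂ (L : Set W) := by
  refine h.inductionOn w (fun w => w ∈ Submodule.span ℂ (L : Set W)) (zero_mem _) ?_ ?_ ?_
  · intro m
    exact Submodule.subset_span m.2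
  · intro s n hn
    exact Submodule.smul_mem _ s hn
  · intro a b ha hb
    exact add_mem ha hb

/-- Induction over the rational form: it is enough to treat `c • b`. -/
theorem Str.induction (R : Str) {P : R.W → Prop} (w : R.W) (h0 : P 0)
    (hadd : ∀ a b, P a → P b → P (a + b)) (h : ∀ (c : ℂ), ∀ b ∈ R.B, P (c • b)) : P w := by
  have hw := form_span R.B R.B_form w
  have key : ∀ c : ℂ, P (c • w) := by
    refine Submodule.span_induction (p := fun w _ => ∀ c : ℂ, P (c • w)) ?_ ?_ ?_ ?_ hw
    · intro x hx c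
      exact h c x hx
    · intro c
      rw [smul_zero]
      exact h0
    · intro x y _ _ hx hy c
      rw [smul_add]
      exact hadd _ _ (hx c) (hy c)
    · intro a x _ hx c
      rw [smul_smul]
      exact hx _
  have h1 := key 1
  rwa [one_smul] at h1

/-- Two linear maps which agree on the rational form are equal. -/
theorem ext_B {R : Str} {M : Type*} [AddCommGroup M] [Module ℂ M] {f g : R.W →ₗ[ℂ] M}
    (h : ∀ b ∈ R.B, f b = g b) : f = g := by
  ext w
  refine Str.induction R (P := fun w => f w = g w) w ?_ ?_ ?_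
  · simp
  · intro a b ha hb
    rw [map_add, map_add, ha, hb]
  · intro c b hb
    rw [map_smul, map_smul, h b hb]

/-- Two linear maps which agree on the Hodge pieces are equal. -/
theorem ext_hodge {R : Str} {M : Type*} [AddCommGroup M] [Module ℂ M] {f g : R.W →ₗ[ℂ] M}
    (h : ∀ p, ∀ x ∈ R.hodge p, f x = g x) : f = g := by
  have htop : (⨆ p, R.hodge p) = ⊤ := R.hodge_internal.submodule_iSup_eq_top
  have hle : (⨆ p, R.hodge p) ≤ LinearMap.eqLocus f g := iSup_le fun p x hx => h p x hx
  rw [htop] at hle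
  ext w
  exact hle (Submodule.mem_top (x := w))

/-! ### Conjugation -/

theorem conj_smul (R : Str) (c : ℂ) (x : R.W) : R.conj (c • x) = conj c • R.conj x :=
  map_smulₛₗ _ _ _

theorem conj_conj' (R : Str) (x : R.W) : R.conj (R.conj x) = x := by
  refine Str.induction R (P := fun x => R.conj (R.conj x) = x) x ?_ ?_ ?_
  · simp
  · intro a b ha hb
    rw [map_add, map_add, ha, hb]
  · intro c b hb
    rw [conj_smul, conj_smul, R.conj_B b hb, R.conj_B b hb, Complex.conj_conj]

/-- Rational maps commute with conjugation. -/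
theorem map_conj {R R' : Str} {f : R.W →ₗ[ℂ] R'.W} (hf : ∀ x ∈ R.B, f x ∈ R'.B) (x : R.W) :
    f (R.conj x) = R'.conj (f x) := by
  refine Str.induction R (P := fun x => f (R.conj x) = R'.conj (f x)) x ?_ ?_ ?_
  · simp
  · intro a b ha hb
    rw [map_add, map_add, map_add, map_add, ha, hb]
  · intro c b hb
    rw [conj_smul, R.conj_B b hb, map_smul, map_smul, conj_smul, R'.conj_B _ (hf b hb)]

/-- Rational bilinear maps commute with conjugation. -/
theorem map_conj2 {S S' R : Str} {μ : S.W →ₗ[ℂ] S'.W →ₗ[ℂ] R.W} (hμ : TensorBetti S S' R μ)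
    (x : S.W) (y : S'.W) : μ (S.conj x) (S'.conj y) = R.conj (μ x y) := by
  refine Str.induction S (P := fun x => μ (S.conj x) (S'.conj y) = R.conj (μ x y)) x ?_ ?_ ?_
  · simp
  · intro a b ha hb
    rw [map_add, map_add, map_add, LinearMap.add_apply, LinearMap.add_apply, map_add, ha, hb]
  · intro c b hb
    refine Str.induction S' (P := fun y => μ (S.conj (c • b)) (S'.conj y)
      = R.conj (μ (c • b) y)) y ?_ ?_ ?_
    · simp
    · intro a' b' ha' hb'
      rw [map_add, map_add, map_add, map_add, ha', hb']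
    · intro c' b' hb'
      have e1 : μ (S.conj (c • b)) (S'.conj (c' • b')) = conj c' • conj c • μ b b' := by
        rw [conj_smul, conj_smul, S.conj_B b hb, S'.conj_B b' hb', map_smul, map_smul,
          LinearMap.smul_apply]
      have e2 : μ (c • b) (c' • b') = c' • c • μ b b' := by
        rw [map_smul, map_smul, LinearMap.smul_apply]
      rw [e1, e2, conj_smul, conj_smul, R.conj_B _ (hμ b hb b' hb')]

/-- The conjugate of an operator. -/
def conjEnd (R : Str) (X : Module.End ℂ R.W) : Module.End ℂ R.W where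
  toFun x := R.conj (X (R.conj x))
  map_add' x y := by rw [map_add, map_add, map_add]
  map_smul' c x := by
    rw [conj_smul, map_smul, conj_smul, Complex.conj_conj, RingHom.id_apply]

/-- The conjugate of a family. -/
def conjOp (T : Op) : Op := fun R => conjEnd R (T R)

theorem conjOp_apply (T : Op) (R : Str) (x : R.W) : conjOp T R x = R.conj (T R (R.conj x)) := rfl

theorem isNat_conjOp {T : Op} (h : IsNat T) : IsNat (conjOp T) := by
  refine ⟨fun R R' f hf x => ?_, fun S S' R μ hμ x y => ?_⟩
  · rw [conjOp_apply, conjOp_apply, ← map_conj hf.betti, h.nat R R' f hf, ← map_conj hf.betti]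
  · rw [conjOp_apply, conjOp_apply, conjOp_apply, ← map_conj2 hμ.betti, h.der S S' R μ hμ,
      map_add, ← map_conj2 hμ.betti, ← map_conj2 hμ.betti, conj_conj', conj_conj']

/-! ### Operators which are scalar on the Hodge pieces -/

/-- The operator which acts on the Hodge piece of type `p` by `c p`. -/
def hodgeEnd (R : Str) (c : ℕ → ℂ) : Module.End ℂ R.W :=
  (DirectSum.toModule ℂ ℕ R.W fun p => c p • (R.hodge p).subtype) ∘ₗ
    (LinearEquiv.ofBijective (DirectSum.coeLinearMap R.hodge) R.hodge_internal).symm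

theorem hodgeEnd_apply (R : Str) (c : ℕ → ℂ) (p : ℕ) (x : R.W) (hx : x ∈ R.hodge p) :
    hodgeEnd R c x = c p • x := by
  have h1 : (LinearEquiv.ofBijective (DirectSum.coeLinearMap R.hodge) R.hodge_internal).symm x
      = DirectSum.lof ℂ ℕ (fun p => R.hodge p) p ⟨x, hx⟩ := by
    rw [LinearEquiv.symm_apply_eq]
    exact (DirectSum.coeLinearMap_lof R.hodge p ⟨x, hx⟩).symm
  rw [hodgeEnd, LinearMap.comp_apply, LinearEquiv.coe_coe, h1, DirectSum.toModule_lof]
  rfl

/-- Compatible maps commute with `hodgeEnd`. -/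
theorem map_hodgeEnd {R R' : Str} {f : R.W →ₗ[ℂ] R'.W}
    (hf : ∀ p, ∀ x ∈ R.hodge p, f x ∈ R'.hodge p) (c : ℕ → ℂ) (x : R.W) :
    hodgeEnd R' c (f x) = f (hodgeEnd R c x) := by
  have : (hodgeEnd R' c) ∘ₗ f = f ∘ₗ (hodgeEnd R c) := by
    refine ext_hodge fun p x hx => ?_
    rw [LinearMap.comp_apply, LinearMap.comp_apply, hodgeEnd_apply R' c p _ (hf p x hx),
      hodgeEnd_apply R c p x hx, map_smul]
  exact LinearMap.congr_fun this x

/-- Two bilinear maps which agree on the Hodge pieces are equal. -/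
theorem ext_hodge2 {S S' : Str} {M : Type*} [AddCommGroup M] [Module ℂ M]
    {f g : S.W →ₗ[ℂ] S'.W →ₗ[ℂ] M}
    (h : ∀ p q, ∀ x ∈ S.hodge p, ∀ y ∈ S'.hodge q, f x y = g x y) : f = g :=
  ext_hodge fun p x hx => ext_hodge fun q y hy => h p q x hx y hy

/-- The operator `h`, equal to `p` on the Hodge piece of type `p`. -/
def hOp : Op := fun R => hodgeEnd R fun p => (p : ℂ)

/-- The weight operator. -/
def wtOp : Op := fun R => (R.wt : ℂ) • LinearMap.id

theorem wtOp_apply (R : Str) (x : R.W) : wtOp R x = (R.wt : ℂ) • x := rfl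

theorem isNat_wtOp : IsNat wtOp := by
  refine ⟨fun R R' f hf x => ?_, fun S S' R μ hμ x y => ?_⟩
  · rw [wtOp_apply, wtOp_apply, map_smul, hf.wt]
  · rw [wtOp_apply, wtOp_apply, wtOp_apply, hμ.wt, map_smul, map_smul, LinearMap.smul_apply,
      ← add_smul]
    push_cast
    rfl

theorem isNat_hOp : IsNat hOp := by
  refine ⟨fun R R' f hf x => map_hodgeEnd hf.hodge _ x, fun S S' R μ hμ x y => ?_⟩
  have key : LinearMap.compr₂ μ (hOp R) = μ.comp (hOp S) + LinearMap.compl₂ μ (hOp S') := by
    refine ext_hodge2 fun p q x hx y hy => ?_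
    rw [LinearMap.compr₂_apply, LinearMap.add_apply, LinearMap.add_apply, LinearMap.comp_apply,
      LinearMap.compl₂_apply, hOp, hOp, hOp, hodgeEnd_apply _ _ _ _ (hμ.hodge p q x hx y hy),
      hodgeEnd_apply _ _ _ _ hx, hodgeEnd_apply _ _ _ _ hy, map_smul, map_smul,
      LinearMap.smul_apply, ← add_smul]
    push_cast
    rfl
  have := LinearMap.congr_fun (LinearMap.congr_fun key x) y
  exact this

/-- The Weil operator: `i ^ (2 p - m)` on the Hodge piece of type `p`. -/
def weil (R : Str) : Module.End ℂ R.W := hodgeEnd R fun p => I ^ (2 * (p : ℤ) - R.wt)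

/-- The inverse of the Weil operator. -/
def weilInv (R : Str) : Module.End ℂ R.W := hodgeEnd R fun p => I ^ ((R.wt : ℤ) - 2 * p)

theorem weil_weilInv (R : Str) (x : R.W) : weil R (weilInv R x) = x := by
  have : weil R ∘ₗ weilInv R = LinearMap.id := by
    refine ext_hodge fun p x hx => ?_
    rw [LinearMap.comp_apply, weilInv, hodgeEnd_apply _ _ p x hx, map_smul, weil,
      hodgeEnd_apply _ _ p x hx, smul_smul, ← zpow_add₀ I_ne_zero, LinearMap.id_apply]
    have : ((R.wt : ℤ) - 2 * p) + (2 * (p : ℤ) - R.wt) = 0 := by ring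
    rw [this, zpow_zero, one_smul]
  exact LinearMap.congr_fun this x

theorem weilInv_weil (R : Str) (x : R.W) : weilInv R (weil R x) = x := by
  have : weilInv R ∘ₗ weil R = LinearMap.id := by
    refine ext_hodge fun p x hx => ?_
    rw [LinearMap.comp_apply, weil, hodgeEnd_apply _ _ p x hx, map_smul, weilInv,
      hodgeEnd_apply _ _ p x hx, smul_smul, ← zpow_add₀ I_ne_zero, LinearMap.id_apply]
    have : (2 * (p : ℤ) - R.wt) + ((R.wt : ℤ) - 2 * p) = 0 := by ring
    rw [this, zpow_zero, one_smul]
  exact LinearMap.congr_fun this x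

theorem map_weil {R R' : Str} {f : R.W →ₗ[ℂ] R'.W} (hf : IsHom R R' f) (x : R.W) :
    weil R' (f x) = f (weil R x) := by
  unfold weil
  rw [map_hodgeEnd hf.hodge, hf.wt]

theorem map_weilInv {R R' : Str} {f : R.W →ₗ[ℂ] R'.W} (hf : IsHom R R' f) (x : R.W) :
    weilInv R' (f x) = f (weilInv R x) := by
  unfold weilInv
  rw [map_hodgeEnd hf.hodge, hf.wt]

theorem map_weil2 {S S' R : Str} {μ : S.W →ₗ[ℂ] S'.W →ₗ[ℂ] R.W} (hμ : IsBil S S' R μ)
    (x : S.W) (y : S'.W) : μ (weil S x) (weil S' y) = weil R (μ x y) := by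
  have key : LinearMap.compl₁₂ μ (weil S) (weil S') = LinearMap.compr₂ μ (weil R) := by
    refine ext_hodge2 fun p q x hx y hy => ?_
    rw [LinearMap.compr₂_apply, LinearMap.compl₁₂_apply, weil, weil, weil,
      hodgeEnd_apply _ _ _ _ (hμ.hodge p q x hx y hy), hodgeEnd_apply _ _ _ _ hx,
      hodgeEnd_apply _ _ _ _ hy, map_smul, map_smul, LinearMap.smul_apply, smul_smul,
      ← zpow_add₀ I_ne_zero, hμ.wt]
    congr 2
    push_cast
    ring
  exact LinearMap.congr_fun (LinearMap.congr_fun key x) y

theorem map_weilInv2 {S S' R : Str} {μ : S.W →ₗ[ℂ] S'.W →ₗ[ℂ] R.W} (hμ : IsBil S S' R μ)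
    (x : S.W) (y : S'.W) : μ (weilInv S x) (weilInv S' y) = weilInv R (μ x y) := by
  rw [← weilInv_weil R (μ (weilInv S x) (weilInv S' y)), ← map_weil2 hμ, weil_weilInv,
    weil_weilInv]

/-- Conjugation of a family by the Weil operators. -/
def weilOp (T : Op) : Op := fun R => weil R ∘ₗ T R ∘ₗ weilInv R

theorem weilOp_apply (T : Op) (R : Str) (x : R.W) : weilOp T R x = weil R (T R (weilInv R x)) := rfl

theorem isNat_weilOp {T : Op} (h : IsNat T) : IsNat (weilOp T) := by
  refine ⟨fun R R' f hf x => ?_, fun S S' R μ hμ x y => ?_⟩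
  · rw [weilOp_apply, weilOp_apply, map_weilInv hf, h.nat R R' f hf, map_weil hf]
  · rw [weilOp_apply, weilOp_apply, weilOp_apply, ← map_weilInv2 hμ, h.der S S' R μ hμ, map_add,
      ← map_weil2 hμ, ← map_weil2 hμ, weil_weilInv, weil_weilInv]

end GD.DT
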