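import Mathlib

/-!
# Star-closed Lie algebras of matrices

Let `G` be a space of (families of) complex matrices which is closed under brackets and under
conjugate transposes. Then every `X` in `G` is the sum of a central element of `G` and of a
linear combination of brackets.
-/

set_option autoImplicit false

noncomputable section

namespace GD.DT

open scoped ComplexConjugate ComplexOrder

section matrix

variable {ι : Type} [Fintype ι] (n : ι → Type) [∀ i, Fintype (n i)] [∀ i, DecidableEq (n i)]

/-- Families of square matrices. -/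
abbrev MatFam : Type := ∀ i, Matrix (n i) (n i) ℂ

/-- The entries of a family of matrices, as a vector of a euclidean space. -/
def vec : MatFam n ≃ₗ[ℂ] EuclideanSpace ℂ (Σ i, n i × n i) where
  toFun X := WithLp.toLp 2 fun s => X s.1 s.2.1 s.2.2
  invFun v := fun i a b => v ⟨i, a, b⟩
  left_inv X := rfl
  right_inv v := by ext s; rfl
  map_add' X Y := by ext s; rfl
  map_smul' c X := by ext s; rfl

omit [∀ i, DecidableEq (n i)] in
/-- The inner product of two families is the sum of the traces `tr (Y X^*)`. -/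
theorem inner_vec (X Y : MatFam n) :
    inner ℂ (vec n X) (vec n Y) = ∑ i, ((Y i) * (X i).conjTranspose).trace := by
  rw [PiLp.inner_apply, Fintype.sum_sigma]
  refine Finset.sum_congr rfl fun i _ => ?_
  rw [Matrix.trace, Fintype.sum_prod_type]
  refine Finset.sum_congr rfl fun a _ => ?_
  rw [Matrix.diag_apply, Matrix.mul_apply]
  refine Finset.sum_congr rfl fun b _ => ?_
  rfl

/-- The linear span of the brackets of elements of `G`. -/
def brk (G : Submodule ℂ (MatFam n)) : Submodule ℂ (MatFam n) :=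
  Submodule.span ℂ {Z | ∃ A ∈ G, ∃ B ∈ G, Z = A * B - B * A}

omit [∀ i, DecidableEq (n i)] in
theorem herm_split (G : Submodule ℂ (MatFam n)) (hbr : ∀ A ∈ G, ∀ B ∈ G, A * B - B * A ∈ G)
    (hst : ∀ A ∈ G, (fun i => (A i).conjTranspose) ∈ G) (X : MatFam n) (hX : X ∈ G) :
    ∃ Y ∈ brk n G, ∀ A ∈ G, (X - Y) * A = A * (X - Y) := by
  set K : Submodule ℂ (EuclideanSpace ℂ (Σ i, n i × n i)) :=
    (brk n G).map (vec n : MatFam n →ₗ[ℂ] _) with hK
  obtain ⟨y, hy, z, hz, hyz⟩ := K.exists_add_mem_mem_orthogonal (vec n X)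
  obtain ⟨Y, hY, rfl⟩ := hy
  refine ⟨Y, hY, ?_⟩
  have hYG : Y ∈ G := by
    have : brk n G ≤ G := by
      refine Submodule.span_le.2 ?_
      rintro _ ⟨A, hA, B, hB, rfl⟩
      exact hbr A hA B hB
    exact this hY
  set Z : MatFam n := X - Y with hZ
  have hZG : Z ∈ G := sub_mem hX hYG
  have hzZ : z = vec n Z := by
    rw [hZ, map_sub, hyz]
    simp
  -- `Z` is orthogonal to all brackets
  have horth : ∀ A ∈ G, ∀ B ∈ G, ∑ i, ((Z i) * ((A i) * (B i) - (B i) * (A i)).conjTranspose).trace
      = 0 := by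
    intro A hA B hB
    have h1 : vec n (A * B - B * A) ∈ K := Submodule.mem_map_of_mem
      (Submodule.subset_span ⟨A, hA, B, hB, rfl⟩)
    have h2 := (Submodule.mem_orthogonal K z).1 hz _ h1
    rw [hzZ, inner_vec] at h2
    exact h2
  -- take the bracket of `B^*` with `Z`
  intro B hB
  have hBs := hst B hB
  set A : MatFam n := Z * B - B * Z with hAdef
  have hAG : A ∈ G := hbr Z hZG B hB
  have h3 := horth A hAG (fun i => (B i).conjTranspose) hBs
  have h4 : ∑ i, ((A i) * (A i).conjTranspose).trace = 0 := by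
    rw [← h3]
    refine Finset.sum_congr rfl fun i _ => ?_
    have hAi : A i = Z i * B i - B i * Z i := rfl
    rw [Matrix.conjTranspose_sub, Matrix.conjTranspose_mul, Matrix.conjTranspose_mul,
      Matrix.conjTranspose_conjTranspose, mul_sub, Matrix.trace_sub]
    nth_rewrite 1 [hAi]
    rw [sub_mul, Matrix.trace_sub]
    congr 1
    · rw [mul_assoc]
    · rw [Matrix.trace_mul_cycle, Matrix.trace_mul_cycle, mul_assoc]
  have h5 : ∀ i, A i = 0 := by
    have hnn : ∀ i, 0 ≤ ((A i) * (A i).conjTranspose).trace := by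
      intro i
      exact (Matrix.posSemidef_self_mul_conjTranspose (A i)).trace_nonneg
    intro i
    have h6 := (Finset.sum_eq_zero_iff_of_nonneg (fun j _ => hnn j)).1 h4 i (Finset.mem_univ i)
    exact (Matrix.trace_mul_conjTranspose_self_eq_zero_iff).1 h6
  have h7 : A = 0 := funext h5
  exact sub_eq_zero.1 h7

end matrix

section single

variable {V : Type} [AddCommGroup V] [Module ℂ V]

/-- A sesquilinear form with real positive diagonal is hermitian. -/
theorem herm_symm (H : V →ₗ[ℂ] V →ₛₗ[starRingEnd ℂ] ℂ)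
    (hpos : ∀ x, x ≠ 0 → ∃ r : ℝ, 0 < r ∧ H x x = r) (x y : V) : conj (H x y) = H y x := by
  have hre : ∀ x, (H x x).im = 0 := by
    intro x
    by_cases hx : x = 0
    · simp [hx]
    · obtain ⟨r, -, hr⟩ := hpos x hx
      rw [hr, Complex.ofReal_im]
  have h1 := hre (x + y)
  have h2 := hre (x + Complex.I • y)
  have hx := hre x
  have hy := hre y
  simp only [map_add, LinearMap.add_apply, map_smul, map_smulₛₗ, LinearMap.smul_apply,
    smul_eq_mul, Complex.conj_I, Complex.add_im, Complex.mul_im, Complex.I_re, Complex.I_im,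
    Complex.neg_re, Complex.neg_im, Complex.mul_re, Complex.add_re] at h1 h2
  apply Complex.ext
  · rw [Complex.conj_re]
    linarith
  · rw [Complex.conj_im]
    linarith

/-- Matrices with respect to an orthonormal basis. -/
theorem herm_matrix [FiniteDimensional ℂ V] (H : V →ₗ[ℂ] V →ₛₗ[starRingEnd ℂ] ℂ)
    (hpos : ∀ x, x ≠ 0 → ∃ r : ℝ, 0 < r ∧ H x x = r) :
    ∃ (m : ℕ) (e : Module.End ℂ V ≃ₐ[ℂ] Matrix (Fin m) (Fin m) ℂ),
      ∀ X Y : Module.End ℂ V, (∀ a b, H (X a) b = H a (Y b)) → e Y = (e X).conjTranspose := by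
  let core : InnerProductSpace.Core ℂ V :=
    { inner := fun x y => H y x
      conj_inner_symm := fun x y => herm_symm H hpos x y
      re_inner_nonneg := fun x => by
        by_cases hx : x = 0
        · simp [hx]
        · obtain ⟨r, hr, hr'⟩ := hpos x hx
          change 0 ≤ (H x x).re
          rw [hr', Complex.ofReal_re]
          exact hr.le
      add_left := fun x y z => by
        change H z (x + y) = H z x + H z y
        rw [map_add]
      smul_left := fun x y r => by
        change H y (r • x) = conj r * H y x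
        rw [map_smulₛₗ, smul_eq_mul]
      definite := fun x hx => by
        by_contra h
        obtain ⟨r, hr, hr'⟩ := hpos x h
        change H x x = 0 at hx
        rw [hx] at hr'
        exact hr.ne (by exact_mod_cast hr') }
  let _ : NormedAddCommGroup V := @InnerProductSpace.Core.toNormedAddCommGroup ℂ V _ _ _ core
  let _ : InnerProductSpace ℂ V := InnerProductSpace.ofCore core.toCore
  let b := stdOrthonormalBasis ℂ V
  refine ⟨_, (LinearMap.toMatrixOrthonormal b).toAlgEquiv, ?_⟩
  intro X Y hXY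
  have hadj : Y = LinearMap.adjoint X := by
    rw [LinearMap.eq_adjoint_iff]
    intro x y
    change H y (Y x) = H (X y) x
    rw [hXY]
  rw [hadj]
  exact map_star (LinearMap.toMatrixOrthonormal b) X

end single

section ops

variable {ι : Type} [Fintype ι] (V : ι → Type) [∀ i, AddCommGroup (V i)] [∀ i, Module ℂ (V i)]
  [∀ i, FiniteDimensional ℂ (V i)]
  (H : ∀ i, V i →ₗ[ℂ] V i →ₛₗ[starRingEnd ℂ] ℂ)
  {L : Type*} [AddCommGroup L] [Module ℂ L] (br : L → L → L)
  (ρ : ∀ i, L →ₗ[ℂ] Module.End ℂ (V i))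

/-- Let `L` act on finitely many spaces with positive hermitian forms, the set of operator
families being closed under adjoints. Then every `x` in `L` is the sum of a combination of brackets
and of an element which acts centrally. -/
theorem herm_ops (hpos : ∀ i x, x ≠ 0 → ∃ r : ℝ, 0 < r ∧ H i x x = r)
    (hρ : ∀ i x y, ρ i (br x y) = ρ i x * ρ i y - ρ i y * ρ i x)
    (hst : ∀ x : L, ∃ x' : L, ∀ i a b, H i (ρ i x a) b = H i a (ρ i x' b)) (x : L) :
    ∃ y ∈ Submodule.span ℂ {z | ∃ a b, z = br a b},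
      ∀ i a, ρ i (x - y) * ρ i a = ρ i a * ρ i (x - y) := by
  choose m e he using fun i => herm_matrix (H i) (hpos i)
  let T : L →ₗ[ℂ] MatFam (fun i => Fin (m i)) :=
    LinearMap.pi fun i => (e i).toLinearMap ∘ₗ ρ i
  have hT : ∀ x i, T x i = e i (ρ i x) := fun x i => rfl
  have hTbr : ∀ x y, T (br x y) = T x * T y - T y * T x := by
    intro x y
    funext i
    rw [hT, hρ, map_sub, map_mul, map_mul]
    rfl
  have key := herm_split (fun i => Fin (m i)) (LinearMap.range T) (by
    rintro _ ⟨a, rfl⟩ _ ⟨b, rfl⟩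
    exact ⟨br a b, hTbr a b⟩) (by
    rintro _ ⟨a, rfl⟩
    obtain ⟨a', ha'⟩ := hst a
    refine ⟨a', ?_⟩
    funext i
    rw [hT, hT]
    exact he i _ _ (ha' i)) (T x) ⟨x, rfl⟩
  obtain ⟨Y, hY, hc⟩ := key
  -- lift `Y` to a combination of brackets
  have hlift : ∃ y ∈ Submodule.span ℂ {z | ∃ a b, z = br a b}, T y = Y := by
    have hle : brk (fun i => Fin (m i)) (LinearMap.range T)
        ≤ (Submodule.span ℂ {z | ∃ a b, z = br a b}).map T := by
      refine Submodule.span_le.2 ?_
      rintro _ ⟨_, ⟨a, rfl⟩, _, ⟨b, rfl⟩, rfl⟩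
      exact ⟨br a b, Submodule.subset_span ⟨a, b, rfl⟩, hTbr a b⟩
    exact hle hY
  obtain ⟨y, hy, rfl⟩ := hlift
  refine ⟨y, hy, fun i a => ?_⟩
  have h1 := congrFun (hc (T a) ⟨a, rfl⟩) i
  apply (e i).injective
  rw [map_mul, map_mul, ← hT, ← hT, map_sub]
  exact h1

end ops

end GD.DT
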