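import Pool.Agent.H27.GD.Rat
import Pool.Agent.H27.GD.Herm

/-!
# Tate structures, polarisations and natural derivations
-/

set_option autoImplicit false

noncomputable section

namespace GD.DT

open Complex GD
open scoped TensorProduct

/-- The line spanned by a nonzero number is a form of `ℂ`. -/
theorem line_form (k : Type) [Field k] [Algebra k ℂ] (v : ℂ) (hv : v ≠ 0) :
    IsBaseChange ℂ (Submodule.span k {v}).subtype := by
  refine (IsBaseChange.iff_of_equiv_comm (f := Algebra.linearMap k ℂ)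
    (f' := (Submodule.span k {v}).subtype) (LinearEquiv.toSpanNonzeroSingleton k ℂ v hv)
    (LinearEquiv.smulOfNeZero ℂ ℂ v hv) ?_).1 (IsBaseChange.linearMap k ℂ)
  ext
  simp [Algebra.smul_def]

theorem two_pi_I_ne : (2 * (Real.pi : ℂ) * I) ≠ 0 := by
  have hpi : (Real.pi : ℂ) ≠ 0 := by exact_mod_cast Real.pi_ne_zero
  simp [hpi]

/-- The Hodge pieces of the Tate structure. -/
def tateHodge (m p : ℕ) : Submodule ℂ ℂ := if p = m then ⊤ else ⊥

theorem tateHodge_self (m : ℕ) : tateHodge m m = ⊤ := if_pos rfl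

theorem tateHodge_ne {m p : ℕ} (h : p ≠ m) : tateHodge m p = ⊥ := if_neg h

theorem tate_internal (m : ℕ) : DirectSum.IsInternal (tateHodge m) := by
  rw [DirectSum.isInternal_submodule_iff_iSupIndep_and_iSup_eq_top]
  constructor
  · intro p
    by_cases hp : p = m
    · have : (⨆ (j : ℕ) (_ : j ≠ p), tateHodge m j) = ⊥ := by
        simp only [iSup_eq_bot]
        intro j hj
        exact tateHodge_ne fun h => hj (h.trans hp.symm)
      rw [this]
      exact disjoint_bot_right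
    · rw [tateHodge_ne hp]
      exact disjoint_bot_left
  · exact eq_top_iff.2 ((tateHodge_self m).symm.le.trans (le_iSup (tateHodge m) m))

/-- Complex conjugation as a semilinear map. -/
def tateConj : ℂ →ₛₗ[starRingEnd ℂ] ℂ where
  toFun z := starRingEnd ℂ z
  map_add' x y := map_add _ x y
  map_smul' c x := by rw [smul_eq_mul, map_mul, smul_eq_mul]

/-- The Tate structure of weight `2 m`. -/
def Tate (m : ℕ) : Str where
  W := ℂ
  wt := 2 * m
  B := Submodule.span ℚ {1}
  D := Submodule.span Qbar {(2 * Real.pi * I) ^ m}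
  B_form := line_form ℚ 1 one_ne_zero
  D_form := line_form Qbar _ (pow_ne_zero m two_pi_I_ne)
  conj := tateConj
  conj_B := by
    intro b hb
    obtain ⟨q, rfl⟩ := Submodule.mem_span_singleton.1 hb
    change starRingEnd ℂ (q • (1 : ℂ)) = q • (1 : ℂ)
    rw [Rat.smul_def, mul_one, ← eq_ratCast (algebraMap ℚ ℂ)]
    simp
  hodge := tateHodge m
  hodge_internal := tate_internal m
  hodge_large := by
    intro p hp
    exact tateHodge_ne (by omega)
  hodge_conj := by
    intro p hp x hx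
    by_cases h : p = m
    · subst h
      have : 2 * p - p = p := by omega
      rw [this, tateHodge_self]
      exact Submodule.mem_top
    · rw [tateHodge_ne h] at hx
      have hx0 : x = 0 := by simpa using hx
      rw [hx0]
      exact (map_zero (starRingEnd ℂ)).symm ▸ zero_mem _

theorem mem_tate_B {m : ℕ} {x : ℂ} : x ∈ (Tate m).B ↔ ∃ q : ℚ, (q : ℂ) = x := by
  have h : x ∈ (Tate m).B ↔ x ∈ Submodule.span ℚ ({1} : Set ℂ) := Iff.rfl
  rw [h, Submodule.mem_span_singleton]
  simp only [Rat.smul_def, mul_one]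

theorem mem_tate_D {m : ℕ} {x : ℂ} : x ∈ (Tate m).D ↔
    ∃ a : Qbar, (a : ℂ) * (2 * Real.pi * I) ^ m = x := by
  have h : x ∈ (Tate m).D ↔ x ∈ Submodule.span Qbar ({(2 * Real.pi * I) ^ m} : Set ℂ) := Iff.rfl
  rw [h, Submodule.mem_span_singleton]
  rfl

theorem mem_tate_hodge {m p : ℕ} {x : ℂ} : x ∈ (Tate m).hodge p ↔ (p = m ∨ x = 0) := by
  have h : x ∈ (Tate m).hodge p ↔ x ∈ tateHodge m p := Iff.rfl
  rw [h]
  by_cases hp : p = m
  · subst hp
    rw [tateHodge_self]
    simp
  · rw [tateHodge_ne hp]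
    simp [hp]

theorem tate_wt (m : ℕ) : (Tate m).wt = 2 * m := rfl

/-- Multiplication of Tate structures. -/
theorem isBil_tate (a b : ℕ) :
    IsBil (Tate a) (Tate b) (Tate (a + b)) (LinearMap.mul ℂ ℂ) := by
  refine ⟨?_, ?_, ?_, ?_⟩
  · rw [tate_wt, tate_wt, tate_wt]
    ring
  · intro x hx y hy
    obtain ⟨q, rfl⟩ := mem_tate_B.1 hx
    obtain ⟨r, rfl⟩ := mem_tate_B.1 hy
    exact mem_tate_B.2 ⟨q * r, by push_cast; rfl⟩
  · intro x hx y hy
    obtain ⟨q, rfl⟩ := mem_tate_D.1 hx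
    obtain ⟨r, rfl⟩ := mem_tate_D.1 hy
    refine mem_tate_D.2 ⟨q * r, ?_⟩
    change _ = ((q : ℂ) * (2 * Real.pi * I) ^ a) * ((r : ℂ) * (2 * Real.pi * I) ^ b)
    rw [pow_add]
    push_cast
    ring
  · intro p q x hx y hy
    rcases mem_tate_hodge.1 hx with hp | hx0
    · rcases mem_tate_hodge.1 hy with hq | hy0
      · exact mem_tate_hodge.2 (Or.inl (by rw [hp, hq]))
      · refine mem_tate_hodge.2 (Or.inr ?_)
        rw [hy0]
        exact mul_zero (M₀ := ℂ) x
    · refine mem_tate_hodge.2 (Or.inr ?_)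
      rw [hx0]
      exact zero_mul (M₀ := ℂ) y

/-- The scalar by which a family acts on the Tate structure of weight `2 m`. -/
def tt (T : Op) (m : ℕ) : ℂ := T (Tate m) (1 : ℂ)

theorem tt_apply (T : Op) (m : ℕ) (x : ℂ) : T (Tate m) x = tt T m * x := by
  have h : (T (Tate m)) (x • (1 : ℂ)) = x • T (Tate m) (1 : ℂ) := map_smul (T (Tate m)) x (1 : ℂ)
  have h2 : (x • (1 : ℂ)) = x := by rw [smul_eq_mul, mul_one]
  have h3 : (T (Tate m)) x = x • tt T m := by
    refine Eq.trans ?_ h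
    exact congrArg (T (Tate m)) h2.symm
  rw [h3, smul_eq_mul, mul_comm]

/-- The scalar by which a family acts on `ℚ(-1)`. -/
def cc (T : Op) : ℂ := tt T 1

theorem tt_add {T : Op} (h : IsNat T) (a b : ℕ) : tt T (a + b) = tt T a + tt T b := by
  have h1 := h.der (Tate a) (Tate b) (Tate (a + b)) (LinearMap.mul ℂ ℂ) (isBil_tate a b) (1 : ℂ)
    (1 : ℂ)
  have h2 : (LinearMap.mul ℂ ℂ) (1 : ℂ) (1 : ℂ) = (1 : ℂ) := by simp
  have h3 : T (Tate (a + b)) ((LinearMap.mul ℂ ℂ) (1 : ℂ) (1 : ℂ)) = tt T (a + b) :=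
    congrArg (T (Tate (a + b))) h2
  have h4 : (LinearMap.mul ℂ ℂ) (tt T a) (1 : ℂ) = tt T a := by
    rw [LinearMap.mul_apply', mul_one]
  have h5 : (LinearMap.mul ℂ ℂ) (1 : ℂ) (tt T b) = tt T b := by
    rw [LinearMap.mul_apply', one_mul]
  rw [← h3]
  refine h1.trans ?_
  exact congrArg₂ (fun u v : ℂ => u + v) h4 h5

theorem tt_eq {T : Op} (h : IsNat T) (m : ℕ) : tt T m = m * cc T := by
  induction m with
  | zero =>
    have := tt_add h 0 0
    rw [add_zero] at this
    have h0 : tt T 0 = 0 := by linear_combination -this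
    rw [h0]
    simp
  | succ n ih =>
    rw [tt_add h, ih, cc]
    push_cast
    ring

/-- A polarisation is a bilinear morphism to a Tate structure. -/
theorem isBil_pol {S : Str} (P : Pol S) : IsBil S S (Tate S.wt) P.E := by
  refine ⟨?_, ?_, ?_, ?_⟩
  · rw [tate_wt]
    ring
  · intro x hx y hy
    obtain ⟨q, hq⟩ := P.rat x hx y hy
    exact mem_tate_B.2 ⟨q, hq.symm⟩
  · intro x hx y hy
    obtain ⟨a, ha, h⟩ := P.dR x hx y hy
    refine mem_tate_D.2 ⟨(⟨a, mem_algebraicClosure_iff.2 ha⟩ : Qbar), ?_⟩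
    have h' := h
    rw [mul_comm] at h'
    exact h'.symm
  · intro p q x hx y hy
    by_cases h : p + q = S.wt
    · exact mem_tate_hodge.2 (Or.inl h)
    · exact mem_tate_hodge.2 (Or.inr (P.orth p q h x hx y hy))

/-- Natural derivations and polarisations. -/
theorem pol_der {T : Op} (h : IsNat T) {S : Str} (P : Pol S) (x y : S.W) :
    P.E (T S x) y + P.E x (T S y) = S.wt * cc T * P.E x y := by
  have h1 := h.der S S (Tate S.wt) P.E (isBil_pol P) x y
  rw [← tt_eq h, ← tt_apply]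
  exact h1.symm

theorem cc_hOp : cc hOp = 1 := by
  have h := hodgeEnd_apply (Tate 1) (fun p => (p : ℂ)) 1 (1 : ℂ) (mem_tate_hodge.2 (Or.inl rfl))
  have h2 : cc hOp = ((1 : ℕ) : ℂ) • (1 : ℂ) := h
  rw [h2]
  simp

end GD.DT
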