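import Mathlib

/-!
# Averaging over the embeddings of a Galois field
-/

set_option autoImplicit false

noncomputable section

namespace GD.DT

open Complex

theorem finite_fieldRange {E : Type} [Field E] [NumberField E] (τ : E →+* ℂ) :
    FiniteDimensional ℚ τ.toRatAlgHom.fieldRange := by
  have h : Function.Surjective τ.toRatAlgHom.rangeRestrict := τ.toRatAlgHom.rangeRestrict_surjective
  exact Module.Finite.of_surjective τ.toRatAlgHom.rangeRestrict.toLinearMap h

/-- Finitely many number fields embed in a Galois number field, compatibly with embeddings in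
`ℂ`. -/
theorem exists_galois {K : Type} [Field K] [NumberField K] (τ0 : K →+* ℂ) {ι : Type} [Finite ι]
    (E : ι → Type) [∀ l, Field (E l)] [∀ l, NumberField (E l)] (τ : ∀ l, E l →+* ℂ) :
    ∃ (Ω : Type) (_ : Field Ω) (_ : NumberField Ω) (_ : IsGalois ℚ Ω) (ω : Ω →+* ℂ)
      (κ : K →+* Ω) (ε : ∀ l, E l →+* Ω), ω.comp κ = τ0 ∧ ∀ l, ω.comp (ε l) = τ l := by
  let A0 : IntermediateField ℚ ℂ := τ0.toRatAlgHom.fieldRange
  let A : ι → IntermediateField ℚ ℂ := fun l => (τ l).toRatAlgHom.fieldRange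
  have hfin0 : FiniteDimensional ℚ A0 := finite_fieldRange τ0
  have hfin : ∀ l, FiniteDimensional ℚ (A l) := fun l => finite_fieldRange (τ l)
  let B1 : IntermediateField ℚ ℂ := ⨆ l, A l
  have hB1 : FiniteDimensional ℚ B1 := IntermediateField.finiteDimensional_iSup_of_finite
  let B : IntermediateField ℚ ℂ := A0 ⊔ B1
  have hB : FiniteDimensional ℚ B := IntermediateField.finiteDimensional_sup A0 B1
  let Ω := IntermediateField.normalClosure ℚ B ℂ
  have h1 : FiniteDimensional ℚ Ω := normalClosure.is_finiteDimensional ℚ B ℂ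
  have h2 : IsNormalClosure ℚ B Ω :=
    Algebra.IsAlgebraic.isNormalClosure_normalClosure fun x => IsAlgClosed.splits _
  have h3 : Normal ℚ Ω := h2.normal
  have h4 : B ≤ Ω := by
    have := B.val.fieldRange_le_normalClosure
    rwa [IntermediateField.fieldRange_val] at this
  have h5 : ∀ l x, τ l x ∈ Ω := fun l x => h4 ((le_sup_right : B1 ≤ B) ((le_iSup A l) ⟨x, rfl⟩))
  have h50 : ∀ x, τ0 x ∈ Ω := fun x => h4 ((le_sup_left : A0 ≤ B) ⟨x, rfl⟩)
  have h6 : NumberField Ω := { to_charZero := inferInstance, to_finiteDimensional := h1 }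
  refine ⟨Ω, inferInstance, h6, {}, algebraMap Ω ℂ, τ0.codRestrict Ω h50,
    fun l => (τ l).codRestrict Ω (h5 l), ?_, fun l => ?_⟩
  · ext x
    rfl
  · ext x
    rfl

section two

variable {Ω K E : Type} [Field Ω] [NumberField Ω] [IsGalois ℚ Ω] [Field K] [NumberField K]
  [IsGalois ℚ K] [Field E] [NumberField E] (ω : Ω →+* ℂ) (κ : K →+* Ω) (ε : E →+* Ω)

/-- The elements of `E` which lie in `K`. -/
def inter : IntermediateField ℚ E := (κ.toRatAlgHom.fieldRange).comap ε.toRatAlgHom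

omit [IsGalois ℚ Ω] [IsGalois ℚ K] in
theorem mem_inter (a : E) : a ∈ inter κ ε ↔ ∃ b : K, κ b = ε a := Iff.rfl

omit [IsGalois ℚ Ω] [IsGalois ℚ K] in
theorem exists_j : ∃ j : inter κ ε →+* K, ∀ a, κ (j a) = ε (a : E) := by
  have h : ∀ a : inter κ ε, ∃ b : K, κ b = ε (a : E) := fun a => (mem_inter κ ε a).1 a.2
  choose j hj using h
  refine ⟨{ toFun := j, map_one' := ?_, map_mul' := ?_, map_zero' := ?_, map_add' := ?_ }, hj⟩
  · apply κ.injective
    rw [hj]
    simp
  · intro a b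
    apply κ.injective
    rw [hj, map_mul, hj, hj]
    simp
  · apply κ.injective
    rw [hj]
    simp
  · intro a b
    apply κ.injective
    rw [hj, map_add, hj, hj]
    simp

omit [IsGalois ℚ Ω] in
/-- Every automorphism of `Ω` restricts to `K`. -/
theorem exists_restr (s : Ω ≃ₐ[ℚ] Ω) : ∃ h : K ≃ₐ[ℚ] K, ∀ b, s (κ b) = κ (h b) := by
  let : Algebra K Ω := κ.toAlgebra
  have : IsScalarTower ℚ K Ω := IsScalarTower.of_algebraMap_eq' (Subsingleton.elim _ _)
  exact ⟨s.restrictNormal K, fun b => (AlgEquiv.restrictNormal_commutes s K b).symm⟩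

/-- The automorphisms of `K` which extend to an automorphism of `Ω` over `E`. -/
def extGrp : Subgroup (K ≃ₐ[ℚ] K) where
  carrier := {h | ∃ s : Ω ≃ₐ[ℚ] Ω, (∀ a, s (ε a) = ε a) ∧ ∀ b, s (κ b) = κ (h b)}
  one_mem' := ⟨1, fun a => rfl, fun b => rfl⟩
  mul_mem' := by
    rintro h h' ⟨s, hs, hs'⟩ ⟨t, ht, ht'⟩
    refine ⟨s * t, fun a => ?_, fun b => ?_⟩
    · rw [AlgEquiv.mul_apply, ht, hs]
    · rw [AlgEquiv.mul_apply, ht', hs', AlgEquiv.mul_apply]
  inv_mem' := by
    rintro h ⟨s, hs, hs'⟩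
    refine ⟨s⁻¹, fun a => ?_, fun b => ?_⟩
    · apply s.injective
      rw [hs]
      exact s.apply_symm_apply _
    · apply s.injective
      rw [hs']
      have e1 : s (s⁻¹ (κ b)) = κ b := s.apply_symm_apply _
      have e2 : h (h⁻¹ b) = b := h.apply_symm_apply _
      rw [e1, e2]

/-- An element of `Ω` fixed by the automorphisms over `E` lies in `E`. -/
theorem mem_range_of_fixed (x : Ω) (hx : ∀ s : Ω ≃ₐ[ℚ] Ω, (∀ a, s (ε a) = ε a) → s x = x) :
    ∃ a : E, ε a = x := by
  let A : IntermediateField ℚ Ω := ε.toRatAlgHom.fieldRange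
  have h1 : IntermediateField.fixedField (IntermediateField.fixingSubgroup A) = A :=
    IsGalois.fixedField_fixingSubgroup A
  have h2 : x ∈ IntermediateField.fixedField (IntermediateField.fixingSubgroup A) := by
    rw [IntermediateField.mem_fixedField_iff]
    intro s hs
    refine hx s fun a => ?_
    exact (IntermediateField.mem_fixingSubgroup_iff A s).1 hs _ ⟨a, rfl⟩
  rw [h1] at h2
  exact h2

/-- An automorphism of `K` over the intersection with `E` extends to `Ω` over `E`. -/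
theorem mem_extGrp (h : K ≃ₐ[ℚ] K) (hh : ∀ b : K, (∃ a : E, ε a = κ b) → h b = b) :
    h ∈ extGrp κ ε := by
  have h1 : IntermediateField.fixingSubgroup (IntermediateField.fixedField (extGrp κ ε))
      = extGrp κ ε := IntermediateField.fixingSubgroup_fixedField _
  rw [← h1, IntermediateField.mem_fixingSubgroup_iff]
  intro b hb
  apply hh
  rw [IntermediateField.mem_fixedField_iff] at hb
  refine mem_range_of_fixed ε (κ b) fun s hs => ?_
  obtain ⟨t, ht⟩ := exists_restr κ s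
  rw [ht, hb t ⟨s, hs, ht⟩]

theorem exists_ext {F : Type} [Field F] [NumberField F] (i : F →+* Ω) (τ : F →+* ℂ) :
    ∃ s : Ω ≃ₐ[ℚ] Ω, ∀ x, ω (s (i x)) = τ x := by
  let : Algebra F Ω := i.toAlgebra
  let : Algebra F ℂ := τ.toAlgebra
  have : Algebra.IsAlgebraic F Ω := by
    have : IsScalarTower ℚ F Ω := IsScalarTower.of_algebraMap_eq' (Subsingleton.elim _ _)
    exact Algebra.IsAlgebraic.tower_top (K := ℚ) F
  let φ : Ω →ₐ[F] ℂ := IsAlgClosed.lift
  obtain ⟨σ, hσ⟩ := NumberField.ComplexEmbedding.exists_comp_symm_eq_of_comp_eq (k := ℚ)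
    (K := Ω) ω φ.toRingHom (by ext; simp)
  refine ⟨σ.symm, fun x => ?_⟩
  have h1 := RingHom.congr_fun hσ (i x)
  have h2 : φ (i x) = τ x := φ.commutes x
  rw [← h2]
  exact h1

/-- The automorphisms of `Ω` which are trivial on `K` and `E`. -/
def both : Finset (Ω ≃ₐ[ℚ] Ω) := by
  classical
  exact Finset.univ.filter fun s => (∀ b, s (κ b) = κ b) ∧ ∀ a, s (ε a) = ε a

/-- Equidistribution. -/
theorem card_pair (τ : K →+* ℂ) (τ' : E →+* ℂ) [DecidablePred fun s : Ω ≃ₐ[ℚ] Ω =>
      (∀ b, ω (s (κ b)) = τ b) ∧ ∀ a, ω (s (ε a)) = τ' a]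
    [Decidable (∀ a b, κ b = ε a → τ' a = τ b)] :
    (Finset.univ.filter fun s : Ω ≃ₐ[ℚ] Ω =>
      (∀ b, ω (s (κ b)) = τ b) ∧ ∀ a, ω (s (ε a)) = τ' a).card =
      if ∀ a b, κ b = ε a → τ' a = τ b then (both κ ε).card else 0 := by
  classical
  split_ifs with hc
  · -- existence of one solution
    obtain ⟨g1, hg1⟩ := exists_ext ω ε τ'
    -- the embedding `ω g1 κ` and `τ` agree on the intersection
    obtain ⟨h, hh⟩ : ∃ h : K ≃ₐ[ℚ] K, ∀ b, ω (g1 (κ (h b))) = τ b := by
      obtain ⟨σ, hσ⟩ := NumberField.ComplexEmbedding.exists_comp_symm_eq_of_comp_eq (k := ℚ)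
        (K := K) ((ω.comp (g1 : Ω →+* Ω)).comp κ) τ (by ext; simp)
      exact ⟨σ.symm, fun b => RingHom.congr_fun hσ b⟩
    have hfix : ∀ b : K, (∃ a : E, ε a = κ b) → h b = b := by
      rintro b ⟨a, ha⟩
      have h1 := hc a b ha.symm
      have h2 := hh b
      rw [← h1, ← hg1 a, ha] at h2
      exact κ.injective (g1.injective (ω.injective h2))
    obtain ⟨s, hs, hs'⟩ := mem_extGrp κ ε h hfix
    set g0 : Ω ≃ₐ[ℚ] Ω := g1 * s with hg0
    have hg0κ : ∀ b, ω (g0 (κ b)) = τ b := fun b => by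
      rw [hg0, AlgEquiv.mul_apply, hs', hh]
    have hg0ε : ∀ a, ω (g0 (ε a)) = τ' a := fun a => by
      rw [hg0, AlgEquiv.mul_apply, hs, hg1]
    refine (Finset.card_bij (fun t _ => g0 * t) ?_ ?_ ?_).symm
    · intro t ht
      have ht' := (Finset.mem_filter.1 ht).2
      refine Finset.mem_filter.2 ⟨Finset.mem_univ _, fun b => ?_, fun a => ?_⟩
      · rw [AlgEquiv.mul_apply, ht'.1, hg0κ]
      · rw [AlgEquiv.mul_apply, ht'.2, hg0ε]
    · intro t _ t' _ htt
      exact mul_left_cancel htt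
    · intro t ht
      have ht' := (Finset.mem_filter.1 ht).2
      refine ⟨g0⁻¹ * t, Finset.mem_filter.2 ⟨Finset.mem_univ _, fun b => ?_, fun a => ?_⟩, ?_⟩
      · rw [AlgEquiv.mul_apply]
        apply g0.injective
        have e1 : g0 (g0⁻¹ (t (κ b))) = t (κ b) := g0.apply_symm_apply _
        rw [e1]
        apply ω.injective
        rw [ht'.1, hg0κ]
      · rw [AlgEquiv.mul_apply]
        apply g0.injective
        have e1 : g0 (g0⁻¹ (t (ε a))) = t (ε a) := g0.apply_symm_apply _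
        rw [e1]
        apply ω.injective
        rw [ht'.2, hg0ε]
      · rw [mul_inv_cancel_left]
  · rw [Finset.card_eq_zero, Finset.filter_eq_empty_iff]
    rintro s _ ⟨h1, h2⟩
    apply hc
    intro a b hab
    rw [← h2, ← h1, hab]

/-- The automorphisms of `Ω` which are trivial on `K`. -/
def one' : Finset (Ω ≃ₐ[ℚ] Ω) := by
  classical
  exact Finset.univ.filter fun s => ∀ b, s (κ b) = κ b

omit [IsGalois ℚ Ω] [NumberField K] [IsGalois ℚ K] in
theorem one'_pos : 0 < (one' κ).card := by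
  classical
  refine Finset.card_pos.2 ⟨1, Finset.mem_filter.2 ⟨Finset.mem_univ _, fun b => rfl⟩⟩

omit [IsGalois ℚ K] in
theorem card_one (τ : K →+* ℂ) [DecidablePred fun s : Ω ≃ₐ[ℚ] Ω => ∀ b, ω (s (κ b)) = τ b] :
    (Finset.univ.filter fun s : Ω ≃ₐ[ℚ] Ω => ∀ b, ω (s (κ b)) = τ b).card = (one' κ).card := by
  classical
  obtain ⟨g0, hg0⟩ := exists_ext ω κ τ
  refine (Finset.card_bij (fun t _ => g0 * t) ?_ ?_ ?_).symm
  · intro t ht
    have ht' := (Finset.mem_filter.1 ht).2
    refine Finset.mem_filter.2 ⟨Finset.mem_univ _, fun b => ?_⟩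
    rw [AlgEquiv.mul_apply, ht', hg0]
  · intro t _ t' _ htt
    exact mul_left_cancel htt
  · intro t ht
    have ht' := (Finset.mem_filter.1 ht).2
    refine ⟨g0⁻¹ * t, Finset.mem_filter.2 ⟨Finset.mem_univ _, fun b => ?_⟩, ?_⟩
    · rw [AlgEquiv.mul_apply]
      apply g0.injective
      have e1 : g0 (g0⁻¹ (t (κ b))) = t (κ b) := g0.apply_symm_apply _
      rw [e1]
      apply ω.injective
      rw [ht', hg0]
    · rw [mul_inv_cancel_left]

end two

open scoped Classical in
/-- Averaging: a relation between the values of one family of embeddings gives relations for all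
embeddings of the Galois field `K`, where the embeddings of `E l` are averaged over the extensions
of an embedding of a subfield `L l` common to `K` and `E l`. -/
theorem avg {K : Type} [Field K] [NumberField K] [IsGalois ℚ K] (τ0 : K →+* ℂ) {m : ℕ}
    (E : Fin m → Type) [∀ l, Field (E l)] [∀ l, NumberField (E l)] (τ1 : ∀ l, E l →+* ℂ) :
    ∃ (L : Fin m → Type) (_ : ∀ l, Field (L l)) (_ : ∀ l, NumberField (L l))
      (j : ∀ l, L l →+* K) (k : ∀ l, L l →+* E l) (c : Fin m → ℚ),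
      ∀ (q : Fin m → ℚ) (g : K) (t : ∀ l, E l), τ0 g = ∑ l, (q l : ℂ) * τ1 l (t l) →
        ∀ τ : K →+* ℂ, τ g = ∑ l, ((q l * c l : ℚ) : ℂ) *
          ∑ τ' ∈ Finset.univ.filter (fun τ' : E l →+* ℂ => τ'.comp (k l) = τ.comp (j l)),
            τ' (t l) := by
  obtain ⟨Ω, fΩ, nΩ, gΩ, ω, κ, ε, hκ, hε'⟩ := exists_galois τ0 E τ1
  have hj : ∀ l, ∃ j : inter κ (ε l) →+* K, ∀ a, κ (j a) = ε l (a : E l) := fun l =>
    exists_j κ (ε l)
  choose j hj using hj
  refine ⟨fun l => inter κ (ε l), fun l => inferInstance, fun l => inferInstance, j,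
    fun l => algebraMap (inter κ (ε l)) (E l),
    fun l => ((both κ (ε l)).card : ℚ) / (one' κ).card, ?_⟩
  intro q g t hrel τ
  -- the relation in `Ω`
  have h1 : κ g = ∑ l, algebraMap ℚ Ω (q l) * ε l (t l) := by
    apply ω.injective
    have e1 : ω (κ g) = τ0 g := RingHom.congr_fun hκ g
    rw [e1, hrel, map_sum]
    refine Finset.sum_congr rfl fun l _ => ?_
    have e2 : ω (ε l (t l)) = τ1 l (t l) := RingHom.congr_fun (hε' l) (t l)
    rw [map_mul, e2]
    congr 1
    simp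
  -- apply the automorphisms
  have h2 : ∀ s : Ω ≃ₐ[ℚ] Ω, (∀ b, ω (s (κ b)) = τ b) →
      τ g = ∑ l, (q l : ℂ) * ω (s (ε l (t l))) := by
    intro s hs
    rw [← hs, h1, map_sum, map_sum]
    refine Finset.sum_congr rfl fun l _ => ?_
    rw [map_mul, map_mul, AlgEquiv.commutes]
    congr 1
    simp
  set N := Finset.univ.filter fun s : Ω ≃ₐ[ℚ] Ω => ∀ b, ω (s (κ b)) = τ b with hN
  have hcard : N.card = (one' κ).card := card_one ω κ τ
  have h3 : (N.card : ℂ) * τ g = ∑ l, (q l : ℂ) * ∑ s ∈ N, ω (s (ε l (t l))) := by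
    have : ∑ s ∈ N, τ g = ∑ s ∈ N, ∑ l, (q l : ℂ) * ω (s (ε l (t l))) :=
      Finset.sum_congr rfl fun s hs => h2 s (Finset.mem_filter.1 hs).2
    rw [Finset.sum_const, nsmul_eq_mul, Finset.sum_comm] at this
    rw [this]
    exact Finset.sum_congr rfl fun l _ => by rw [Finset.mul_sum]
  -- group by the restriction to `E l`
  have h4 : ∀ l, ∑ s ∈ N, ω (s (ε l (t l))) = ((both κ (ε l)).card : ℂ) *
      ∑ τ' ∈ Finset.univ.filter (fun τ' : E l →+* ℂ =>
        τ'.comp (algebraMap (inter κ (ε l)) (E l)) = τ.comp (j l)), τ' (t l) := by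
    intro l
    have e1 : ∑ s ∈ N, ω (s (ε l (t l))) = ∑ τ' : E l →+* ℂ,
        ∑ s ∈ N.filter (fun s : Ω ≃ₐ[ℚ] Ω => ((ω.comp (s : Ω →+* Ω)).comp (ε l)) = τ'),
          ω (s (ε l (t l))) :=
      (Finset.sum_fiberwise N (fun s : Ω ≃ₐ[ℚ] Ω => (ω.comp (s : Ω →+* Ω)).comp (ε l))
        (fun s => ω (s (ε l (t l))))).symm
    have e2 : ∀ τ' : E l →+* ℂ,
        ∑ s ∈ N.filter (fun s : Ω ≃ₐ[ℚ] Ω => ((ω.comp (s : Ω →+* Ω)).comp (ε l)) = τ'),
          ω (s (ε l (t l))) =
        (if τ'.comp (algebraMap (inter κ (ε l)) (E l)) = τ.comp (j l) then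
          ((both κ (ε l)).card : ℂ) * τ' (t l) else 0) := by
      intro τ'
      have e3 : ∀ s ∈ N.filter (fun s : Ω ≃ₐ[ℚ] Ω => ((ω.comp (s : Ω →+* Ω)).comp (ε l)) = τ'),
          ω (s (ε l (t l))) = τ' (t l) := by
        intro s hs
        exact RingHom.congr_fun (Finset.mem_filter.1 hs).2 (t l)
      rw [Finset.sum_congr rfl e3, Finset.sum_const, nsmul_eq_mul]
      have e4 : N.filter (fun s : Ω ≃ₐ[ℚ] Ω => ((ω.comp (s : Ω →+* Ω)).comp (ε l)) = τ') =
          Finset.univ.filter fun s : Ω ≃ₐ[ℚ] Ω =>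
            (∀ b, ω (s (κ b)) = τ b) ∧ ∀ a, ω (s (ε l a)) = τ' a := by
        ext s
        simp only [hN, Finset.mem_filter, Finset.mem_univ, true_and]
        constructor
        · rintro ⟨h, h'⟩
          exact ⟨h, fun a => RingHom.congr_fun h' a⟩
        · rintro ⟨h, h'⟩
          exact ⟨h, RingHom.ext h'⟩
      rw [e4, card_pair ω κ (ε l) τ τ']
      have e5 : (∀ a b, κ b = ε l a → τ' a = τ b) ↔
          τ'.comp (algebraMap (inter κ (ε l)) (E l)) = τ.comp (j l) := by
        constructor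
        · intro h
          ext a
          exact h a (j l a) (hj l a)
        · intro h a b hab
          have ha : a ∈ inter κ (ε l) := ⟨b, hab⟩
          have h5 := RingHom.congr_fun h ⟨a, ha⟩
          have h6 : j l ⟨a, ha⟩ = b := by
            apply κ.injective
            rw [hj, hab]
          rw [RingHom.comp_apply, RingHom.comp_apply, h6] at h5
          exact h5
      by_cases h7 : τ'.comp (algebraMap (inter κ (ε l)) (E l)) = τ.comp (j l)
      · rw [if_pos (e5.2 h7), if_pos h7]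
      · rw [if_neg (fun h => h7 (e5.1 h)), if_neg h7]
        simp
    rw [e1, Finset.sum_congr rfl fun τ' _ => e2 τ', ← Finset.sum_filter, ← Finset.mul_sum]
  have hpos : ((one' κ).card : ℂ) ≠ 0 := by
    have := one'_pos κ
    exact_mod_cast this.ne'
  rw [hcard] at h3
  have h5 : τ g = (∑ l, (q l : ℂ) * ∑ s ∈ N, ω (s (ε l (t l)))) / (one' κ).card := by
    rw [← h3]
    field_simp
  rw [h5, Finset.sum_div]
  refine Finset.sum_congr rfl fun l _ => ?_
  rw [h4 l]
  push_cast
  ring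

end GD.DT
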