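import Pool.Agent.H27.GD.Tree
import Pool.Agent.H27.GD.Gal

/-!
# The main formula

The action of the natural derivations on an admissible family in a generated structure is a
rational combination of the traces on the simple constituents.
-/

set_option autoImplicit false

noncomputable section

namespace GD.DT

open Complex GD

/-- A rational vector in the span of a family is a value of the family. -/
theorem fam_rat {R : Str} {F : Type} [Field F] [NumberField F] (f : Fam R F)
    (a : (F →+* ℂ) → ℂ) (h : ∑ s, a s • f.v s ∈ R.B) : ∃ y : F, ∀ s, a s = s y := by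
  classical
  obtain ⟨l, hl⟩ : ∃ l : ℂ →ₗ[ℚ] ℚ, l 1 = 1 := by
    obtain ⟨g, hg⟩ := Module.Projective.exists_dual_ne_zero ℚ (one_ne_zero : (1 : ℂ) ≠ 0)
    refine ⟨(g 1)⁻¹ • g, ?_⟩
    rw [LinearMap.smul_apply, smul_eq_mul, inv_mul_cancel₀ hg]
  have h1 : prt R l (∑ s, a s • f.v s) = ∑ s, a s • f.v s := by
    rw [prt_of_mem R l h, hl, one_smul]
  have h2 : ∑ s, a s • f.v s = ∑ i, (∑ s, a s * s (bad F i)) • ∑ σ : F →+* ℂ,
      σ (bas F i) • f.v σ := by
    have : ∀ s, a s • f.v s = ∑ i, (a s * s (bad F i)) • ∑ σ : F →+* ℂ,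
        σ (bas F i) • f.v σ := by
      intro s
      conv_lhs => rw [recover F f.v s]
      rw [Finset.smul_sum]
      exact Finset.sum_congr rfl fun i _ => by rw [smul_smul]
    rw [Finset.sum_congr rfl fun s _ => this s, Finset.sum_comm]
    exact Finset.sum_congr rfl fun i _ => by rw [Finset.sum_smul]
  obtain ⟨q, hq⟩ : ∃ q : Fin (Module.finrank ℚ F) → ℚ, ∀ i, q i = l (∑ s, a s * s (bad F i)) :=
    ⟨_, fun i => rfl⟩
  have h3 : prt R l (∑ s, a s • f.v s) = ∑ i, q i • ∑ σ : F →+* ℂ, σ (bas F i) • f.v σ := by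
    rw [h2, map_sum]
    exact Finset.sum_congr rfl fun i _ => by rw [prt_smul R l _ (f.rat (bas F i)), hq]
  refine ⟨∑ i, q i • bas F i, fun s => ?_⟩
  have h4 : ∑ σ, a σ • f.v σ = ∑ σ : F →+* ℂ, σ (∑ i, q i • bas F i) • f.v σ := by
    rw [← h1, h3]
    simp only [Finset.smul_sum, map_sum, Finset.sum_smul]
    rw [Finset.sum_comm]
    refine Finset.sum_congr rfl fun σ _ => Finset.sum_congr rfl fun i _ => ?_
    rw [map_rat_smul σ, smul_assoc]
  have h5 : ∑ σ : F →+* ℂ, (a σ - σ (∑ i, q i • bas F i)) • f.v σ = 0 := by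
    simp only [sub_smul, Finset.sum_sub_distrib]
    rw [← h4, sub_self]
  exact sub_eq_zero.1 (Fintype.linearIndependent_iff.1 f.lin _ h5 s)

/-- A rational operator acts on a family through an element of the field. -/
theorem chi_rat {R : Str} {F : Type} [Field F] [NumberField F] (f : Fam R F)
    (X : Module.End ℂ R.W) (hr : ∀ b ∈ R.B, X b ∈ R.B) (chi : (F →+* ℂ) → ℂ)
    (hchi : ∀ s, X (f.v s) = chi s • f.v s) : ∃ y : F, ∀ s, chi s = s y := by
  refine fam_rat f chi ?_
  have h1 := hr _ (f.rat 1)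
  rw [map_sum] at h1
  have h2 : ∑ s : F →+* ℂ, X (s 1 • f.v s) = ∑ s, chi s • f.v s :=
    Finset.sum_congr rfl fun s _ => by rw [map_one, one_smul, hchi]
  rwa [h2] at h1

open scoped Classical in
/-- Relative traces. -/
theorem exists_rel_trace {F K : Type} [Field F] [NumberField F] [Field K] [NumberField K]
    (i : K →+* F) (y : F) : ∃ g : K, ∀ τ : K →+* ℂ,
      ∑ s ∈ Finset.univ.filter (fun s : F →+* ℂ => s.comp i = τ), s y = τ g := by
  let : Algebra K F := i.toAlgebra
  have : IsScalarTower ℚ K F := IsScalarTower.of_algebraMap_eq' (Subsingleton.elim _ _)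
  have hfin : FiniteDimensional K F := Module.Finite.of_restrictScalars_finite ℚ K F
  refine ⟨Algebra.trace K F y, fun τ => ?_⟩
  let : Algebra K ℂ := τ.toAlgebra
  have h := trace_eq_sum_embeddings (K := K) (L := F) (E := ℂ) (x := y)
  have h2 : algebraMap K ℂ (Algebra.trace K F y) = τ (Algebra.trace K F y) := rfl
  rw [← h2, h]
  refine Finset.sum_bij' (fun s hs => ({ s with
      commutes' := fun r => RingHom.congr_fun (Finset.mem_filter.1 hs).2 r } : F →ₐ[K] ℂ))
    (fun σ _ => σ.toRingHom) ?_ ?_ ?_ ?_ ?_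
  · intro s hs
    exact Finset.mem_univ _
  · intro σ _
    refine Finset.mem_filter.2 ⟨Finset.mem_univ _, ?_⟩
    ext r
    exact σ.commutes r
  · intro s hs
    rfl
  · intro σ _
    rfl
  · intro s hs
    rfl

/-- The characters of a family. -/
def chiOf {R : Str} {F : Type} [Field F] [NumberField F] (f : Fam R F) (T : Op) :
    (F →+* ℂ) → ℂ := by
  classical
  exact if h : IsNat T then (exists_chi f h).choose else 0

theorem chiOf_spec {R : Str} {F : Type} [Field F] [NumberField F] (f : Fam R F) {T : Op}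
    (h : IsNat T) (s : F →+* ℂ) : T R (f.v s) = chiOf f T s • f.v s := by
  unfold chiOf
  rw [dif_pos h]
  exact (exists_chi f h).choose_spec s

theorem lchar_flat {C : Str → Prop} {α : Type} (L : List α) (ls : α → List (Leaf C)) (T : Op) :
    lchar (L.flatMap ls) T = (L.map fun a => lchar (ls a) T).sum := by
  induction L with
  | nil => rfl
  | cons a L ih => rw [List.flatMap_cons, lchar_append, ih, List.map_cons, List.sum_cons]

theorem lchar_fin {C : Str → Prop} (ls : List (Leaf C)) (T : Op) :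
    lchar ls T = ∑ l : Fin ls.length, (ls.get l).char T := by
  unfold lchar
  rw [← List.sum_ofFn]
  congr 1
  apply List.ext_getElem
  · simp
  · intro n h1 h2
    simp

open scoped Classical in
/-- The main formula. -/
theorem main_formula {C : Str → Prop} (hP : ∀ S, C S → Nonempty (Pol S)) {R : Str}
    (hR : Gen C R) {F : Type} [Field F] [NumberField F] (f : Fam R F) {K : Type} [Field K]
    [NumberField K] (i : K →+* F) (hGal : IsGalois ℚ K) :
    ∃ (n : ℕ) (D : Fin n → Datum C K), ∀ T : (R : Str) → Module.End ℂ R.W, IsNat T →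
      ∀ chi : (F →+* ℂ) → ℂ, (∀ s, T R (f.v s) = chi s • f.v s) → ∀ τ : K →+* ℂ,
        ∑ s ∈ Finset.univ.filter (fun s : F →+* ℂ => s.comp i = τ), chi s =
          ∑ k, ((D k).q : ℂ) * trOn (T (D k).S) (eig (D k).ι (τ.comp (D k).j)) := by
  -- characters of the lines
  have hls : ∀ s : F →+* ℂ, ∃ ls : List (Leaf C), ∀ T, IsNat T → chiOf f T s = lchar ls T :=
    fun s => chars hP hR (f.v_ne s) (fun T => chiOf f T s) fun T hT => chiOf_spec f hT s
  choose ls hls using hls
  obtain ⟨s0⟩ : Nonempty (F →+* ℂ) := inferInstance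
  let τ0 : K →+* ℂ := s0.comp i
  let LL : List (Leaf C) :=
    (Finset.univ.filter (fun s : F →+* ℂ => s.comp i = τ0)).toList.flatMap ls
  have hLL : ∀ T, IsNat T →
      ∑ s ∈ Finset.univ.filter (fun s : F →+* ℂ => s.comp i = τ0), chiOf f T s = lchar LL T := by
    intro T hT
    rw [lchar_flat, ← Finset.sum_map_toList]
    congr 1
    exact List.map_congr_left fun s _ => hls s T hT
  let leaf : Fin LL.length → Leaf C := fun l => LL.get l
  obtain ⟨L, fL, nL, j, k, c, havg⟩ := avg τ0 (fun l => (leaf l).E) (fun l => (leaf l).τ)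
  let nn : Fin LL.length → ℚ := fun l => (Module.finrank ℂ (eig (leaf l).ι (leaf l).τ) : ℚ)⁻¹
  have hcent : ∀ l, IsCentral ((leaf l).ι.comp (k l)) := fun l =>
    { isEnd := fun a => (leaf l).central.isEnd _
      comm := fun g hg a => (leaf l).central.comm g hg _ }
  let D : Fin LL.length → Datum C K := fun l =>
    { S := (leaf l).S
      mem := (leaf l).mem
      M := (leaf l).M
      simple := (leaf l).simple
      L := L l
      fL := fL l
      nL := nL l
      j := j l
      ι := (leaf l).ι.comp (k l)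
      central := hcent l
      q := nn l * c l }
  refine ⟨LL.length, D, ?_⟩
  have hst : ∀ l, ∀ T : Op, IsNat T → ∀ τ' : (leaf l).E →+* ℂ, ∀ x ∈ eig (leaf l).ι τ',
      T (leaf l).S x ∈ eig (leaf l).ι τ' := by
    intro l T hT τ'
    obtain ⟨P⟩ := hP _ (leaf l).mem
    exact nat_eig P (leaf l).simple.sub (leaf l).central.isEnd τ' hT
  have hstD : ∀ l, ∀ T : Op, IsNat T → ∀ ρ : (D l).L →+* ℂ, ∀ x ∈ eig (D l).ι ρ,
      T (D l).S x ∈ eig (D l).ι ρ := by
    intro l T hT ρ
    obtain ⟨P⟩ := hP _ (D l).mem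
    exact nat_eig P (D l).simple.sub (D l).central.isEnd ρ hT
  -- rational natural derivations
  have hrat : ∀ T, IsNat T → IsRat T → ∀ τ : K →+* ℂ,
      ∑ s ∈ Finset.univ.filter (fun s : F →+* ℂ => s.comp i = τ), chiOf f T s =
        ∑ l, ((D l).q : ℂ) * trOn (T (D l).S) (eig (D l).ι (τ.comp (D l).j)) := by
    intro T hT hr τ
    obtain ⟨y, hy⟩ := chi_rat f (T R) (hr R) (chiOf f T) (chiOf_spec f hT)
    obtain ⟨g, hg⟩ := exists_rel_trace i y
    have hg' : ∀ τ : K →+* ℂ,
        ∑ s ∈ Finset.univ.filter (fun s : F →+* ℂ => s.comp i = τ), chiOf f T s = τ g := by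
      intro τ
      rw [← hg τ]
      exact Finset.sum_congr rfl fun s _ => hy s
    have ht : ∀ l, ∃ t : (leaf l).E, ∀ τ' : (leaf l).E →+* ℂ,
        trOn (T (leaf l).S) (eig (leaf l).ι τ') = τ' t := by
      intro l
      obtain ⟨P⟩ := hP _ (leaf l).mem
      exact exists_trace (leaf l).ι (leaf l).simple.sub (leaf l).central.isEnd (T (leaf l).S)
        (nat_cx P (leaf l).simple.sub hT) (hr _)
        (fun a x => nat_end P (leaf l).simple.sub hT ((leaf l).central.isEnd a) x)
    choose t ht using ht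
    have hrel : τ0 g = ∑ l, ((nn l : ℚ) : ℂ) * (leaf l).τ (t l) := by
      rw [← hg' τ0, hLL T hT, lchar_fin]
      refine Finset.sum_congr rfl fun l _ => ?_
      have e1 : (leaf l).char T = trOn (T (leaf l).S) (eig (leaf l).ι (leaf l).τ) /
        Module.finrank ℂ (eig (leaf l).ι (leaf l).τ) := rfl
      change (leaf l).char T = _
      rw [e1, ht l, div_eq_inv_mul]
      congr 1
      simp [nn]
    rw [hg' τ, havg nn g t hrel τ]
    refine Finset.sum_congr rfl fun l _ => ?_
    obtain ⟨P⟩ := hP _ (leaf l).mem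
    have e2 := trOn_subfield (leaf l).ι (k l) (T (leaf l).S) (nat_cx P (leaf l).simple.sub hT)
      (fun a x => nat_end P (leaf l).simple.sub hT ((leaf l).central.isEnd a) x) (τ.comp (j l))
    have e3 : trOn (T (D l).S) (eig (D l).ι (τ.comp (D l).j)) =
        ∑ τ' ∈ Finset.univ.filter (fun τ' : (leaf l).E →+* ℂ => τ'.comp (k l) = τ.comp (j l)),
          trOn (T (leaf l).S) (eig (leaf l).ι τ') := e2
    rw [e3]
    congr 1
    exact Finset.sum_congr rfl fun τ' _ => (ht l τ').symm
  -- the general case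
  intro T hT chi hchi τ
  obtain ⟨n, a, m, hdec⟩ := exists_ratOp
    (fun o : Option (Fin LL.length) => Option.elim o R fun l => (D l).S) T
  have hdR : T R = ∑ p, a p • ratOp (m p) T R := hdec none
  have hdS : ∀ l, T (D l).S = ∑ p, a p • ratOp (m p) T (D l).S := fun l => hdec (some l)
  have hchi2 : ∀ s, chi s = ∑ p, a p * chiOf f (ratOp (m p) T) s := by
    intro s
    have h1 : chi s • f.v s = (∑ p, a p * chiOf f (ratOp (m p) T) s) • f.v s := by
      rw [← hchi s, hdR, LinearMap.sum_apply, Finset.sum_smul]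
      refine Finset.sum_congr rfl fun p _ => ?_
      rw [LinearMap.smul_apply, chiOf_spec f (isNat_ratOp hT (m p)), mul_smul]
    exact smul_left_injective ℂ (f.v_ne s) h1
  have htr : ∀ l, trOn (T (D l).S) (eig (D l).ι (τ.comp (D l).j)) =
      ∑ p, a p * trOn (ratOp (m p) T (D l).S) (eig (D l).ι (τ.comp (D l).j)) := by
    intro l
    rw [hdS l]
    have key : ∀ u : Finset (Fin n), (∀ x ∈ eig (D l).ι (τ.comp (D l).j),
        (∑ p ∈ u, a p • ratOp (m p) T (D l).S) x ∈ eig (D l).ι (τ.comp (D l).j)) ∧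
        trOn (∑ p ∈ u, a p • ratOp (m p) T (D l).S) (eig (D l).ι (τ.comp (D l).j)) =
        ∑ p ∈ u, a p * trOn (ratOp (m p) T (D l).S) (eig (D l).ι (τ.comp (D l).j)) := by
      intro u
      induction u using Finset.induction_on with
      | empty =>
        refine ⟨fun x _ => ?_, ?_⟩
        · rw [Finset.sum_empty, LinearMap.zero_apply]
          exact zero_mem _
        · rw [Finset.sum_empty, Finset.sum_empty, trOn_zero]
      | insert p u hp ih =>
        have h1 := hstD l _ (isNat_ratOp hT (m p)) (τ.comp (D l).j)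
        have h2 : ∀ x ∈ eig (D l).ι (τ.comp (D l).j),
            (a p • ratOp (m p) T (D l).S) x ∈ eig (D l).ι (τ.comp (D l).j) := fun x hx =>
          Submodule.smul_mem _ _ (h1 x hx)
        rw [Finset.sum_insert hp, Finset.sum_insert hp]
        refine ⟨fun x hx => add_mem (h2 x hx) (ih.1 x hx), ?_⟩
        rw [trOn_add _ _ _ h2 ih.1, trOn_smul _ _ _ h1, ih.2]
    exact (key Finset.univ).2
  rw [Finset.sum_congr rfl fun s _ => hchi2 s, Finset.sum_comm]
  simp only [htr, Finset.mul_sum]
  rw [Finset.sum_comm (s := Finset.univ) (t := Finset.univ)]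
  refine Finset.sum_congr rfl fun p _ => ?_
  have h3 := hrat _ (isNat_ratOp hT (m p)) (isRat_ratOp (m p) T) τ
  rw [← Finset.mul_sum, h3, Finset.mul_sum]
  exact Finset.sum_congr rfl fun l _ => by ring

end GD.DT
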