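import Pool.Agent.H27.GD.Transp

/-!
# The Gross-Deligne conjecture moves in algebraic families
-/

noncomputable section

namespace GD

open Complex NumberField

variable {S T : Str}

section flat

variable {V : Deform S T} {M : Submodule ℚ S.W} {K : Type} [Field K]
  {ι : K →+* Module.End ℂ (S.cx M)} {N : Submodule ℚ T.W} {κ : K →+* Module.End ℂ (T.cx N)}

theorem par_type (hV : V.FlatSub ι) (hMN : ∀ x, x ∈ M ↔ V.par x ∈ N)
    (hact : ∀ a (x : S.cx M) (y : T.cx N), V.par x = y → V.par (ι a x) = κ a y) :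
    detType κ = detType ι := by
  have key : ∀ (R : Str) (L : Submodule ℂ R.W) (n : ℕ), R.wt ≤ n →
      ∑ p ∈ Finset.range (n + 1), p * Module.finrank ℂ (L ⊓ R.hodge p : Submodule ℂ R.W) =
        ∑ p ∈ Finset.range (R.wt + 1), p * Module.finrank ℂ (L ⊓ R.hodge p : Submodule ℂ R.W) := by
    intro R L n hn
    symm
    apply Finset.sum_subset
    · intro p hp
      rw [Finset.mem_range] at hp ⊢
      omega
    · intro p _ hp
      rw [Finset.mem_range] at hp
      rw [R.hodge_large p (by omega), inf_bot_eq, finrank_bot, mul_zero]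
  funext τ
  rw [detType, detType, ← key S (eig ι τ) (max S.wt T.wt) (le_max_left _ _),
    ← key T (eig κ τ) (max S.wt T.wt) (le_max_right _ _)]
  refine Finset.sum_congr rfl fun p _ => ?_
  rw [par_eig hMN hact τ]
  exact congrArg (fun n => p * n) ((hV τ).2 p)

/-- A determinant of periods of the fibre `S` is a determinant of periods of the fibre `T`, up to
an algebraic factor. -/
theorem par_period [NumberField K] (hM : M ≤ S.B) (hMN : ∀ x, x ∈ M ↔ V.par x ∈ N)
    (hact : ∀ a (x : S.cx M) (y : T.cx N), V.par x = y → V.par (ι a x) = κ a y)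
    {τ : K →+* ℂ} (hL : V.AlgSub (eig ι τ)) {z : ℂ} (hz : IsDetPeriod ι τ z) :
    ∃ z', IsDetPeriod κ τ z' ∧ Sim z z' := by
  have hz0 := hz
  obtain ⟨n, v, ω, Q, hv, hvL, -, -, hvM, -, -, -⟩ := hz
  obtain ⟨a, b, X, Y, ⟨ha, haL, haD, haX⟩, ⟨hb, hbL, hbD, hbY⟩, hsim⟩ := V.period hL hv hvL
  have h1 : IsDetPeriod ι τ X.det := ⟨n, v, a, X, hv, hvL, ha, haL, hvM, haD, haX, rfl⟩
  have hspan : ∀ w : Fin n → S.W, Submodule.span ℂ (Set.range w) = eig ι τ →
      Submodule.span ℂ (Set.range fun i => V.par (w i)) = eig κ τ := by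
    intro w hw
    have h2 : (Set.range fun i => V.par (w i)) = (V.par : S.W →ₗ[ℂ] T.W) '' Set.range w := by
      rw [← Set.range_comp]
      rfl
    rw [par_eig hMN hact τ, ← hw, Submodule.map_span, h2]
  have hlin : ∀ w : Fin n → S.W, LinearIndependent ℂ w →
      LinearIndependent ℂ fun i => V.par (w i) := fun w hw =>
    hw.map' (V.par : S.W →ₗ[ℂ] T.W) (LinearMap.ker_eq_bot.2 V.par.injective)
  refine ⟨Y.det, ⟨n, fun j => V.par (v j), fun i => V.par (b i), Y, hlin v hv, hspan v hvL,
    hlin b hb, hspan b hbL, fun j => ?_, hbD, fun i => ?_, rfl⟩, (detPeriod_sim hM ι hz0 h1).trans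
    hsim⟩
  · have h2 : Submodule.span Qbar (M : Set S.W) ≤
        (Submodule.span Qbar (N : Set T.W)).comap
          ((V.par : S.W →ₗ[ℂ] T.W).restrictScalars Qbar) := by
      rw [Submodule.span_le]
      intro x hx
      exact Submodule.subset_span ((hMN x).1 hx)
    exact h2 (hvM j)
  · change V.par (b i) = ∑ j, Y i j • V.par (v j)
    rw [hbY i, map_sum]
    exact Finset.sum_congr rfl fun j _ => map_smul _ _ _

end flat

end GD
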