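import Pool.Agent.H27.GD.DetStr
import Pool.Agent.H44.GD.Ten

/-!
# Bases of eigenspaces and the determinant map
-/

set_option autoImplicit false

noncomputable section

namespace GD.DT

open Complex GD NumberField Module

variable {S : Str} {M : Submodule ℚ S.W} {L : Type} [Field L] [NumberField L]
  (ι : L →+* Module.End ℂ (S.cx M))

/-- A basis of `M` over `L`, with the rank. -/
theorem exists_Lbasis_rank (hM : M ≤ S.B) (hι : ∀ a, IsEnd S M (ι a)) :
    ∃ (n : ℕ) (m : Fin n → S.cx M), n * finrank ℚ L = finrank ℚ M ∧ (∀ j, (m j : S.W) ∈ M) ∧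
      (∀ x : S.cx M, (x : S.W) ∈ M → ∃ a : Fin n → L, x = ∑ j, ι (a j) (m j)) ∧
      LinearIndependent ℂ (fun s : Fin (finrank ℚ L) × Fin n => ι (bas L s.1) (m s.2)) := by
  let _ := modL ι hι
  have hfin := finite_sub hM
  have htow : IsScalarTower ℚ L M := by
    refine ⟨fun q a x => ?_⟩
    apply Subtype.ext
    change (ι (q • a) ⟨x, Submodule.subset_span x.2⟩ : S.W) =
      q • (ι a ⟨x, Submodule.subset_span x.2⟩ : S.W)
    rw [iota_rat, ratC_smul]
    rfl
  have hfinL : Module.Finite L M := Module.Finite.of_restrictScalars_finite ℚ L M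
  obtain ⟨n, m, h1, h2, h3⟩ := exists_Lbasis ι hM hι
  refine ⟨n, m, ?_, h1, h2, h3⟩
  -- the family is a rational basis of `M`
  have hQ : LinearIndependent ℚ (fun s : Fin (finrank ℚ L) × Fin n =>
      (⟨(ι (bas L s.1) (m s.2) : S.W), (hι _).betti _ (h1 _)⟩ : M)) := by
    have h4 : LinearIndependent ℚ (fun s : Fin (finrank ℚ L) × Fin n =>
        (ι (bas L s.1) (m s.2) : S.W)) := by
      have h5 := h3.map' (S.cx M).subtype (Submodule.ker_subtype _)
      exact h5.restrict_scalars (by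
        intro x y h
        simp only [Algebra.smul_def, mul_one] at h
        exact (algebraMap ℚ ℂ).injective h)
    exact LinearIndependent.of_comp M.subtype h4
  have hsp : ⊤ ≤ Submodule.span ℚ (Set.range (fun s : Fin (finrank ℚ L) × Fin n =>
      (⟨(ι (bas L s.1) (m s.2) : S.W), (hι _).betti _ (h1 _)⟩ : M))) := by
    rintro ⟨x, hx⟩ _
    obtain ⟨a, ha⟩ := h2 ⟨x, Submodule.subset_span hx⟩ hx
    have h6 : (⟨x, hx⟩ : M) = ∑ s : Fin (finrank ℚ L) × Fin n, ((bas L).repr (a s.2) s.1) •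
        (⟨(ι (bas L s.1) (m s.2) : S.W), (hι _).betti _ (h1 _)⟩ : M) := by
      apply Subtype.ext
      rw [AddSubmonoidClass.coe_finsetSum]
      have h7 := congrArg Subtype.val ha
      rw [AddSubmonoidClass.coe_finsetSum] at h7
      change x = _ at h7
      change x = _
      rw [h7, Fintype.sum_prod_type, Finset.sum_comm]
      refine Finset.sum_congr rfl fun j _ => ?_
      conv_lhs => rw [← (bas L).sum_repr (a j), map_sum]
      rw [LinearMap.sum_apply, AddSubmonoidClass.coe_finsetSum]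
      refine Finset.sum_congr rfl fun i _ => ?_
      rw [iota_rat, Submodule.coe_smul, ← ratC_smul]
      rfl
    rw [h6]
    exact Submodule.sum_mem _ fun s _ => Submodule.smul_mem _ _ (Submodule.subset_span ⟨s, rfl⟩)
  have h8 := Module.finrank_eq_card_basis (Module.Basis.mk hQ hsp)
  rw [h8, Fintype.card_prod, Fintype.card_fin, Fintype.card_fin, mul_comm]

/-- The bases of the eigenspaces which come from an `L`-basis of `M`, and the alternating forms
which separate them. -/
theorem exists_det_basis (P : Pol S) (hM : IsSub S M) (hι : ∀ a, IsEnd S M (ι a))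
    (hne : M ≠ ⊥) :
    ∃ (k : ℕ) (m : Fin (k + 1) → S.cx M) (G : (L →+* ℂ) → (S.W [⋀^Fin (k + 1)]→ₗ[ℂ] ℂ)),
      (k + 1) * finrank ℚ L = finrank ℚ M ∧ (∀ j, (m j : S.W) ∈ M) ∧
      (∀ τ, LinearIndependent ℂ (fun j => (prj ι τ (m j) : S.W))) ∧
      (∀ τ, Submodule.span ℂ (Set.range fun j => (prj ι τ (m j) : S.W)) = eig ι τ) ∧
      (∀ τ, G τ (fun j => (prj ι τ (m j) : S.W)) = 1) ∧
      ∀ σ τ, σ ≠ τ → G σ (fun j => (prj ι τ (m j) : S.W)) = 0 := by
  classical
  obtain ⟨n, m, hrank, hmM, hm, hlin⟩ := exists_Lbasis_rank ι hM.le hι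
  obtain ⟨p0, hp0, hp1, hp2⟩ := exists_proj P hM
  -- the rank is positive
  have hn : n ≠ 0 := by
    rintro rfl
    apply hne
    rw [Submodule.eq_bot_iff]
    intro x hx
    obtain ⟨a, ha⟩ := hm ⟨x, Submodule.subset_span hx⟩ hx
    have := congrArg Subtype.val ha
    simpa using this
  obtain ⟨k, rfl⟩ := Nat.exists_eq_succ_of_ne_zero hn
  have heig : ∀ τ : L →+* ℂ, Submodule.span ℂ (Set.range fun j => (prj ι τ (m j) : S.W)) =
      eig ι τ := by
    intro τ
    apply le_antisymm
    · rw [Submodule.span_le]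
      rintro _ ⟨j, rfl⟩
      exact prj_mem_eig ι τ _
    · intro w hw
      have hw1 : w ∈ S.cx M := eig_le ι τ hw
      have h1 := prj_span ι hm τ ⟨w, hw1⟩
      have h2 : prj ι τ ⟨w, hw1⟩ = ⟨w, hw1⟩ := by
        have := prj_of_eig ι τ τ (x := ⟨w, hw1⟩) hw
        rw [if_pos rfl] at this
        exact this
      rw [h2] at h1
      have h3 := Submodule.mem_map_of_mem (f := (S.cx M).subtype) h1
      rw [Submodule.map_span, ← Set.range_comp] at h3
      exact h3
  have hvlin : ∀ τ : L →+* ℂ, LinearIndependent ℂ (fun j => (prj ι τ (m j) : S.W)) := fun τ =>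
    (prj_lin ι hlin τ).map' (S.cx M).subtype (Submodule.ker_subtype _)
  choose q hq using fun τ => exists_q ι hm hlin τ
  let p' : S.W →ₗ[ℂ] S.cx M := p0.codRestrict _ hp2
  have hp' : ∀ w, ((p' w : S.cx M) : S.W) = p0 w := fun w => rfl
  let G : (L →+* ℂ) → (S.W [⋀^Fin (k + 1)]→ₗ[ℂ] ℂ) := fun τ =>
    (Matrix.detRowAlternating (n := Fin (k + 1)) (R := ℂ)).compLinearMap (q τ ∘ₗ p')
  have hG : ∀ τ w, G τ w = Matrix.det (Matrix.of fun i j => q τ (p' (w i)) j) := fun τ w => rfl
  have h3 : ∀ τ i, p' (prj ι τ (m i) : S.W) = prj ι τ (m i) := by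
    intro τ i
    apply Subtype.ext
    rw [hp']
    exact hp1 _ (prj ι τ (m i)).2
  have h4 : ∀ σ τ i, prj ι σ (prj ι τ (m i)) = if τ = σ then prj ι τ (m i) else 0 :=
    fun σ τ i => prj_of_eig ι σ τ (prj_mem_eig ι τ _)
  refine ⟨k, m, G, hrank, hmM, hvlin, heig, ?_, ?_⟩
  · intro τ
    rw [hG]
    have h5 : (Matrix.of fun i j => q τ (p' (prj ι τ (m i) : S.W)) j) =
        (1 : Matrix (Fin (k + 1)) (Fin (k + 1)) ℂ) := by
      ext i j
      rw [Matrix.of_apply, h3]
      have h6 : q τ (prj ι τ (m i)) = (1 : Matrix (Fin (k + 1)) (Fin (k + 1)) ℂ) i := by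
        apply q_unique ι hlin τ
        rw [← hq, h4, if_pos rfl]
        simp [Matrix.one_apply]
      rw [h6]
    rw [h5, Matrix.det_one]
  · intro σ τ h
    rw [hG]
    have h5 : (Matrix.of fun i j => q σ (p' (prj ι τ (m i) : S.W)) j) =
        (0 : Matrix (Fin (k + 1)) (Fin (k + 1)) ℂ) := by
      ext i j
      rw [Matrix.of_apply, h3]
      have h6 : q σ (prj ι τ (m i)) = 0 := by
        apply q_unique ι hlin σ
        rw [← hq, h4, if_neg (fun h' => h h'.symm)]
        simp
      rw [h6]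
      rfl
    rw [h5, Matrix.det_zero]

/-- An alternating map at a combination of vectors. -/
theorem alt_comb {U W : Type*} [AddCommGroup W] [Module ℂ W] [AddCommGroup U] [Module ℂ U]
    {n : ℕ} (A : W [⋀^Fin n]→ₗ[ℂ] U) (v : Fin n → W) (P : Matrix (Fin n) (Fin n) ℂ) :
    A (fun i => ∑ j, P i j • v j) = P.det • A v := by
  classical
  let g : (Fin n → ℂ) [⋀^Fin n]→ₗ[ℂ] U := A.compLinearMap (Fintype.linearCombination ℂ v)
  let h : (Fin n → ℂ) [⋀^Fin n]→ₗ[ℂ] U :=
    (LinearMap.toSpanSingleton ℂ U (A v)).compAlternatingMap Matrix.detRowAlternating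
  have hgh : g = h := by
    apply Module.Basis.ext_alternating (Pi.basisFun ℂ (Fin n))
    intro s hs
    let e : Equiv.Perm (Fin n) := Equiv.ofBijective s (Finite.injective_iff_bijective.1 hs)
    have h1 : (fun i => (Pi.basisFun ℂ (Fin n)) (s i)) = (Pi.basisFun ℂ (Fin n)) ∘ e := rfl
    rw [h1, AlternatingMap.map_perm, AlternatingMap.map_perm]
    congr 1
    change A (fun i => Fintype.linearCombination ℂ v (Pi.basisFun ℂ (Fin n) i)) =
      Matrix.det (Matrix.of fun i => Pi.basisFun ℂ (Fin n) i) • A v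
    have h2 : (Matrix.of fun i => Pi.basisFun ℂ (Fin n) i) = (1 : Matrix (Fin n) (Fin n) ℂ) := by
      ext i j
      rw [Matrix.of_apply, Pi.basisFun_apply, Matrix.one_apply, Pi.single_apply]
      simp only [eq_comm]
    rw [h2, Matrix.det_one, one_smul]
    congr 1
    funext i
    rw [Pi.basisFun_apply, Fintype.linearCombination_apply_single, one_smul]
  have h5 := congrArg (fun F => F (fun i => P i)) hgh
  exact h5

/-- Independence of the alternating tensors of the eigenspaces. -/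
theorem alt_indep {k : ℕ} {v : (L →+* ℂ) → Fin (k + 1) → S.W}
    {G : (L →+* ℂ) → (S.W [⋀^Fin (k + 1)]→ₗ[ℂ] ℂ)} (hG1 : ∀ τ, G τ (v τ) = 1)
    (hG0 : ∀ σ τ, σ ≠ τ → G σ (v τ) = 0)
    (tp : MultilinearMap ℂ (fun _ : Fin (k + 1) => S.W) (S.tpow k).W)
    (htp : ∀ (f : MultilinearMap ℂ (fun _ : Fin (k + 1) => S.W) ℂ) x,
      lft S ℂ k f (tp x) = f x) :
    LinearIndependent ℂ (fun τ => MultilinearMap.alternatization tp (v τ)) := by
  classical
  have h1 : ∀ σ τ, lft S ℂ k (G σ).toMultilinearMap (MultilinearMap.alternatization tp (v τ)) =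
      ((k + 1).factorial : ℂ) * G σ (v τ) := by
    intro σ τ
    rw [MultilinearMap.alternatization_apply, map_sum]
    have h2 : ∀ s : Equiv.Perm (Fin (k + 1)), lft S ℂ k (G σ).toMultilinearMap
        (Equiv.Perm.sign s • (tp.domDomCongr s) (v τ)) = G σ (v τ) := by
      intro s
      have h3 : lft S ℂ k (G σ).toMultilinearMap ((tp.domDomCongr s) (v τ)) =
          G σ (fun i => v τ (s i)) := htp _ _
      have h4 : G σ (fun i => v τ (s i)) = Equiv.Perm.sign s • G σ (v τ) :=
        (G σ).map_perm (v τ) s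
      rw [Units.smul_def, map_zsmul, h3, h4, Units.smul_def, smul_smul]
      have h5 : ((Equiv.Perm.sign s : ℤˣ) : ℤ) * ((Equiv.Perm.sign s : ℤˣ) : ℤ) = 1 := by
        rw [← Units.val_mul, Int.units_mul_self, Units.val_one]
      rw [h5, one_smul]
    rw [Finset.sum_congr rfl fun s _ => h2 s, Finset.sum_const, Finset.card_univ,
      Fintype.card_perm, Fintype.card_fin, nsmul_eq_mul]
  rw [Fintype.linearIndependent_iff]
  intro a ha σ
  have h2 := congrArg (lft S ℂ k (G σ).toMultilinearMap) ha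
  rw [map_sum, map_zero, Finset.sum_eq_single σ] at h2
  · rw [map_smul, h1, hG1, mul_one, smul_eq_mul, mul_eq_zero] at h2
    exact h2.resolve_right (by exact_mod_cast (k + 1).factorial_ne_zero)
  · intro τ _ hτ
    rw [map_smul, h1, hG0 σ τ (Ne.symm hτ), mul_zero, smul_zero]
  · intro h
    exact absurd (Finset.mem_univ σ) h

/-- The type of the determinant from a homogeneous basis. -/
theorem sum_type (P : Pol S) (hM : IsSub S M) (hι : ∀ a, IsEnd S M (ι a)) (τ : L →+* ℂ) {k : ℕ}
    {b : Fin k → S.W} (hb : LinearIndependent ℂ b)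
    (hs : Submodule.span ℂ (Set.range b) = eig ι τ) {p : Fin k → ℕ}
    (hp : ∀ i, b i ∈ S.hodge (p i)) : ∑ i, p i = detType ι τ := by
  classical
  have hmem : ∀ i, b i ∈ eig ι τ := fun i => by
    rw [← hs]
    exact Submodule.subset_span ⟨i, rfl⟩
  let x : Fin k → eig ι τ := fun i => ⟨b i, hmem i⟩
  have hxlin : LinearIndependent ℂ x := LinearIndependent.of_comp (eig ι τ).subtype hb
  have hfr : finrank ℂ (eig ι τ) = k := by
    rw [← hs, finrank_span_eq_card hb, Fintype.card_fin]
  have hxs : ⊤ ≤ Submodule.span ℂ (Set.range x) := by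
    by_cases hk : k = 0
    · subst hk
      have : Subsingleton (eig ι τ) := Module.finrank_zero_iff.1 hfr
      intro y _
      rw [Subsingleton.elim y 0]
      exact zero_mem _
    · have : Nonempty (Fin k) := ⟨⟨0, Nat.pos_of_ne_zero hk⟩⟩
      rw [← (basisOfLinearIndependentOfCardEqFinrank hxlin (by rw [Fintype.card_fin, hfr])).span_eq,
        coe_basisOfLinearIndependentOfCardEqFinrank]
  let B : Module.Basis (Fin k) ℂ (eig ι τ) := Module.Basis.mk hxlin hxs
  have hB : ∀ i, B i = x i := fun i => by simp [B]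
  have hst : ∀ y ∈ eig ι τ, hOp S y ∈ eig ι τ :=
    eig_stable ι (hOp S) (nat_cx P hM isNat_hOp) (fun a y => nat_end P hM isNat_hOp (hι a) y) τ
  have h1 := trOn_hOp_eig ι hM hι τ
  rw [trOn_of_stable hst, LinearMap.trace_eq_matrix_trace ℂ B, Matrix.trace] at h1
  have h2 : ∀ i, ((hOp S).restrict hst) (B i) = (p i : ℂ) • B i := by
    intro i
    apply Subtype.ext
    rw [LinearMap.coe_restrict_apply, hB, Submodule.coe_smul]
    exact hodgeEnd_apply S _ (p i) _ (hp i)
  have h3 : ∑ i, ((p i : ℕ) : ℂ) = (detType ι τ : ℂ) := by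
    rw [← h1]
    refine Finset.sum_congr rfl fun i _ => ?_
    rw [Matrix.diag_apply, LinearMap.toMatrix_apply, h2, map_smul]
    simp
  exact_mod_cast h3

end GD.DT
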