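import Pool.Agent.H26.FM.Defs
import Pool.Agent.H44.GD.Sub2
import Pool.Agent.H27.GD.Nat

/-!
# The action on the isotypic part of a simple substructure
-/

noncomputable section

namespace GD

open Complex Module

variable {S : Str}

/-- The polarisation is nondegenerate on the right. -/
theorem pol_nondeg' (P : Pol S) {M : Submodule ℚ S.W} (hM : IsSub S M) {x : S.W}
    (hx : x ∈ S.cx M) (h : ∀ y ∈ S.cx M, P.E y x = 0) : x = 0 := by
  let Φ : S.cx M →ₗ[ℂ] Module.Dual ℂ (S.cx M) :=
    { toFun := fun x => (P.E (x : S.W)).comp (S.cx M).subtype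
      map_add' := fun x y => by
        ext z
        simp
      map_smul' := fun c x => by
        ext z
        simp }
  have hinj : Function.Injective Φ := by
    rw [← LinearMap.ker_eq_bot, LinearMap.ker_eq_bot']
    intro x hx
    apply Subtype.ext
    apply pol_nondeg P hM x.2
    intro y hy
    exact LinearMap.congr_fun hx ⟨y, hy⟩
  have hsurj : Function.Surjective Φ :=
    (LinearMap.injective_iff_surjective_of_finrank_eq_finrank
      (Subspace.dual_finrank_eq).symm).1 hinj
  have h1 : (⟨x, hx⟩ : S.cx M) = 0 := by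
    apply (Module.forall_dual_apply_eq_zero_iff ℂ _).1
    intro φ
    obtain ⟨y, rfl⟩ := hsurj φ
    exact h y y.2
  exact congrArg Subtype.val h1

/-- The adjoint of a morphism, followed by the projection to a substructure. -/
theorem exists_adj (P : Pol S) {M : Submodule ℚ S.W} (hM : IsSub S M) {g : Module.End ℂ S.W}
    (hg : IsHom S S g) :
    ∃ p : Module.End ℂ S.W, IsHom S S p ∧ (∀ w, p w ∈ S.cx M) ∧
      ∀ w, ∀ x ∈ S.cx M, P.E (p w) x = P.E w (g x) := by
  classical
  let Φ : S.cx M →ₗ[ℂ] Module.Dual ℂ (S.cx M) :=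
    { toFun := fun x => (P.E (x : S.W)).comp (S.cx M).subtype
      map_add' := fun x y => by
        ext z
        simp
      map_smul' := fun c x => by
        ext z
        simp }
  have hinj : Function.Injective Φ := by
    rw [← LinearMap.ker_eq_bot, LinearMap.ker_eq_bot']
    intro x hx
    apply Subtype.ext
    apply pol_nondeg P hM x.2
    intro y hy
    exact LinearMap.congr_fun hx ⟨y, hy⟩
  let Ψ : S.cx M ≃ₗ[ℂ] Module.Dual ℂ (S.cx M) :=
    LinearMap.linearEquivOfInjective Φ hinj (Subspace.dual_finrank_eq).symm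
  let r : S.W →ₗ[ℂ] Module.Dual ℂ (S.cx M) :=
    { toFun := fun x => (P.E x).comp (g.comp (S.cx M).subtype)
      map_add' := fun x y => by
        ext z
        simp
      map_smul' := fun c x => by
        ext z
        simp }
  let p : S.W →ₗ[ℂ] S.W := (S.cx M).subtype.comp (Ψ.symm.toLinearMap.comp r)
  have hpm : ∀ w, p w ∈ S.cx M := fun w => (Ψ.symm (r w)).2
  have hpE : ∀ w, ∀ y ∈ S.cx M, P.E (p w) y = P.E w (g y) := by
    intro w y hy
    have h1 : Ψ (Ψ.symm (r w)) = r w := Ψ.apply_symm_apply _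
    exact LinearMap.congr_fun h1 ⟨y, hy⟩
  have hpu : ∀ w, ∀ u ∈ S.cx M, (∀ y ∈ S.cx M, P.E u y = P.E w (g y)) → p w = u := by
    intro w u hu h
    apply sub_eq_zero.1
    apply pol_nondeg P hM (sub_mem (hpm w) hu)
    intro y hy
    rw [map_sub, LinearMap.sub_apply, hpE w y hy, h y hy, sub_self]
  refine ⟨p, ⟨rfl, ?_, ?_, ?_⟩, hpm, hpE⟩
  · -- rational
    intro b hb
    obtain ⟨l, hl⟩ := exists_ell
    have h1 : p b = rpart S l (p b) := by
      apply hpu b
      · exact Submodule.subset_span (rpart_cx l hM.le (hpm b))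
      · intro y hy
        induction hy using Submodule.span_induction with
        | mem y hy =>
          rw [pol_rpart P l _ (hM.le hy), hpE b y (Submodule.subset_span hy)]
          obtain ⟨q, hq⟩ := P.rat _ hb _ (hg.betti y (hM.le hy))
          rw [hq]
          have h2 : (q : ℂ) = q • (1 : ℂ) := by
            rw [Rat.smul_def, mul_one]
          rw [h2, map_smul, hl, smul_eq_mul, mul_one, Rat.smul_def, mul_one]
        | zero => rw [map_zero, map_zero, map_zero]
        | add x y _ _ hx hy => rw [map_add, map_add, map_add, hx, hy]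
        | smul a x _ hx => rw [map_smul, map_smul, map_smul, hx]
    rw [h1]
    exact hM.le (rpart_cx l hM.le (hpm b))
  · -- de Rham
    apply maps_D_of_nabD p
    intro δ w
    have hst : ∀ y ∈ S.cx M, S.nabD δ y ∈ S.cx M := by
      intro y hy
      exact nabD_span δ (S.cx M) (by simpa [Set.inter_def] using hM.deRham) hy
    symm
    apply hpu _ _ (hst _ (hpm w))
    intro y hy
    have h1 := pol_nabD P δ (p w) y
    have h2 := pol_nabD P δ w (g y)
    have h3 : S.nabD δ (g y) = g (S.nabD δ y) := nabD_nat δ g hg.deRham y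
    rw [hpE w y hy, hpE w _ (hst y hy)] at h1
    rw [h1, h3] at h2
    linear_combination h2
  · -- Hodge
    intro q w hw
    obtain ⟨u, hu1, hu2, hxu⟩ := hodge_comp hM.hodge (hpm w)
    have h0 : ∀ r ∈ Finset.range (S.wt + 1), r ≠ q → u r = 0 := by
      intro r hr hrq
      have hr' : r ≤ S.wt := by
        have := Finset.mem_range.1 hr
        omega
      apply pol_pos_ne P hr' (hu2 r)
      have hc := S.hodge_conj r hr' _ (hu2 r)
      have h1 := pol_comp P hu2 hr hc
      rw [← hxu, hpE w _ (conj_cx hM.le (hu1 r))] at h1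
      rw [← h1]
      exact P.orth q (S.wt - r) (by omega) _ hw _ (hg.hodge _ _ hc)
    rw [hxu]
    refine Submodule.sum_mem _ fun r hr => ?_
    by_cases hrq : r = q
    · rw [← hrq]
      exact hu2 r
    · rw [h0 r hr hrq]
      exact zero_mem _

/-- A morphism is zero or injective on a simple substructure. -/
theorem hom_inj (P : Pol S) {M : Submodule ℚ S.W} (hM : IsSimple S M) {g : Module.End ℂ S.W}
    (hg : IsHom S S g) (h0 : ∃ x ∈ S.cx M, g x ≠ 0) : ∀ x ∈ S.cx M, g x = 0 → x = 0 := by
  obtain ⟨p, hp, hpM, hpE⟩ := exists_adj P hM.sub hg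
  have hle : imgQ p S.B ≤ M := by
    rintro _ ⟨b, hb, rfl⟩
    exact mem_of_cx hM.sub.le (hpM b) (hp.betti b hb)
  rcases hM.min _ hle (isSub_img hp isSub_top) with h1 | h1
  · exfalso
    obtain ⟨x, hx, hgx⟩ := h0
    apply hgx
    apply pol_nondeg' P isSub_top (by rw [Str.cx_B]; exact Submodule.mem_top)
    intro y _
    rw [← hpE y x hx]
    have h2 : p y = 0 := by
      have h3 : S.cx S.B ≤ LinearMap.ker p := by
        rw [Submodule.span_le]
        intro b hb
        have h4 : p b ∈ imgQ p S.B := ⟨b, hb, rfl⟩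
        rw [h1, Submodule.mem_bot] at h4
        exact h4
      rw [Str.cx_B] at h3
      exact h3 Submodule.mem_top
    rw [h2, map_zero, LinearMap.zero_apply]
  · intro x hx hgx
    apply pol_nondeg' P hM.sub hx
    intro y hy
    have h2 : S.cx M = (S.cx S.B).map p := by
      rw [← cx_imgQ, h1]
    rw [h2] at hy
    obtain ⟨w, -, rfl⟩ := hy
    rw [hpE w x hx, hgx, map_zero]

section iso

variable (S)
variable (M : Submodule ℚ S.W)

/-- the isotypic part, rationally -/
def isoQ : Submodule ℚ S.W := ⨆ u : {u : Module.End ℂ S.W // IsHom S S u}, imgQ u.1 M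

variable {S}

theorem cx_iSup_le {J : Type} {N : J → Submodule ℚ S.W} {X : Submodule ℂ S.W}
    (h : ∀ i, S.cx (N i) ≤ X) : S.cx (⨆ i, N i) ≤ X := by
  rw [Submodule.span_le]
  have h1 : (⨆ i, N i) ≤ X.restrictScalars ℚ :=
    iSup_le fun i y hy => h i (Submodule.subset_span hy)
  exact h1

theorem cx_mono {N N' : Submodule ℚ S.W} (h : N ≤ N') : S.cx N ≤ S.cx N' :=
  Submodule.span_mono h

theorem isSub_iSup {J : Type} {N : J → Submodule ℚ S.W} (h : ∀ i, IsSub S (N i)) :
    IsSub S (⨆ i, N i) where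
  le := iSup_le fun i => (h i).le
  hodge := by
    apply cx_iSup_le
    intro i
    refine (h i).hodge.trans (iSup_mono fun p => ?_)
    exact inf_le_inf_right _ (cx_mono (le_iSup N i))
  deRham := by
    apply cx_iSup_le
    intro i
    refine (h i).deRham.trans (Submodule.span_mono ?_)
    rintro x ⟨hx1, hx2⟩
    exact ⟨hx1, cx_mono (le_iSup N i) hx2⟩

variable {M}

theorem isSub_iso (hM : IsSub S M) : IsSub S (isoQ S M) :=
  isSub_iSup fun u => isSub_img u.2 hM

theorem map_mem_iso {u : Module.End ℂ S.W} (hu : IsHom S S u) {x : S.W} (hx : x ∈ S.cx M) :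
    u x ∈ S.cx (isoQ S M) := by
  have h1 : S.cx (imgQ u M) ≤ S.cx (isoQ S M) :=
    cx_mono (le_iSup (fun u : {u : Module.End ℂ S.W // IsHom S S u} => imgQ u.1 M) ⟨u, hu⟩)
  apply h1
  rw [cx_imgQ]
  exact Submodule.mem_map_of_mem hx

theorem hom_iso {f : Module.End ℂ S.W} (hf : IsHom S S f) {x : S.W}
    (hx : x ∈ S.cx (isoQ S M)) : f x ∈ S.cx (isoQ S M) := by
  have h1 : S.cx (isoQ S M) ≤ (S.cx (isoQ S M)).comap f := by
    apply cx_iSup_le
    intro u
    rw [cx_imgQ]
    rintro _ ⟨y, hy, rfl⟩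
    exact map_mem_iso (hf.comp u.2) hy
  exact h1 hx

/-- No morphisms from the complement to the isotypic part. -/
theorem hom_compl (P : Pol S) (hM : IsSub S M) {p : Module.End ℂ S.W} (hp : IsHom S S p)
    (hp1 : ∀ w ∈ S.cx (isoQ S M), p w = w) (hp2 : ∀ w, p w ∈ S.cx (isoQ S M))
    {f : Module.End ℂ S.W} (hf : IsHom S S f) (w : S.W) : p (f (w - p w)) = 0 := by
  have hI := isSub_iso (S := S) hM
  let g : Module.End ℂ S.W := p.comp (f.comp (LinearMap.id - p))
  have hg : IsHom S S g := hp.comp (hf.comp ((IsHom.id S).sub hp))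
  have hgw : ∀ w, g w = p (f (w - p w)) := fun _ => rfl
  have hgI : ∀ x ∈ S.cx (isoQ S M), g x = 0 := by
    intro x hx
    rw [hgw, hp1 x hx, sub_self, map_zero, map_zero]
  obtain ⟨g', hg', -, hE⟩ := exists_adj P (isSub_top (S := S)) hg
  have hall : ∀ w : S.W, w ∈ S.cx S.B := by
    intro w
    rw [Str.cx_B]
    exact Submodule.mem_top
  have h1 : ∀ y ∈ S.cx (isoQ S M), g' y = 0 := by
    intro y hy
    apply pol_nondeg P hI (hom_iso hg' hy)
    intro x hx
    rw [hE y x (hall x), hgI x hx, map_zero]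
  rw [← hgw]
  apply pol_nondeg' P hI (hp2 _)
  intro y hy
  have h2 := hE y w (hall w)
  rw [h1 y hy, map_zero, LinearMap.zero_apply] at h2
  exact h2.symm

end iso

section tot

variable {M : Submodule ℚ S.W} {s : ℕ}

/-- the sum of morphisms from copies of `M` -/
def tot (u : Fin s → Module.End ℂ S.W) : (Fin s → S.cx M) →ₗ[ℂ] S.W :=
  ∑ j, (u j).comp ((S.cx M).subtype.comp (LinearMap.proj j))

theorem tot_apply (u : Fin s → Module.End ℂ S.W) (x : Fin s → S.cx M) :
    tot u x = ∑ j, u j (x j) := by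
  rw [tot, LinearMap.sum_apply]
  rfl

theorem tot_cons (v : Module.End ℂ S.W) (u : Fin s → Module.End ℂ S.W)
    (x : Fin (s + 1) → S.cx M) :
    tot (Fin.cons v u : Fin (s + 1) → Module.End ℂ S.W) x =
      v (x 0) + tot u (fun j => x j.succ) := by
  rw [tot_apply, tot_apply, Fin.sum_univ_succ]
  simp

open Classical in
theorem tot_single (u : Fin s → Module.End ℂ S.W) (j : Fin s) (x : S.cx M) :
    tot u (Pi.single j x : Fin s → S.cx M) = u j x := by
  rw [tot_apply, Finset.sum_eq_single j]
  · rw [Pi.single_eq_same]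
  · intro i _ hij
    rw [Pi.single_eq_of_ne hij]
    exact map_zero (u i)
  · intro h
    exact absurd (Finset.mem_univ j) h

/-- A substructure of the isotypic part is a sum of copies. -/
theorem exists_decomp (P : Pol S) (hM : IsSimple S M) : ∀ (n : ℕ) (N : Submodule ℚ S.W),
    IsSub S N → S.cx N ≤ S.cx (isoQ S M) → Module.finrank ℚ N = n →
      ∃ (s : ℕ) (u : Fin s → Module.End ℂ S.W), (∀ j, IsHom S S (u j)) ∧
        Function.Injective (tot u : (Fin s → S.cx M) →ₗ[ℂ] S.W) ∧
        LinearMap.range (tot u : (Fin s → S.cx M) →ₗ[ℂ] S.W) = S.cx N := by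
  intro n
  induction n using Nat.strong_induction_on with
  | _ n ih =>
    intro N hN hNI hn
    by_cases h0 : N = ⊥
    · refine ⟨0, Fin.elim0, fun j => j.elim0, fun x y _ => Subsingleton.elim _ _, ?_⟩
      rw [h0]
      have h1 : S.cx (⊥ : Submodule ℚ S.W) = ⊥ := by simp
      rw [h1, LinearMap.range_eq_bot]
      refine LinearMap.ext fun x => ?_
      rw [Subsingleton.elim x 0, map_zero, map_zero]
    obtain ⟨pN, hpN, hpN1, hpN2⟩ := exists_proj P hN
    have hex : ∃ u : Module.End ℂ S.W, IsHom S S u ∧ ∃ x ∈ S.cx M, pN (u x) ≠ 0 := by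
      by_contra hcon
      push Not at hcon
      apply h0
      have h1 : S.cx (isoQ S M) ≤ LinearMap.ker pN := by
        apply cx_iSup_le
        intro u
        rw [cx_imgQ]
        rintro _ ⟨y, hy, rfl⟩
        exact hcon u.1 u.2 y hy
      rw [Submodule.eq_bot_iff]
      intro x hx
      have h2 : x ∈ S.cx N := Submodule.subset_span hx
      rw [← hpN1 x h2]
      exact h1 (hNI h2)
    obtain ⟨u, hu, x₀, hx₀, hux₀⟩ := hex
    let v : Module.End ℂ S.W := pN.comp u
    have hv : IsHom S S v := hpN.comp hu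
    have hvN : ∀ w, v w ∈ S.cx N := fun w => hpN2 _
    have hvinj : ∀ x ∈ S.cx M, v x = 0 → x = 0 := hom_inj P hM hv ⟨x₀, hx₀, hux₀⟩
    let N₁ := imgQ v M
    have hN₁ : IsSub S N₁ := isSub_img hv hM.sub
    have hN₁N : N₁ ≤ N := by
      rintro _ ⟨x, hx, rfl⟩
      exact mem_of_cx hN.le (hvN x) (hv.betti x (hM.sub.le hx))
    have hN₁0 : N₁ ≠ ⊥ := by
      intro h1
      apply hM.ne
      rw [Submodule.eq_bot_iff]
      intro x hx
      apply hvinj x (Submodule.subset_span hx)
      have h2 : v x ∈ N₁ := ⟨x, hx, rfl⟩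
      rw [h1, Submodule.mem_bot] at h2
      exact h2
    obtain ⟨q, hq, hq1, hq2⟩ := exists_proj P hN₁
    have hid : IsHom S S (LinearMap.id - q) := (IsHom.id S).sub hq
    let N₂ := imgQ (LinearMap.id - q : Module.End ℂ S.W) N
    have hN₂ : IsSub S N₂ := isSub_img hid hN
    have hN₂N : N₂ ≤ N := by
      rintro _ ⟨x, hx, rfl⟩
      refine sub_mem hx (hN₁N ?_)
      exact mem_of_cx hN₁.le (hq2 x) (hq.betti x (hN.le hx))
    have hker : S.cx N₂ ≤ LinearMap.ker q := by
      rw [cx_imgQ]
      rintro _ ⟨x, -, rfl⟩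
      rw [LinearMap.mem_ker, LinearMap.sub_apply, LinearMap.id_apply, map_sub, hq1 _ (hq2 x),
        sub_self]
    haveI := finite_sub hN.le
    have hlt : Module.finrank ℚ N₂ < n := by
      rw [← hn]
      apply Submodule.finrank_lt_finrank_of_lt
      refine lt_of_le_of_ne hN₂N fun heq => ?_
      apply hN₁0
      rw [Submodule.eq_bot_iff]
      intro x hx
      have h2 : x ∈ N₂ := by
        rw [heq]
        exact hN₁N hx
      rw [← hq1 x (Submodule.subset_span hx)]
      exact hker (Submodule.subset_span h2)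
    obtain ⟨s, u', hu', hinj, hran⟩ := ih _ hlt N₂ hN₂ ((cx_mono hN₂N).trans hNI) rfl
    refine ⟨s + 1, Fin.cons v u', ?_, ?_, ?_⟩
    · intro j
      refine Fin.cases ?_ (fun i => ?_) j
      · exact hv
      · exact hu' i
    · rw [← LinearMap.ker_eq_bot, LinearMap.ker_eq_bot']
      intro x hx
      rw [tot_cons] at hx
      have h1 : v (x 0) ∈ S.cx N₁ := by
        rw [cx_imgQ]
        exact Submodule.mem_map_of_mem (x 0).2
      have h2 : tot u' (fun j => x j.succ) ∈ S.cx N₂ := by
        rw [← hran]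
        exact ⟨_, rfl⟩
      have h3 := congrArg q hx
      rw [map_add, hq1 _ h1, hker h2, add_zero, map_zero] at h3
      have h4 : x 0 = 0 := Subtype.ext (hvinj _ (x 0).2 h3)
      rw [h3, zero_add] at hx
      have h5 : (fun j => x j.succ) = (0 : Fin s → S.cx M) := by
        apply hinj
        rw [hx, map_zero]
      funext j
      refine Fin.cases ?_ (fun i => ?_) j
      · exact h4
      · exact congrFun h5 i
    · apply le_antisymm
      · rintro _ ⟨x, rfl⟩
        rw [tot_cons]
        refine add_mem (hvN _) (cx_mono hN₂N ?_)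
        rw [← hran]
        exact ⟨_, rfl⟩
      · intro w hw
        have h1 : q w ∈ S.cx N₁ := hq2 w
        rw [cx_imgQ] at h1
        obtain ⟨x₁, hx₁, hx₁'⟩ := h1
        have h2 : w - q w ∈ S.cx N₂ := by
          rw [cx_imgQ]
          exact ⟨w, hw, rfl⟩
        rw [← hran] at h2
        obtain ⟨x₂, hx₂⟩ := h2
        refine ⟨Fin.cons ⟨x₁, hx₁⟩ x₂, ?_⟩
        rw [tot_cons]
        simp only [Fin.cons_zero, Fin.cons_succ]
        rw [hx₁', hx₂]
        abel

/-- the rational part commutes with the morphisms -/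
theorem rpart_hom (l : ℂ →ₗ[ℚ] ℚ) {f : Module.End ℂ S.W} (hf : ∀ x ∈ S.B, f x ∈ S.B) (w : S.W) :
    rpart S l (f w) = f (rpart S l w) := by
  have h : ∀ c : ℂ, rpart S l (f (c • w)) = f (rpart S l (c • w)) := by
    refine S.B_form.inductionOn w
      (fun w => ∀ c : ℂ, rpart S l (f (c • w)) = f (rpart S l (c • w))) ?_ ?_ ?_ ?_
    · intro c
      simp
    · intro b c
      rw [Submodule.subtype_apply, map_smul, rpart_smul l c (hf _ b.2), rpart_smul l c b.2,
        map_smul]
    · intro s n ih c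
      rw [smul_smul]
      exact ih _
    · intro a b ha hb c
      rw [smul_add, map_add, map_add, ha, hb, map_add, map_add]
  have h1 := h 1
  rwa [one_smul] at h1

section coord

variable {u : Fin s → Module.End ℂ S.W} (hu : ∀ j, IsHom S S (u j))
  (hinj : Function.Injective (tot u : (Fin s → S.cx M) →ₗ[ℂ] S.W))

include hu hinj

theorem coord_B (hM : M ≤ S.B) {x : Fin s → S.cx M} (hx : tot u x ∈ S.B) (j : Fin s) :
    (x j : S.W) ∈ M := by
  obtain ⟨l, hl⟩ := exists_ell
  let y : Fin s → S.cx M := fun j =>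
    ⟨rpart S l (x j), Submodule.subset_span (rpart_cx l hM (x j).2)⟩
  have h1 : tot u y = tot u x := by
    rw [← rpart_B l hl hx, tot_apply, tot_apply, map_sum]
    exact Finset.sum_congr rfl fun j _ => (rpart_hom l (hu j).betti _).symm
  have h2 := congrFun (hinj h1) j
  rw [← h2]
  exact rpart_cx l hM (x j).2

theorem coord_D (hM : IsSub S M) {x : Fin s → S.cx M} (hx : tot u x ∈ S.D) (j : Fin s) :
    (x j : S.W) ∈ S.D := by
  apply S.mem_D_of_nabD
  intro δ
  have hst : ∀ y ∈ S.cx M, S.nabD δ y ∈ S.cx M := fun y hy =>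
    nabD_span δ (S.cx M) (by simpa [Set.inter_def] using hM.deRham) hy
  let y : Fin s → S.cx M := fun j => ⟨S.nabD δ (x j), hst _ (x j).2⟩
  have h1 : tot u y = tot u (0 : Fin s → S.cx M) := by
    rw [map_zero, ← S.nabD_D δ hx, tot_apply, tot_apply, map_sum]
    exact Finset.sum_congr rfl fun j _ => (nabD_nat δ (u j) (hu j).deRham _).symm
  exact congrArg Subtype.val (congrFun (hinj h1) j)

theorem coord_hodge (hM : IsSub S M) {q : ℕ} {x : Fin s → S.cx M} (hx : tot u x ∈ S.hodge q)
    (j : Fin s) : (x j : S.W) ∈ S.hodge q := by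
  classical
  let c : ℕ → ℂ := fun p => if p = q then 0 else 1
  have hE : ∀ z ∈ S.cx M, DT.hodgeEnd S c z ∈ S.cx M ∧ z - DT.hodgeEnd S c z ∈ S.hodge q := by
    intro z hz
    obtain ⟨v, hv1, hv2, hzv⟩ := hodge_comp hM.hodge hz
    have h1 : DT.hodgeEnd S c z = ∑ p ∈ Finset.range (S.wt + 1), c p • v p := by
      rw [hzv, map_sum]
      exact Finset.sum_congr rfl fun p _ => DT.hodgeEnd_apply S c p _ (hv2 p)
    constructor
    · rw [h1]
      exact Submodule.sum_mem _ fun p _ => Submodule.smul_mem _ _ (hv1 p)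
    · rw [h1]
      have h0 : z - ∑ p ∈ Finset.range (S.wt + 1), c p • v p =
          ∑ p ∈ Finset.range (S.wt + 1), (v p - c p • v p) := by
        rw [Finset.sum_sub_distrib, ← hzv]
      rw [h0]
      refine Submodule.sum_mem _ fun p _ => ?_
      by_cases hpq : p = q
      · have h2 : c p = 0 := if_pos hpq
        rw [h2, zero_smul, sub_zero, ← hpq]
        exact hv2 p
      · have h2 : c p = 1 := if_neg hpq
        rw [h2, one_smul, sub_self]
        exact zero_mem _
  let y : Fin s → S.cx M := fun j => ⟨DT.hodgeEnd S c (x j), (hE _ (x j).2).1⟩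
  have h1 : tot u y = tot u (0 : Fin s → S.cx M) := by
    have h2 : DT.hodgeEnd S c (tot u x) = 0 := by
      rw [DT.hodgeEnd_apply S c q _ hx]
      have h3 : c q = 0 := if_pos rfl
      rw [h3, zero_smul]
    rw [map_zero, ← h2, tot_apply, tot_apply, map_sum]
    exact Finset.sum_congr rfl fun j _ => (DT.map_hodgeEnd (hu j).hodge _ _).symm
  have h2 : DT.hodgeEnd S c (x j) = 0 := congrArg Subtype.val (congrFun (hinj h1) j)
  have h3 := (hE _ (x j).2).2
  rwa [h2, sub_zero] at h3

end coord

theorem iSupIndep_tot {u : Fin s → Module.End ℂ S.W}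
    (hinj : Function.Injective (tot u : (Fin s → S.cx M) →ₗ[ℂ] S.W)) :
    iSupIndep fun j => (S.cx M).map (u j) := by
  classical
  intro j
  rw [Submodule.disjoint_def]
  rintro _ ⟨x, hx, rfl⟩ h
  have h1 : (⨆ (i) (_ : i ≠ j), (S.cx M).map (u i)) ≤
      (LinearMap.ker (LinearMap.proj j : (Fin s → S.cx M) →ₗ[ℂ] S.cx M)).map (tot u) := by
    refine iSup₂_le fun i hi => ?_
    rintro _ ⟨z, hz, rfl⟩
    refine ⟨Pi.single i ⟨z, hz⟩, ?_, tot_single u i ⟨z, hz⟩⟩
    change (Pi.single i (⟨z, hz⟩ : S.cx M) : Fin s → S.cx M) j = 0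
    exact Pi.single_eq_of_ne hi.symm _
  obtain ⟨y, hy, hyx⟩ := h1 h
  have h2 : tot u y = tot u (Pi.single j (⟨x, hx⟩ : S.cx M) : Fin s → S.cx M) := by
    rw [hyx, tot_single]
  have h3 := congrFun (hinj h2) j
  rw [Pi.single_eq_same] at h3
  have h4 : y j = 0 := hy
  rw [h4] at h3
  have h5 : x = 0 := (congrArg Subtype.val h3).symm
  rw [h5, map_zero]

theorem iSup_tot (u : Fin s → Module.End ℂ S.W) :
    ⨆ j, (S.cx M).map (u j) = LinearMap.range (tot u : (Fin s → S.cx M) →ₗ[ℂ] S.W) := by
  classical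
  apply le_antisymm
  · refine iSup_le fun i => ?_
    rintro _ ⟨z, hz, rfl⟩
    exact ⟨Pi.single i ⟨z, hz⟩, tot_single u i ⟨z, hz⟩⟩
  · rintro _ ⟨x, rfl⟩
    rw [tot_apply]
    exact Submodule.sum_mem _ fun j _ =>
      Submodule.mem_iSup_of_mem j (Submodule.mem_map_of_mem (x j).2)

end tot

/-- The action on the isotypic part. -/
theorem exists_isot (P : Pol S) {M : Submodule ℚ S.W} (hM : IsSimple S M) {K : Type} [Field K]
    (ι : K →+* Module.End ℂ (S.cx M)) (hι : IsCentral ι) :
    ∃ κ : K →ₙ+* Module.End ℂ S.W, CentralAction κ ∧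
      ∀ p : Module.End ℂ S.W, IsHom S S p → p * p = p → p * κ 1 = p → p ≠ 0 →
        ∃ (s : ℕ) (u : Fin s → Module.End ℂ S.W), 0 < s ∧ (∀ j, IsHom S S (u j)) ∧
          (∀ j, ∀ x ∈ S.cx M, u j x = 0 → x = 0) ∧
          (∀ j a (x : S.cx M), κ a (u j x) = u j (ι a x)) ∧
          iSupIndep (fun j => (S.cx M).map (u j)) ∧
          ⨆ j, (S.cx M).map (u j) = LinearMap.range p := by
  classical
  have hI := isSub_iso (S := S) hM.sub
  obtain ⟨p, hp, hp1, hp2⟩ := exists_proj P hI
  obtain ⟨s, u, hu, hinj, hran⟩ := exists_decomp P hM _ _ hI le_rfl rfl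
  have hT : ∀ w : S.W, p w ∈ LinearMap.range (tot u : (Fin s → S.cx M) →ₗ[ℂ] S.W) := by
    intro w
    rw [hran]
    exact hp2 w
  let e := LinearEquiv.ofInjective (tot u : (Fin s → S.cx M) →ₗ[ℂ] S.W) hinj
  let v : S.W →ₗ[ℂ] (Fin s → S.cx M) :=
    e.symm.toLinearMap.comp (p.codRestrict (LinearMap.range (tot u)) hT)
  have htv : ∀ w, tot u (v w) = p w := by
    intro w
    have h1 := LinearEquiv.ofInjective_symm_apply (f := (tot u : (Fin s → S.cx M) →ₗ[ℂ] S.W))
      (h := hinj) (⟨p w, hT w⟩)
    exact h1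
  have htI : ∀ x : Fin s → S.cx M, tot u x ∈ S.cx (isoQ S M) := by
    intro x
    rw [← hran]
    exact ⟨x, rfl⟩
  have hvt : ∀ x : Fin s → S.cx M, v (tot u x) = x := by
    intro x
    apply hinj
    rw [htv, hp1 _ (htI x)]
  let A : K → (Fin s → S.cx M) →ₗ[ℂ] (Fin s → S.cx M) := fun a =>
    LinearMap.pi fun j => (ι a).comp (LinearMap.proj j)
  have hA : ∀ a x j, A a x j = ι a (x j) := fun _ _ _ => rfl
  let g : K → Module.End ℂ S.W := fun a => (tot u).comp ((A a).comp v)
  have hg : ∀ a w, g a w = tot u (A a (v w)) := fun _ _ => rfl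
  let κ : K →ₙ+* Module.End ℂ S.W :=
    { toFun := g
      map_mul' := by
        intro a b
        ext w
        rw [Module.End.mul_apply, hg, hg, hg, hvt]
        congr 1
        funext j
        rw [hA, hA, hA, map_mul]
        rfl
      map_zero' := by
        ext w
        rw [hg]
        have h1 : A 0 (v w) = 0 := by
          funext j
          rw [hA, map_zero]
          rfl
        rw [h1, map_zero]
        rfl
      map_add' := by
        intro a b
        ext w
        rw [LinearMap.add_apply, hg, hg, hg, ← map_add]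
        congr 1
        funext j
        rw [Pi.add_apply, hA, hA, hA, map_add]
        rfl }
  have hκ : ∀ a w, κ a w = tot u (A a (v w)) := fun _ _ => rfl
  have hκ1 : ∀ w, κ 1 w = p w := by
    intro w
    have h1 : A 1 (v w) = v w := by
      funext j
      rw [hA, map_one]
      rfl
    rw [hκ, h1, htv]
  -- the action on the images of morphisms
  have hK : ∀ f : Module.End ℂ S.W, IsHom S S f → ∀ a (x : S.cx M),
      κ a (f x) = f (ι a x) := by
    intro f hf a x
    have hfI : ∀ y : S.cx M, f y ∈ S.cx (isoQ S M) := fun y => map_mem_iso hf y.2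
    have htf : ∀ y : S.cx M, tot u (v (f y)) = f y := fun y => by rw [htv, hp1 _ (hfI y)]
    have h1 : A a (v (f x)) = v (f (ι a x)) := by
      funext j
      rw [hA]
      let E : Module.End ℂ (S.cx M) :=
        (LinearMap.proj j).comp (v.comp (f.comp (S.cx M).subtype))
      have hE : ∀ y : S.cx M, E y = v (f y) j := fun _ => rfl
      have hend : IsEnd S M E := by
        refine ⟨fun y hy => ?_, fun y hy => ?_, fun q y hy => ?_⟩
        · rw [hE]
          exact coord_B hu hinj hM.sub.le (by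
            rw [htf]
            exact hf.betti _ (hM.sub.le hy)) j
        · rw [hE]
          exact coord_D hu hinj hM.sub (by
            rw [htf]
            exact hf.deRham _ hy) j
        · rw [hE]
          exact coord_hodge hu hinj hM.sub (by
            rw [htf]
            exact hf.hodge q _ hy) j
      have h2 := LinearMap.congr_fun (hι.comm E hend a) x
      rw [Module.End.mul_apply, Module.End.mul_apply, hE, hE] at h2
      exact h2.symm
    rw [hκ, h1, htf]
  have hcomm : ∀ f, IsHom S S f → ∀ a, f * κ a = κ a * f := by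
    intro f hf a
    ext w
    rw [Module.End.mul_apply, Module.End.mul_apply]
    have h1 : f (κ a w) = κ a (f (p w)) := by
      rw [hκ a w, ← htv w, tot_apply, tot_apply, map_sum, map_sum, map_sum]
      refine Finset.sum_congr rfl fun j _ => ?_
      rw [hA]
      exact (hK (f.comp (u j)) (hf.comp (hu j)) a (v w j)).symm
    have h2 : κ a (f (w - p w)) = 0 := by
      have h3 : v (f (w - p w)) = 0 := by
        apply hinj
        rw [htv, hom_compl P hM.sub hp hp1 hp2 hf, map_zero]
      rw [hκ, h3, map_zero, map_zero]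
    rw [map_sub, map_sub, sub_eq_zero] at h2
    rw [h1, h2]
  have hMI : ∀ x ∈ M, x ∈ S.cx (isoQ S M) := fun x hx =>
    map_mem_iso (u := LinearMap.id) (IsHom.id S) (Submodule.subset_span hx)
  refine ⟨κ, ⟨?_, ?_, hcomm⟩, ?_⟩
  · intro h0
    apply hM.ne
    rw [Submodule.eq_bot_iff]
    intro x hx
    rw [← hp1 x (hMI x hx), ← hκ1, h0, LinearMap.zero_apply]
  · intro a
    refine ⟨rfl, ?_, ?_, ?_⟩
    · intro x hx
      rw [hκ, tot_apply]
      refine Submodule.sum_mem _ fun j _ => (hu j).betti _ (hM.sub.le ?_)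
      rw [hA]
      exact (hι.isEnd a).betti _ (coord_B hu hinj hM.sub.le (by
        rw [htv]
        exact hp.betti x hx) j)
    · intro x hx
      rw [hκ, tot_apply]
      refine Submodule.sum_mem _ fun j _ => (hu j).deRham _ ?_
      rw [hA]
      exact (hι.isEnd a).deRham _ (coord_D hu hinj hM.sub (by
        rw [htv]
        exact hp.deRham x hx) j)
    · intro q x hx
      rw [hκ, tot_apply]
      refine Submodule.sum_mem _ fun j _ => (hu j).hodge q _ ?_
      rw [hA]
      exact (hι.isEnd a).hodge q _ (coord_hodge hu hinj hM.sub (by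
        rw [htv]
        exact hp.hodge q x hx) j)
  · intro r hr _ hrκ hr0
    have hrI : ∀ w, r w ∈ S.cx (isoQ S M) := by
      intro w
      have h1 : r w = p (r w) := by
        rw [← hκ1]
        have h2 := LinearMap.congr_fun (hcomm r hr 1) w
        rw [hrκ] at h2
        exact h2
      rw [h1]
      exact hp2 _
    have hNr : S.cx (imgQ r S.B) = LinearMap.range r := by
      rw [cx_imgQ, Str.cx_B, Submodule.map_top]
    obtain ⟨s', u', hu', hinj', hran'⟩ := exists_decomp P hM _ (imgQ r S.B)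
      (isSub_img hr isSub_top) (by
        rw [hNr]
        rintro _ ⟨w, rfl⟩
        exact hrI w) rfl
    refine ⟨s', u', ?_, hu', ?_, fun j a x => hK (u' j) (hu' j) a x, iSupIndep_tot hinj', ?_⟩
    · rw [Nat.pos_iff_ne_zero]
      rintro rfl
      apply hr0
      ext w
      have h1 : r w ∈ LinearMap.range (tot u' : (Fin 0 → S.cx M) →ₗ[ℂ] S.W) := by
        rw [hran', hNr]
        exact ⟨w, rfl⟩
      obtain ⟨x, hx⟩ := h1
      rw [← hx, Subsingleton.elim x 0, map_zero, LinearMap.zero_apply]
    · intro j x hx h0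
      have h1 : tot u' (Pi.single j (⟨x, hx⟩ : S.cx M) : Fin s' → S.cx M) =
          tot u' (0 : Fin s' → S.cx M) := by
        rw [tot_single, map_zero]
        exact h0
      have h2 := congrFun (hinj' h1) j
      rw [Pi.single_eq_same] at h2
      exact congrArg Subtype.val h2
    · rw [iSup_tot, hran', hNr]

end GD
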