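import Pool.Agent.H26.FM.Per
import Pool.Agent.H26.DT.Final

/-!
# Parallel transport of substructures and actions
-/

noncomputable section

namespace GD

open Complex NumberField Module

variable {S T : Str}

section cor

variable {V : Deform S T} {M : Submodule ℚ S.W} {K : Type} [Field K]
  {ι : K →+* Module.End ℂ (S.cx M)} {N : Submodule ℚ T.W} {κ : K →+* Module.End ℂ (T.cx N)}

theorem cx_par (hMN : ∀ x, x ∈ M ↔ V.par x ∈ N) :
    (S.cx M).map (V.par : S.W →ₗ[ℂ] T.W) = T.cx N := by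
  have h1 : V.par '' (M : Set S.W) = (N : Set T.W) := by
    ext y
    constructor
    · rintro ⟨x, hx, rfl⟩
      exact (hMN x).1 hx
    · intro hy
      refine ⟨V.par.symm y, (hMN _).2 ?_, V.par.apply_symm_apply y⟩
      rw [V.par.apply_symm_apply]
      exact hy
  rw [Submodule.map_span]
  exact congrArg (Submodule.span ℂ) h1

theorem par_cx (hMN : ∀ x, x ∈ M ↔ V.par x ∈ N) (x : S.W) : x ∈ S.cx M ↔ V.par x ∈ T.cx N := by
  rw [← cx_par hMN]
  constructor
  · intro hx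
    exact ⟨x, hx, rfl⟩
  · rintro ⟨x', hx', h3⟩
    have h4 : x' = x := V.par.injective h3
    rwa [← h4]

theorem par_eig (hMN : ∀ x, x ∈ M ↔ V.par x ∈ N)
    (hact : ∀ a (x : S.cx M) (y : T.cx N), V.par x = y → V.par (ι a x) = κ a y) (τ : K →+* ℂ) :
    eig κ τ = (eig ι τ).map (V.par : S.W →ₗ[ℂ] T.W) := by
  ext y
  rw [DT.mem_eig]
  constructor
  · rintro ⟨h, hy⟩
    refine ⟨V.par.symm y, DT.mem_eig.2 ?_, V.par.apply_symm_apply y⟩
    have h1 : V.par.symm y ∈ S.cx M := (par_cx hMN _).2 (by rwa [V.par.apply_symm_apply])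
    refine ⟨h1, fun a => ?_⟩
    apply Subtype.ext
    apply V.par.injective
    rw [hact a ⟨_, h1⟩ ⟨y, h⟩ (V.par.apply_symm_apply y), hy a]
    change τ a • y = V.par (τ a • V.par.symm y)
    rw [map_smul, V.par.apply_symm_apply]
  · rintro ⟨x, hx, rfl⟩
    obtain ⟨h, hx⟩ := DT.mem_eig.1 hx
    have h1 : V.par x ∈ T.cx N := (par_cx hMN x).1 h
    refine ⟨h1, fun a => ?_⟩
    apply Subtype.ext
    have h2 := hact a ⟨x, h⟩ ⟨V.par x, h1⟩ rfl
    rw [hx a] at h2
    change (κ a ⟨V.par x, h1⟩ : T.W) = τ a • V.par x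
    rw [← h2]
    exact map_smul V.par (τ a) x

end cor

/-! ### Graded subspaces -/

/-- The dimension of a graded subspace. -/
theorem finrank_graded {R : Str} {U : Submodule ℂ R.W} (hU : U ≤ ⨆ p, U ⊓ R.hodge p) {n : ℕ}
    (hn : R.wt ≤ n) :
    ∑ p ∈ Finset.range (n + 1), finrank ℂ (U ⊓ R.hodge p : Submodule ℂ R.W) = finrank ℂ U := by
  have h1 : ∑ p ∈ Finset.range (R.wt + 1), finrank ℂ (U ⊓ R.hodge p : Submodule ℂ R.W) =
      finrank ℂ U := by
    have h2 : (∑ p ∈ Finset.range (R.wt + 1), hpr R p) = (1 : ℂ) • LinearMap.id := by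
      apply LinearMap.ext
      intro x
      obtain ⟨u, -, hu2, hxu⟩ := hodge_comp (top_hodge R) (Submodule.mem_top (x := x))
      rw [LinearMap.sum_apply, one_smul, LinearMap.id_apply]
      conv_rhs => rw [hxu]
      refine Finset.sum_congr rfl fun p hp => ?_
      conv_lhs => rw [hxu]
      rw [hpr_sum hu2, if_pos hp]
    have h3 : trOn (∑ p ∈ Finset.range (R.wt + 1), hpr R p) U = (finrank ℂ U : ℂ) := by
      rw [h2, trOn_smul _ (fun x hx => hx), one_mul, trOn_of_stable (fun x hx => hx)]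
      have h4 : (LinearMap.id : R.W →ₗ[ℂ] R.W).restrict (fun x (hx : x ∈ U) => hx) =
          (LinearMap.id : U →ₗ[ℂ] U) := rfl
      rw [h4, LinearMap.trace_id]
    rw [trOn_sum _ (fun p _ x hx => hpr_stable hU p x hx)] at h3
    simp only [trOn_hpr hU] at h3
    exact_mod_cast h3
  rw [← h1]
  symm
  apply Finset.sum_subset
  · intro p hp
    rw [Finset.mem_range] at hp ⊢
    omega
  · intro p _ hp
    rw [Finset.mem_range] at hp
    rw [R.hodge_large p (by omega), inf_bot_eq, finrank_bot]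

/-- A subspace is graded if its dimension is the sum of the dimensions of the graded parts. -/
theorem graded_of_finrank {R : Str} {U : Submodule ℂ R.W} {n : ℕ} (hn : R.wt ≤ n)
    (h : ∑ p ∈ Finset.range (n + 1), finrank ℂ (U ⊓ R.hodge p : Submodule ℂ R.W) =
      finrank ℂ U) : U ≤ ⨆ p, U ⊓ R.hodge p := by
  set G : Submodule ℂ R.W := ⨆ p, U ⊓ R.hodge p with hG
  have hGU : G ≤ U := iSup_le fun p => inf_le_left
  have h1 : ∀ p, G ⊓ R.hodge p = U ⊓ R.hodge p := by
    intro p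
    apply le_antisymm
    · exact inf_le_inf_right _ hGU
    · exact le_inf (le_iSup (fun p => U ⊓ R.hodge p) p) inf_le_right
  have h2 : G ≤ ⨆ p, G ⊓ R.hodge p := by
    have h3 : (⨆ p, G ⊓ R.hodge p) = ⨆ p, U ⊓ R.hodge p := iSup_congr h1
    rw [h3]
  have h3 := finrank_graded h2 hn
  have h4 : ∑ p ∈ Finset.range (n + 1), finrank ℂ (G ⊓ R.hodge p : Submodule ℂ R.W) =
      ∑ p ∈ Finset.range (n + 1), finrank ℂ (U ⊓ R.hodge p : Submodule ℂ R.W) :=
    Finset.sum_congr rfl fun p _ => by rw [h1]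
  rw [h4, h] at h3
  exact (Submodule.eq_of_le_of_finrank_eq hGU h3.symm).ge

/-! ### Components in the eigenspaces -/

section comp

variable {N : Submodule ℚ T.W} {K : Type} [Field K] [NumberField K]
  (κ : K →+* Module.End ℂ (T.cx N))

theorem prj_sum {y : (K →+* ℂ) → T.W} (hy : ∀ τ, y τ ∈ eig κ τ) {x : T.cx N}
    (hx : (x : T.W) = ∑ τ, y τ) (τ : K →+* ℂ) : (prj κ τ x : T.W) = y τ := by
  classical
  have h1 : x = ∑ τ, ⟨y τ, eig_le κ τ (hy τ)⟩ := by
    apply Subtype.ext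
    rw [AddSubmonoidClass.coe_finsetSum]
    exact hx
  rw [h1, map_sum, AddSubmonoidClass.coe_finsetSum, Finset.sum_eq_single τ]
  · rw [prj_of_eig κ τ τ (hy τ), if_pos rfl]
  · intro σ _ hσ
    rw [prj_of_eig κ τ σ (hy σ), if_neg hσ]
    rfl
  · intro h
    exact absurd (Finset.mem_univ τ) h

theorem act_eq (a : K) (x : T.cx N) :
    (κ a x : T.W) = ∑ τ : K →+* ℂ, τ a • (prj κ τ x : T.W) := by
  conv_lhs => rw [← sum_prj κ x]
  rw [map_sum, AddSubmonoidClass.coe_finsetSum]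
  refine Finset.sum_congr rfl fun τ _ => ?_
  rw [prj_mem κ τ x a]
  rfl

theorem coe_sum_prj (x : T.cx N) : ∑ τ : K →+* ℂ, (prj κ τ x : T.W) = x := by
  conv_rhs => rw [← sum_prj κ x]
  rw [AddSubmonoidClass.coe_finsetSum]

/-- An action with graded eigenspaces preserves the Hodge pieces. -/
theorem act_hodge (h : ∀ τ, eig κ τ ≤ ⨆ p, eig κ τ ⊓ T.hodge p) (a : K) {p : ℕ} {x : T.cx N}
    (hx : (x : T.W) ∈ T.hodge p) : (κ a x : T.W) ∈ T.hodge p := by
  rw [act_eq]
  refine Submodule.sum_mem _ fun τ _ => Submodule.smul_mem _ _ ?_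
  rw [prj_sum κ (y := fun τ => hpr T p (prj κ τ x : T.W))
    (fun τ => hpr_stable (h τ) p _ (prj_mem_eig κ τ x)) ?_ τ]
  · exact hpr_mem p _
  · rw [← map_sum, coe_sum_prj, hpr_of_mem hx]

/-- An action with eigenspaces spanned by de Rham vectors preserves the de Rham vectors. -/
theorem act_dR (h : ∀ τ, eig κ τ ≤ Submodule.span ℂ {x | x ∈ T.D ∧ x ∈ eig κ τ}) (a : K)
    {x : T.cx N} (hx : (x : T.W) ∈ T.D) : (κ a x : T.W) ∈ T.D := by
  rw [act_eq]
  refine Submodule.sum_mem _ fun τ _ => T.D_smul (emb_alg K _ _) ?_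
  apply T.mem_D_of_nabD
  intro δ
  have hst : ∀ (τ : K →+* ℂ), ∀ w ∈ eig κ τ, T.nabD δ w ∈ eig κ τ := by
    intro τ w hw
    have hw1 := h τ hw
    clear hw
    induction hw1 using Submodule.span_induction with
    | mem y hy =>
      rw [T.nabD_D δ hy.1]
      exact zero_mem _
    | zero =>
      rw [map_zero]
      exact zero_mem _
    | add y z _ _ ihy ihz =>
      rw [map_add]
      exact add_mem ihy ihz
    | smul c y hy ihy =>
      have e1 : Submodule.span ℂ {x | x ∈ T.D ∧ x ∈ eig κ τ} ≤ eig κ τ := by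
        rw [Submodule.span_le]
        exact fun x hx => hx.2
      rw [T.nabD_smul]
      exact add_mem (Submodule.smul_mem _ _ (e1 hy)) (Submodule.smul_mem _ _ ihy)
  have h1 := prj_sum κ (y := fun τ => T.nabD δ (prj κ τ x : T.W)) (x := 0)
    (fun τ => hst τ _ (prj_mem_eig κ τ x)) ?_ τ
  · rw [← h1, map_zero]
    rfl
  · rw [← map_sum, coe_sum_prj, T.nabD_D δ hx]
    rfl

end comp

/-! ### Transport -/

/-- An algebraic subbundle is spanned by de Rham vectors in the second fibre. -/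
theorem Deform.span_dR (V : Deform S T) {L : Submodule ℂ S.W} (hL : V.AlgSub L) :
    L.map (V.par : S.W →ₗ[ℂ] T.W) ≤
      Submodule.span ℂ {x | x ∈ T.D ∧ x ∈ L.map (V.par : S.W →ₗ[ℂ] T.W)} := by
  let v := Module.finBasis ℂ L
  have hv : LinearIndependent ℂ (fun i => (v i : S.W)) :=
    v.linearIndependent.map' L.subtype (Submodule.ker_subtype _)
  have hvL : Submodule.span ℂ (Set.range fun i => (v i : S.W)) = L := by
    have h1 : (Set.range fun i => (v i : S.W)) = L.subtype '' Set.range v := by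
      rw [← Set.range_comp]
      rfl
    rw [h1, ← Submodule.map_span, v.span_eq, Submodule.map_top, Submodule.range_subtype]
  obtain ⟨-, b, -, -, -, ⟨-, hb, hbD, -⟩, -⟩ := V.period hL hv hvL
  have h2 : L.map (V.par : S.W →ₗ[ℂ] T.W) =
      Submodule.span ℂ ((V.par : S.W →ₗ[ℂ] T.W) '' Set.range b) := by
    rw [← Submodule.map_span, hb]
  conv_lhs => rw [h2]
  refine Submodule.span_mono ?_
  rintro _ ⟨_, ⟨i, rfl⟩, rfl⟩
  refine ⟨hbD i, ⟨b i, ?_, rfl⟩⟩
  rw [← hb]
  exact Submodule.subset_span ⟨i, rfl⟩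

/-- Parallel transport of a flat action. -/
theorem Deform.transport (V : Deform S T) {M : Submodule ℚ S.W} (hM : IsSub S M)
    {K : Type} [Field K] [NumberField K] (ι : K →+* Module.End ℂ (S.cx M))
    (hι : ∀ a, IsEnd S M (ι a)) (hV : V.FlatSub ι) :
    ∃ (N : Submodule ℚ T.W) (κ : K →+* Module.End ℂ (T.cx N)), IsSub T N ∧
      (∀ a, IsEnd T N (κ a)) ∧ (∀ x, x ∈ M ↔ V.par x ∈ N) ∧
      ∀ a (x : S.cx M) (y : T.cx N), V.par x = y → V.par (ι a x) = κ a y := by
  let f : S.W →ₗ[ℚ] T.W := (V.par : S.W →ₗ[ℂ] T.W).restrictScalars ℚ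
  have hMN : ∀ x, x ∈ M ↔ V.par x ∈ M.map f := by
    intro x
    constructor
    · intro hx
      exact ⟨x, hx, rfl⟩
    · rintro ⟨x', hx', h⟩
      have h1 : x' = x := V.par.injective h
      rwa [← h1]
  let E : S.cx M ≃ₗ[ℂ] T.cx (M.map f) :=
    (V.par.submoduleMap (S.cx M)).trans (LinearEquiv.ofEq _ _ (cx_par hMN))
  have hE : ∀ x : S.cx M, (E x : T.W) = V.par x := fun x => rfl
  let κ : K →+* Module.End ℂ (T.cx (M.map f)) := (E.conjRingEquiv : _ →+* _).comp ι
  have hκ : ∀ a y, κ a y = E (ι a (E.symm y)) := fun a y => rfl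
  have hact : ∀ a (x : S.cx M) (y : T.cx (M.map f)), V.par x = y → V.par (ι a x) = κ a y := by
    intro a x y hxy
    have h1 : E x = y := Subtype.ext hxy
    rw [hκ, ← h1, E.symm_apply_apply, hE]
  have heig := par_eig hMN hact
  have hgr : ∀ τ, eig κ τ ≤ ⨆ p, eig κ τ ⊓ T.hodge p := by
    intro τ
    apply graded_of_finrank (n := max S.wt T.wt) (le_max_right _ _)
    rw [heig τ]
    have h1 : finrank ℂ ((eig ι τ).map (V.par : S.W →ₗ[ℂ] T.W) : Submodule ℂ T.W) =
        finrank ℂ (eig ι τ) := LinearEquiv.finrank_map_eq V.par _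
    rw [h1, ← finrank_graded (eig_hodge ι hM hι τ) (le_max_left S.wt T.wt)]
    exact Finset.sum_congr rfl fun p _ => (hV τ).2 p
  have hdR : ∀ τ, eig κ τ ≤ Submodule.span ℂ {x | x ∈ T.D ∧ x ∈ eig κ τ} := by
    intro τ
    rw [heig τ]
    exact V.span_dR (hV τ).1
  refine ⟨M.map f, κ, ⟨?_, ?_, ?_⟩, fun a => ⟨?_, ?_, ?_⟩, hMN, hact⟩
  · rintro _ ⟨x, hx, rfl⟩
    exact (V.par_B x).1 (hM.le hx)
  · refine (cx_le_iSup_eig κ).trans (iSup_le fun τ => (hgr τ).trans (iSup_mono fun p => ?_))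
    exact inf_le_inf_right _ (eig_le κ τ)
  · refine (cx_le_iSup_eig κ).trans (iSup_le fun τ => (hdR τ).trans (Submodule.span_mono ?_))
    exact fun x hx => ⟨hx.1, eig_le κ τ hx.2⟩
  · rintro ⟨y, hy⟩ ⟨x, hx, rfl⟩
    have h1 := hact a ⟨x, Submodule.subset_span hx⟩ ⟨f x, hy⟩ rfl
    rw [← h1]
    exact (hMN _).1 ((hι a).betti _ hx)
  · exact fun x hx => act_dR κ hdR a hx
  · exact fun p x hx => act_hodge κ hgr a hx

end GD
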