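import Pool.Agent.H26.FM.Reg

/-!
# GD.PFrac: a rational function with simple poles and rational residues, which vanishes at
infinity, is `1/N` times a logarithmic derivative
-/

set_option autoImplicit false

namespace GD

open Polynomial

section takes
variable {k : Type} [Field k]

theorem Takes.sub {a v v' : k} {P Q P' Q' : k[X]} (h : Takes a P Q v) (h' : Takes a P' Q' v') :
    Takes a (P * Q' - P' * Q) (Q * Q') (v - v') := by
  obtain ⟨u, w, hw, h1, h2⟩ := h
  obtain ⟨u', w', hw', h1', h2'⟩ := h'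
  refine ⟨u * w' - u' * w, w * w', ?_, ?_, ?_⟩
  · rw [eval_mul]
    exact mul_ne_zero hw hw'
  · linear_combination (Q' * w') * h1 - (Q * w) * h1'
  · rw [eval_mul, eval_sub, eval_mul, eval_mul]
    linear_combination (w'.eval a) * h2 - (w.eval a) * h2'

theorem Takes.cancel {a v : k} {P Q S : k[X]} (hS : S ≠ 0) (h : Takes a (P * S) (Q * S) v) :
    Takes a P Q v := by
  obtain ⟨u, w, hw, h1, h2⟩ := h
  refine ⟨u, w, hw, ?_, h2⟩
  apply mul_right_cancel₀ hS
  linear_combination h1

theorem TakesInf.sub {v v' : k} {P Q P' Q' : k[X]} (h : TakesInf P Q v)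
    (h' : TakesInf P' Q' v') : TakesInf (P * Q' - P' * Q) (Q * Q') (v - v') := by
  obtain ⟨u, w, d, hw, hu, hwd, h1, h2⟩ := h
  obtain ⟨u', w', d', hw', hu', hwd', h1', h2'⟩ := h'
  refine ⟨u * w' - u' * w, w * w', d + d', ?_, ?_, ?_, ?_, ?_⟩
  · rw [coeff_mul_add_eq_of_natDegree_le hwd hwd']
    exact mul_ne_zero hw hw'
  · refine (natDegree_sub_le _ _).trans (max_le (natDegree_mul_le_of_le hu hwd') ?_)
    rw [add_comm d d']
    exact natDegree_mul_le_of_le hu' hwd
  · exact natDegree_mul_le_of_le hwd hwd'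
  · linear_combination (Q' * w') * h1 - (Q * w) * h1'
  · rw [coeff_sub, coeff_mul_add_eq_of_natDegree_le hwd hwd', coeff_mul_add_eq_of_natDegree_le hu hwd',
      add_comm d d', coeff_mul_add_eq_of_natDegree_le hu' hwd]
    linear_combination (w'.coeff d') * h2 - (w.coeff d) * h2'

theorem TakesInf.cancel {v : k} {P Q S : k[X]} (hS : S ≠ 0) (h : TakesInf (P * S) (Q * S) v) :
    TakesInf P Q v := by
  obtain ⟨u, w, d, hw, hu, hwd, h1, h2⟩ := h
  refine ⟨u, w, d, hw, hu, hwd, ?_, h2⟩
  apply mul_right_cancel₀ hS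
  linear_combination h1

/-- `R₁ / R₂` has `N p / r` as its logarithmic derivative -/
def IsLog (p r : k[X]) (N : ℕ) (R₁ R₂ : k[X]) : Prop :=
  (derivative R₁ * R₂ - R₁ * derivative R₂) * r = (N : k[X]) * p * R₁ * R₂

theorem IsLog.mul {p r p' r' A B A' B' : k[X]} {N : ℕ} (h : IsLog p r N A B)
    (h' : IsLog p' r' N A' B') : IsLog (p * r' + p' * r) (r * r') N (A * A') (B * B') := by
  unfold IsLog at h h' ⊢
  rw [derivative_mul, derivative_mul]
  linear_combination (A' * B' * r') * h + (A * B * r) * h'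

theorem IsLog.pow {p r A B : k[X]} {N : ℕ} (h : IsLog p r N A B) (t : ℕ) :
    IsLog p r (N * t) (A ^ t) (B ^ t) := by
  induction t with
  | zero => simp [IsLog]
  | succ t ih =>
    unfold IsLog at h ih ⊢
    rw [pow_succ, pow_succ, derivative_mul, derivative_mul]
    push_cast at ih ⊢
    linear_combination (A * B) * ih + (A ^ t * B ^ t) * h

theorem isLog_base (a : k) (z : ℤ) (N : ℕ) (m : k) (hz : (N : k) * m = z) :
    ∃ A B : k[X], A ≠ 0 ∧ B ≠ 0 ∧ IsLog (C m) (X - C a) N A B := by
  have hX : (X - C a : k[X]) ≠ 0 := X_sub_C_ne_zero a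
  have hN : (N : k[X]) * C m = ((z : ℤ) : k[X]) := by
    rw [← C_eq_natCast, ← C_mul, hz]
    simp
  have hd : ∀ n : ℕ, derivative ((X - C a : k[X]) ^ n) * (X - C a) = (n : k[X]) * (X - C a) ^ n := by
    intro n
    induction n with
    | zero => simp
    | succ n ih =>
      rw [pow_succ, derivative_mul, derivative_X_sub_C]
      push_cast
      linear_combination (X - C a) * ih
  obtain ⟨n, rfl | rfl⟩ := z.eq_nat_or_neg
  · refine ⟨(X - C a) ^ n, 1, pow_ne_zero _ hX, one_ne_zero, ?_⟩
    unfold IsLog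
    rw [derivative_one, hN]
    have h1 := hd n
    push_cast
    linear_combination h1
  · refine ⟨1, (X - C a) ^ n, one_ne_zero, pow_ne_zero _ hX, ?_⟩
    unfold IsLog
    rw [derivative_one, hN]
    have h1 := hd n
    push_cast
    linear_combination -h1

end takes

theorem exists_isLog {k : Type} [Field k] [IsAlgClosed k] [CharZero k] (d : ℕ) (p r : k[X])
    (hd : r.natDegree = d) (hr : r ≠ 0)
    (h : ∀ a : k, ∃ m : ℚ, Takes a ((X - C a) * p) r m) (hinf : ∃ m : k, TakesInf (X * p) r m) :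
    ∃ (N : ℕ) (R₁ R₂ : k[X]), 0 < N ∧ R₁ ≠ 0 ∧ R₂ ≠ 0 ∧ IsLog p r N R₁ R₂ := by
  induction d generalizing p r with
  | zero =>
    obtain ⟨m, u, w, d, hw, hu, hwd, h1, -⟩ := hinf
    have hp : p = 0 := by
      by_contra hp
      have hw0 : w ≠ 0 := fun e => hw (by rw [e, coeff_zero])
      have hwd' : w.natDegree = d := le_antisymm hwd (le_natDegree_of_ne_zero hw)
      have h2 := congrArg natDegree h1
      rw [natDegree_mul (mul_ne_zero X_ne_zero hp) hw0, natDegree_mul X_ne_zero hp, natDegree_X,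
        hwd'] at h2
      have h3 : (r * u).natDegree ≤ d := by
        refine natDegree_mul_le.trans ?_
        rw [hd, zero_add]
        exact hu
      omega
    refine ⟨1, 1, 1, one_pos, one_ne_zero, one_ne_zero, ?_⟩
    unfold IsLog
    rw [hp]
    simp
  | succ d ih =>
    obtain ⟨a, ha⟩ := IsAlgClosed.exists_root r (by
      rw [degree_eq_natDegree hr, hd]
      exact_mod_cast (Nat.succ_ne_zero d))
    obtain ⟨r₁, rfl⟩ := dvd_iff_isRoot.2 ha
    have hX : (X - C a : k[X]) ≠ 0 := X_sub_C_ne_zero a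
    have hr₁ : r₁ ≠ 0 := right_ne_zero_of_mul hr
    have hd₁ : r₁.natDegree = d := by
      rw [natDegree_mul hX hr₁, natDegree_X_sub_C] at hd
      omega
    obtain ⟨m, u, w, hw, h1, h2⟩ := h a
    -- subtract the polar part at `a`
    have h3 : p * w = r₁ * u := by
      apply mul_left_cancel₀ hX
      linear_combination h1
    obtain ⟨u₁, hu₁⟩ : (X - C a) ∣ u - C (m : k) * w := by
      rw [dvd_iff_isRoot, IsRoot, eval_sub, eval_mul, eval_C, h2, sub_self]
    obtain ⟨p₁, hp₁⟩ : (X - C a) ∣ p - C (m : k) * r₁ := by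
      have h4 : (X - C a) ∣ (p - C (m : k) * r₁) * w := by
        refine ⟨r₁ * u₁, ?_⟩
        linear_combination h3 + r₁ * hu₁
      rcases (prime_X_sub_C a).dvd_or_dvd h4 with h5 | h5
      · exact h5
      · exact absurd (dvd_iff_isRoot.1 h5) hw
    have hp : p = (X - C a) * p₁ + C (m : k) * r₁ := by
      linear_combination hp₁
    have hC1 : Takes a (C (m : k)) 1 m := ⟨C (m : k), 1, by simp, by ring, by simp⟩
    have hsub : ∀ b : k, ∃ l : ℚ, Takes b ((X - C b) * p₁) r₁ l := by
      intro b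
      obtain ⟨l, hl⟩ := h b
      by_cases hb : b = a
      · subst hb
        refine ⟨l - m, ?_⟩
        have h6 := hl.sub hC1
        have h7 : (X - C b) * p * 1 - C (m : k) * ((X - C b) * r₁) =
            ((X - C b) * p₁) * (X - C b) := by
          rw [hp]; ring
        have h8 : (X - C b) * r₁ * 1 = r₁ * (X - C b) := by ring
        rw [h7, h8] at h6
        have h9 := h6.cancel hX
        push_cast
        exact h9
      · refine ⟨l, ?_⟩
        have hC2 : Takes b (C (m : k) * (X - C b)) (X - C a) 0 := by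
          refine ⟨C (m : k) * (X - C b), X - C a, ?_, by ring, ?_⟩
          · rw [eval_sub, eval_X, eval_C]
            exact sub_ne_zero.2 hb
          · simp
        have h6 := hl.sub hC2
        have h7 : (X - C b) * p * (X - C a) - C (m : k) * (X - C b) * ((X - C a) * r₁) =
            ((X - C b) * p₁) * ((X - C a) * (X - C a)) := by
          rw [hp]; ring
        have h8 : (X - C a) * r₁ * (X - C a) = r₁ * ((X - C a) * (X - C a)) := by ring
        rw [h7, h8, sub_zero] at h6
        exact h6.cancel (mul_ne_zero hX hX)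
    have hinf' : ∃ l : k, TakesInf (X * p₁) r₁ l := by
      obtain ⟨l, hl⟩ := hinf
      refine ⟨l - m, ?_⟩
      have hC3 : TakesInf (C (m : k) * X : k[X]) (X - C a) m := by
        refine ⟨(C (m : k) * X : k[X]), (X - C a : k[X]), 1, ?_, ?_, ?_, by ring, ?_⟩
        · simp
        · exact (natDegree_C_mul_le (m : k) (X : k[X])).trans (natDegree_X_le (R := k))
        · rw [natDegree_X_sub_C]
        · simp
      have h6 := hl.sub hC3
      have h7 : X * p * (X - C a) - C (m : k) * X * ((X - C a) * r₁) =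
          (X * p₁) * ((X - C a) * (X - C a)) := by
        rw [hp]; ring
      have h8 : (X - C a) * r₁ * (X - C a) = r₁ * ((X - C a) * (X - C a)) := by ring
      rw [h7, h8] at h6
      exact h6.cancel (mul_ne_zero hX hX)
    obtain ⟨N, R₁, R₂, hN, hR₁, hR₂, hlog⟩ := ih p₁ r₁ hd₁ hr₁ hsub hinf'
    obtain ⟨A, B, hA, hB, hbase⟩ := isLog_base a (N * m.num) (N * m.den) (m : k) (by
      have h9 : ((m.den : ℕ) : k) * (m : k) = ((m.num : ℤ) : k) := by
        have h12 : ((m.den : ℕ) : k) ≠ 0 := Nat.cast_ne_zero.2 m.den_ne_zero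
        rw [Rat.cast_def, mul_div_cancel₀ _ h12]
      push_cast
      linear_combination (N : k) * h9)
    refine ⟨N * m.den, R₁ ^ m.den * A, R₂ ^ m.den * B, Nat.mul_pos hN m.den_pos,
      mul_ne_zero (pow_ne_zero _ hR₁) hA, mul_ne_zero (pow_ne_zero _ hR₂) hB, ?_⟩
    have h10 := (hlog.pow m.den).mul hbase
    have h11 : p₁ * (X - C a) + C (m : k) * r₁ = p := by
      rw [hp]; ring
    rw [h11, mul_comm r₁] at h10
    exact h10

end GD
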