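import Pool.Agent.H26.DT.FamStr

/-!
# Structures of rank one over a number field
-/

set_option autoImplicit false

noncomputable section

namespace GD.DT

open Complex GD NumberField

/-- Periods and Hodge types of a structure of rank one over `F`. -/
structure RkOne (F : Type) [Field F] [NumberField F] where
  wt : ℕ
  c : (F →+* ℂ) → ℂ
  p : (F →+* ℂ) → ℕ
  c_ne : ∀ σ, c σ ≠ 0
  p_add : ∀ σ, p σ + p (ComplexEmbedding.conjugate σ) = wt

variable {F : Type} [Field F] [NumberField F] (r : RkOne F)

/-- The de Rham form. -/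
def RkOne.strD : Submodule Qbar ((F →+* ℂ) → ℂ) where
  carrier := {w | ∀ σ, ∃ a : Qbar, w σ = (a : ℂ) * r.c σ}
  add_mem' := by
    intro a b ha hb σ
    obtain ⟨x, hx⟩ := ha σ
    obtain ⟨y, hy⟩ := hb σ
    exact ⟨x + y, by rw [Pi.add_apply, hx, hy]; push_cast; ring⟩
  zero_mem' := fun σ => ⟨0, by simp⟩
  smul_mem' := by
    intro q a ha σ
    obtain ⟨x, hx⟩ := ha σ
    refine ⟨q * x, ?_⟩
    rw [Pi.smul_apply, hx]
    change (q : ℂ) * ((x : ℂ) * r.c σ) = _
    push_cast
    ring

theorem RkOne.strD_form : IsBaseChange ℂ r.strD.subtype := by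
  classical
  have hu : ∀ σ : F →+* ℂ, IsUnit (r.c σ) := fun σ => (r.c_ne σ).isUnit
  let b : Module.Basis (F →+* ℂ) ℂ ((F →+* ℂ) → ℂ) :=
    Module.Basis.isUnitSMul (Pi.basisFun ℂ (F →+* ℂ)) hu
  have hb : ∀ σ, b σ = Pi.single σ (r.c σ) := by
    intro σ
    simp only [b, Module.Basis.isUnitSMul_apply, Pi.basisFun_apply]
    rw [← Pi.single_smul, smul_eq_mul, mul_one]
  refine isBaseChange_of_basis r.strD b (fun σ => ?_) ?_
  · rw [hb]
    intro τ
    by_cases h : τ = σ
    · subst h
      exact ⟨1, by simp⟩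
    · exact ⟨0, by simp [Pi.single_eq_of_ne h]⟩
  · intro w hw
    choose a ha using hw
    have h1 : w = ∑ σ, a σ • b σ := by
      funext τ
      rw [Finset.sum_apply, Finset.sum_eq_single τ]
      · rw [Pi.smul_apply, hb, Pi.single_eq_same, ha]
        rfl
      · intro σ _ hσ
        rw [Pi.smul_apply, hb, Pi.single_eq_of_ne (Ne.symm hσ), smul_zero]
      · intro h
        exact absurd (Finset.mem_univ τ) h
    rw [h1]
    exact Submodule.sum_mem _ fun i _ => Submodule.smul_mem _ _
      (Submodule.subset_span (Set.mem_range_self i))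

/-- The Hodge pieces. -/
def RkOne.strH (p : ℕ) : Submodule ℂ ((F →+* ℂ) → ℂ) where
  carrier := {w | ∀ σ, r.p σ ≠ p → w σ = 0}
  add_mem' := by
    intro a b ha hb σ hσ
    rw [Pi.add_apply, ha σ hσ, hb σ hσ, add_zero]
  zero_mem' := fun σ _ => rfl
  smul_mem' := by
    intro c a ha σ hσ
    rw [Pi.smul_apply, ha σ hσ, smul_zero]

theorem RkOne.strH_internal : DirectSum.IsInternal r.strH := by
  classical
  rw [DirectSum.isInternal_submodule_iff_iSupIndep_and_iSup_eq_top]
  constructor
  · intro p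
    rw [Submodule.disjoint_def]
    intro w hw hw'
    have h1 : ∀ σ, r.p σ = p → w σ = 0 := by
      have h2 : (⨆ (q) (_ : q ≠ p), r.strH q) ≤ (⨅ σ ∈ {σ | r.p σ = p},
          LinearMap.ker (LinearMap.proj (R := ℂ) (φ := fun _ : F →+* ℂ => ℂ) σ)) := by
        refine iSup_le fun q => iSup_le fun hq => ?_
        intro u hu
        simp only [Submodule.mem_iInf, LinearMap.mem_ker, LinearMap.proj_apply]
        intro σ hσ
        exact hu σ (by rw [show r.p σ = p from hσ]; exact Ne.symm hq)
      have h3 := h2 hw'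
      simp only [Submodule.mem_iInf, LinearMap.mem_ker, LinearMap.proj_apply] at h3
      exact fun σ hσ => h3 σ hσ
    funext σ
    by_cases h : r.p σ = p
    · exact h1 σ h
    · exact hw σ h
  · rw [eq_top_iff]
    intro w _
    have h1 : w = ∑ σ, Pi.single σ (w σ) := (Finset.univ_sum_single w).symm
    rw [h1]
    refine Submodule.sum_mem _ fun σ _ => Submodule.mem_iSup_of_mem (r.p σ) ?_
    intro τ hτ
    rw [Pi.single_eq_of_ne]
    rintro rfl
    exact hτ rfl

/-- The structure of rank one. -/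
def RkOne.str : Str where
  W := (F →+* ℂ) → ℂ
  wt := r.wt
  B := famB F
  D := r.strD
  B_form := famB_form F
  D_form := r.strD_form
  conj :=
    { toFun := fun w σ => (starRingEnd ℂ) (w (ComplexEmbedding.conjugate σ))
      map_add' := fun a b => by
        funext σ
        simp
      map_smul' := fun c a => by
        funext σ
        simp }
  conj_B := by
    rintro w ⟨x, hx⟩
    funext σ
    change (starRingEnd ℂ) (w (ComplexEmbedding.conjugate σ)) = w σ
    rw [hx, hx]
    simp [ComplexEmbedding.conjugate]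
  hodge := r.strH
  hodge_internal := r.strH_internal
  hodge_large := by
    intro p hp
    rw [eq_bot_iff]
    intro w hw
    rw [Submodule.mem_bot]
    funext σ
    apply hw σ
    have := r.p_add σ
    omega
  hodge_conj := by
    intro p hp w hw σ hσ
    change (starRingEnd ℂ) (w (ComplexEmbedding.conjugate σ)) = 0
    rw [hw, map_zero]
    have := r.p_add σ
    omega

open scoped Classical in
/-- The family of unit vectors. -/
def RkOne.fam : Fam r.str F where
  v := fun σ => (Pi.single σ 1 : (F →+* ℂ) → ℂ)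
  c := r.c
  p := r.p
  lin := by
    have h := (Pi.basisFun ℂ (F →+* ℂ)).linearIndependent
    have h2 : (fun σ => (Pi.single σ 1 : (F →+* ℂ) → ℂ)) = (Pi.basisFun ℂ (F →+* ℂ)) := by
      funext σ
      rw [Pi.basisFun_apply]
    rw [← h2] at h
    exact h
  rat := by
    intro x
    refine ⟨x, fun σ => ?_⟩
    change (∑ τ : F →+* ℂ, τ x • (Pi.single τ 1 : (F →+* ℂ) → ℂ)) σ = σ x
    rw [Finset.sum_apply, Finset.sum_eq_single σ]
    · rw [Pi.smul_apply, Pi.single_eq_same, smul_eq_mul, mul_one]
    · intro τ _ hτ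
      rw [Pi.smul_apply, Pi.single_eq_of_ne (Ne.symm hτ), smul_zero]
    · intro h
      exact absurd (Finset.mem_univ σ) h
  hdg := by
    intro σ τ hτ
    rw [Pi.single_eq_of_ne]
    rintro rfl
    exact hτ rfl
  c_ne := r.c_ne
  dR := by
    intro σ τ
    change ∃ a : Qbar, (r.c σ • (Pi.single σ 1 : (F →+* ℂ) → ℂ)) τ = (a : ℂ) * r.c τ
    rw [Pi.smul_apply]
    by_cases h : τ = σ
    · subst h
      exact ⟨1, by simp⟩
    · exact ⟨0, by simp [Pi.single_eq_of_ne h]⟩

end GD.DT
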