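import Pool.Agent.H27.GD.Decomp
import Pool.Agent.H26.DT.Final

/-!
# The relation for determinants is a finite list of relations
-/

set_option autoImplicit false

noncomputable section

namespace GD.DT

open Complex GD Module NumberField

/-- A simple constituent with a central multiplication by an imaginary cyclic field. -/
structure Item (C : Str → Prop) where
  S : Str
  mem : C S
  M : Submodule ℚ S.W
  simple : IsSimple S M
  L : Type
  [fL : Field L]
  [nL : NumberField L]
  ι : L →+* Module.End ℂ (S.cx M)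
  central : IsCentral ι
  e : L →+* ℂ
  lies : ∃ d, LiesIn e d
  im : ∃ x, (e x).im ≠ 0
  gal : IsGalois ℚ L
  cyc : IsCyclic (L ≃ₐ[ℚ] L)

attribute [instance] Item.fL Item.nL

/-- The relation for the determinants of all simple constituents. -/
def DetAll (C : Str → Prop) : Prop :=
  ∀ (K : Type) [Field K] [NumberField K] (e : K →+* ℂ), (∃ d, LiesIn e d) →
    (∃ x, (e x).im ≠ 0) → IsGalois ℚ K → IsCyclic (K ≃ₐ[ℚ] K) →
    ∀ S, C S → ∀ M : Submodule ℚ S.W, IsSimple S M →
      ∀ ι : K →+* Module.End ℂ (S.cx M), IsCentral ι → DetRelation ι e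

/-- The Gross-Deligne conjecture for the generated class. -/
theorem grossDeligne_iff_detAll {C : Str → Prop} (hP : ∀ S, C S → Nonempty (Pol S)) :
    GrossDeligne (Gen C) ↔ DetAll C := by
  constructor
  · intro h K _ _ e hex him hG hc S hS M hM ι hι
    have h1 : TriplesFor (Gen C) e := fun R hR A => h R hR K e hex A
    have h2 : TriplesFor (Gen C) e ↔ DetFor C e := (determinants_suffice C hP K e hex).out 0 1
    exact h2.1 h1 K (RingHom.id K) him hG hc S hS M hM ι hι
  · intro h R hR F _ _ e hex A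
    have h1 : DetFor C e := by
      intro K _ _ i him hG hc S hS M hM ι hι
      obtain ⟨d, hd⟩ := hex
      exact h K (e.comp i) ⟨d, hd.1, fun x => hd.2 (i x)⟩ him hG hc S hS M hM ι hι
    have h2 : TriplesFor (Gen C) e ↔ DetFor C e := (determinants_suffice C hP F e hex).out 0 1
    exact h2.2 h1 R hR A

/-- The relation for an item. -/
def Item.Rel {C : Str → Prop} (D : Item C) : Prop := DetRelation D.ι D.e

section field

variable {S : Str} {M : Submodule ℚ S.W} {K L : Type} [Field K] [Field L]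
  (φ : K ≃+* L) (ι : L →+* Module.End ℂ (S.cx M))

theorem eig_comp (τ : L →+* ℂ) :
    eig (ι.comp φ.toRingHom) (τ.comp φ.toRingHom) = eig ι τ := by
  unfold eig
  congr 1
  exact φ.surjective.iInf_comp (fun b : L => Module.End.eigenspace (ι b) (τ b))

theorem exists_comp (τ : K →+* ℂ) : ∃ τ' : L →+* ℂ, τ = τ'.comp φ.toRingHom :=
  ⟨τ.comp φ.symm.toRingHom, by
    ext x
    simp⟩

theorem isPhi_comp (e : L →+* ℂ) (d : ℕ) (l : (ZMod d)ˣ) (τ : L →+* ℂ) :
    IsPhi (e.comp φ.toRingHom) d l (τ.comp φ.toRingHom) ↔ IsPhi e d l τ := by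
  constructor
  · rintro ⟨s, h1, h2⟩
    refine ⟨s, h1, fun x z hz => ?_⟩
    have h3 := h2 (φ.symm x) z (by
      change (z : ℂ) = e (φ (φ.symm x))
      rw [φ.apply_symm_apply]
      exact hz)
    change τ (φ (φ.symm x)) = s z at h3
    rwa [φ.apply_symm_apply] at h3
  · rintro ⟨s, h1, h2⟩
    exact ⟨s, h1, fun x z hz => h2 (φ x) z hz⟩

theorem liesIn_comp (e : L →+* ℂ) (d : ℕ) : LiesIn (e.comp φ.toRingHom) d ↔ LiesIn e d := by
  constructor
  · rintro ⟨h1, h2⟩
    refine ⟨h1, fun x => ?_⟩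
    have h3 := h2 (φ.symm x)
    change e (φ (φ.symm x)) ∈ GD.cyc d at h3
    rwa [φ.apply_symm_apply] at h3
  · rintro ⟨h1, h2⟩
    exact ⟨h1, fun x => h2 (φ x)⟩

/-- Transport of the relation along an isomorphism of fields. -/
theorem detRelation_comp {e : L →+* ℂ} (h : DetRelation ι e) :
    DetRelation (ι.comp φ.toRingHom) (e.comp φ.toRingHom) := by
  intro d _ hd ε hε l τ hτ z hz
  obtain ⟨τ', rfl⟩ := exists_comp φ τ
  have hd' : d = conductor e := by
    rw [hd]
    unfold conductor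
    congr 1
    ext d
    exact liesIn_comp φ e d
  have hz' : IsDetPeriod ι τ' z := by
    obtain ⟨n, v, ω, Φ, hv, hvs, hω, hωs, h1, h2, h3, h4⟩ := hz
    rw [eig_comp] at hvs hωs
    exact ⟨n, v, ω, Φ, hv, hvs, hω, hωs, h1, h2, h3, h4⟩
  refine h d hd' ε (fun l' τ'' hτ'' => ?_) l τ' ((isPhi_comp φ e d l τ').1 hτ) z hz'
  have h1 := hε l' (τ''.comp φ.toRingHom) ((isPhi_comp φ e d l' τ'').2 hτ'')
  have h2 : detType (ι.comp φ.toRingHom) (τ''.comp φ.toRingHom) = detType ι τ'' := by
    unfold detType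
    rw [eig_comp]
  rwa [h2] at h1

end field

/-- The relation only depends on the periods and the types. -/
theorem detRelation_of_transport {S : Str} {M M' : Submodule ℚ S.W} {K : Type} [Field K]
    {ι : K →+* Module.End ℂ (S.cx M)} {ι' : K →+* Module.End ℂ (S.cx M')}
    (h1 : ∀ τ z, IsDetPeriod ι τ z → IsDetPeriod ι' τ z) (h2 : ∀ τ, detType ι' τ = detType ι τ)
    {e : K →+* ℂ} (h : DetRelation ι' e) : DetRelation ι e := by
  intro d _ hd ε hε l τ hτ z hz
  refine h d hd ε (fun l' τ' hτ' => ?_) l τ hτ z (h1 τ z hz)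
  rw [h2]
  exact hε l' τ' hτ'

/-- A central multiplication factors through the centre. -/
theorem exists_factor {S : Str} {M : Submodule ℚ S.W} (hM : IsSimple S M) {E : Type} [Field E]
    [NumberField E] (ιE : E →+* Module.End ℂ (S.cx M))
    (hE : ∀ f, IsEnd S M f → (∀ g, IsEnd S M g → f * g = g * f) → ∃ a, f = ιE a)
    {K : Type} [Field K] {ι : K →+* Module.End ℂ (S.cx M)} (hι : IsCentral ι) :
    ∃ g : K →+* E, ι = ιE.comp g := by
  have hnt : Nontrivial (S.cx M) := by
    rw [Submodule.nontrivial_iff_ne_bot]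
    intro h
    apply hM.ne
    rw [Submodule.eq_bot_iff]
    intro x hx
    have h1 : x ∈ S.cx M := Submodule.subset_span hx
    rw [h, Submodule.mem_bot] at h1
    exact h1
  have hinj : Function.Injective ιE := ιE.injective
  have h1 : ∀ a, ∃ b, ι a = ιE b := fun a => hE (ι a) (hι.isEnd a)
    (fun g hg => (hι.comm g hg a).symm)
  choose g hg using h1
  refine ⟨{ toFun := g, map_one' := ?_, map_mul' := ?_, map_zero' := ?_, map_add' := ?_ }, ?_⟩
  · apply hinj
    rw [← hg, map_one, map_one]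
  · intro x y
    apply hinj
    rw [map_mul, ← hg, ← hg, ← hg, map_mul]
  · apply hinj
    rw [← hg, map_zero, map_zero]
  · intro x y
    apply hinj
    rw [map_add, ← hg, ← hg, ← hg, map_add]
  · ext1 a
    exact hg a

theorem central_comp {S : Str} {M : Submodule ℚ S.W} {E : Type} [Field E]
    {ιE : E →+* Module.End ℂ (S.cx M)} (h : IsCentral ιE) {K : Type} [Field K] (g : K →+* E) :
    IsCentral (ιE.comp g) :=
  ⟨fun a => h.isEnd (g a), fun f hf a => h.comm f hf (g a)⟩

/-- The finite list for one structure. -/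
theorem exists_items {C : Str → Prop} {S : Str} (hS : C S) (P : Pol S) :
    ∃ (J : Type) (_ : Finite J) (D : J → Item C), (∀ j, (D j).S = S) ∧
      ∀ (K : Type) [Field K] [NumberField K] (e : K →+* ℂ), (∃ d, LiesIn e d) →
        (∃ x, (e x).im ≠ 0) → IsGalois ℚ K → IsCyclic (K ≃ₐ[ℚ] K) →
        ∀ M : Submodule ℚ S.W, IsSimple S M → ∀ ι : K →+* Module.End ℂ (S.cx M),
          IsCentral ι → (∀ j, (D j).Rel) → DetRelation ι e := by
  classical
  obtain ⟨J0, _, M0, hM0, hdec⟩ := exists_decomp P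
  choose E iF iN ιE hc hE _ using fun j => exists_center P (hM0 j)
  -- the index set
  let Q : ∀ j, (Σ L : IntermediateField ℚ (E j), (L →+* ℂ)) → Prop := fun j q =>
    (∃ d, LiesIn q.2 d) ∧ (∃ x, (q.2 x).im ≠ 0) ∧ IsGalois ℚ q.1 ∧ IsCyclic (q.1 ≃ₐ[ℚ] q.1)
  let J : Type := Σ j, {q : (Σ L : IntermediateField ℚ (E j), (L →+* ℂ)) // Q j q}
  have hfin : Finite J := by
    have : ∀ j, Finite (IntermediateField ℚ (E j)) := fun j =>
      (Field.exists_primitive_element_iff_finite_intermediateField ℚ (E j)).1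
        ⟨inferInstance, Field.exists_primitive_element ℚ (E j)⟩
    infer_instance
  let D : J → Item C := fun q =>
    { S := S
      mem := hS
      M := M0 q.1
      simple := hM0 q.1
      L := q.2.1.1
      ι := (ιE q.1).comp (algebraMap q.2.1.1 (E q.1))
      central := central_comp (hc q.1) _
      e := q.2.1.2
      lies := q.2.2.1
      im := q.2.2.2.1
      gal := q.2.2.2.2.1
      cyc := q.2.2.2.2.2 }
  refine ⟨J, hfin, D, fun _ => rfl, ?_⟩
  intro K _ _ e hlies him hgal hcyc M hM ι hι hrel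
  obtain ⟨j, F, hF, hinj, himg⟩ := hdec M hM
  obtain ⟨ι', h1, h2, h3⟩ := transport ι hF hM.sub hinj himg
  apply detRelation_of_transport h1 h2
  obtain ⟨g, hg⟩ := exists_factor (hM0 j) (ιE j) (hE j) (h3 hι)
  -- the image of the field
  let ga : K →ₐ[ℚ] E j := RingHom.equivRatAlgHom K (E j) g
  have hga : ∀ x, ga x = g x := fun _ => rfl
  let L : IntermediateField ℚ (E j) := ga.fieldRange
  let φa : K ≃ₐ[ℚ] L := ga.equivFieldRange
  let φ : K ≃+* L := φa.toRingEquiv
  have hφ : ∀ x, ((φ x : L) : E j) = g x := fun _ => rfl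
  obtain ⟨e', he'⟩ := exists_comp φ e
  have hq : Q j ⟨L, e'⟩ := by
    refine ⟨?_, ?_, ?_, ?_⟩
    · obtain ⟨d, hd⟩ := hlies
      rw [he', liesIn_comp] at hd
      exact ⟨d, hd⟩
    · obtain ⟨x, hx⟩ := him
      rw [he'] at hx
      exact ⟨φ x, hx⟩
    · exact IsGalois.of_algEquiv φa
    · exact isCyclic_of_surjective (AlgEquiv.autCongr φa) (AlgEquiv.autCongr φa).surjective
  have h4 : DetRelation ((ιE j).comp (algebraMap L (E j))) e' := hrel ⟨j, ⟨⟨L, e'⟩, hq⟩⟩
  have h5 := detRelation_comp φ _ h4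
  have h6 : ι' = ((ιE j).comp (algebraMap L (E j))).comp φ.toRingHom := by
    rw [hg]
    rfl
  rw [h6, he']
  exact h5

/-- The relation for determinants for finitely many structures is a finite list of relations. -/
theorem exists_finite_list {n : ℕ} (S : Fin n → Str) (hP : ∀ i, Nonempty (Pol (S i))) :
    ∃ (N : ℕ) (D : Fin N → Item (fun R => ∃ i, R = S i)),
      (DetAll (fun R => ∃ i, R = S i) ↔ ∀ j, (D j).Rel) := by
  classical
  choose J hJ D hD h using fun i => exists_items (C := fun R => ∃ i, R = S i) (S := S i) ⟨i, rfl⟩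
    (hP i).some
  have hfin : Finite (Σ i, J i) := inferInstance
  obtain ⟨N, ⟨eq⟩⟩ := Finite.exists_equiv_fin (Σ i, J i)
  refine ⟨N, fun k => D (eq.symm k).1 (eq.symm k).2, ?_, ?_⟩
  · intro h k
    exact h _ _ (D (eq.symm k).1 (eq.symm k).2).lies (D (eq.symm k).1 (eq.symm k).2).im
      (D (eq.symm k).1 (eq.symm k).2).gal (D (eq.symm k).1 (eq.symm k).2).cyc _
      (D (eq.symm k).1 (eq.symm k).2).mem _ (D (eq.symm k).1 (eq.symm k).2).simple _
      (D (eq.symm k).1 (eq.symm k).2).central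
  · rintro hrel K _ _ e hlies him hgal hcyc R ⟨i, rfl⟩ M hM ι hι
    refine h i K e hlies him hgal hcyc M hM ι hι (fun j => ?_)
    have h1 := hrel (eq ⟨i, j⟩)
    change (D (eq.symm (eq ⟨i, j⟩)).1 (eq.symm (eq ⟨i, j⟩)).2).Rel at h1
    rw [Equiv.symm_apply_apply] at h1
    exact h1

end GD.DT
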