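import Pool.Agent.H27.GD.BoundDefs
import Pool.Agent.H27.GD.FinList
import Pool.Agent.H44.GD.Twist

/-!
# The Gross-Deligne conjecture and Hodge classes on bounded powers
-/

set_option autoImplicit false

noncomputable section

namespace GD.DT

open Complex GD Module NumberField

/-- The relation for the determinant from the relation for the attached triples. -/
theorem detRelation_of_attached {S : Str} {M : Submodule ℚ S.W} (hM : M ≤ S.B) {K : Type}
    [Field K] [NumberField K] (ι : K →+* Module.End ℂ (S.cx M)) {e : K →+* ℂ}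
    (hex : ∃ d, LiesIn e d) {R : Str} (f : Fam R K) (hc : ∀ τ, IsDetPeriod ι τ (f.c τ))
    (hp : f.p = detType ι) (h : ∀ A : Adm R K, Attached A f → Relation A e) :
    DetRelation ι e := by
  have hcond := liesIn_conductor hex
  intro d _ hd ε hε l τ hτ z hz
  rw [← hd] at hcond
  obtain ⟨A, hA, -⟩ := f.exists_adm
  have h1 := relationAt_to gammaSpec hA hcond.2 (h A hA d hd)
  rw [isPhi_iff e hcond.2] at hτ
  subst hτ
  have hdd : (d : ℚ) ≠ 0 := by exact_mod_cast NeZero.ne d
  have h2 := h1 ε (by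
    intro l'
    have h3 := hε l' (phi e hcond.2 l') ((isPhi_iff e hcond.2 l' _).2 rfl)
    rw [sum_erase, ← tsum_id] at h3
    rw [hp]
    exact (mul_left_cancel₀ hdd h3).symm) l
  refine (detPeriod_sim hM ι hz (hc _)).trans
    (sim_of_cls gammaSpec (f.c_ne _) (gammaProd_ne d ε l) ?_)
  rw [h2, cls_gammaProd gammaSpec]

/-- The relation for a triple of Tate type gives the rationality of its classes. -/
theorem tate_of_relation {S : Str} {K : Type} [Field K] [NumberField K] {e : K →+* ℂ}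
    (hex : ∃ d, LiesIn e d) (him : ∃ x, (e x).im ≠ 0) (A : Adm S K) (r : ℕ)
    (hT : A.HasType (fun _ => r)) (h : Relation A e) :
    ∀ w ∈ A.H, (2 * Real.pi * I) ^ r • w ∈ S.D := by
  have hc := liesIn_conductor hex
  have : NeZero (conductor e) := ⟨hc.1.ne'⟩
  obtain ⟨f, hf, hfp⟩ := A.exists_fam _ hT
  have h1 := relationAt_to gammaSpec hf hc.2 (h (conductor e) rfl)
  have h3 := three_le hc.2 him
  obtain ⟨ε, hε⟩ := ex' gammaSpec (conductor e) h3 (2 * r) (fun _ => (r : ℚ)) (fun _ => by ring)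
  rw [fam_dR_iff hf]
  intro σ
  obtain ⟨l, rfl⟩ := exists_phi e hc.2 σ
  have h4 := h1 ε (fun l => by rw [hε, hfp]) l
  rw [gam_const gammaSpec _ r ε hε (by omega) l, ← cls_two_pi_I gammaSpec] at h4
  have h5 := (sim_of_cls gammaSpec (f.c_ne _) (GD.two_pi_I_ne r) h4).symm
  have h6 := S.D_smul h5.2.2 (f.dR (phi e hc.2 l))
  rwa [smul_smul, div_mul_cancel₀ _ h5.2.1] at h6

theorem powOf_wt {S : Str} {n : ℕ} {T : Str} (h : PowOf S n T) : T.wt = n * S.wt := by
  induction h with
  | one => rw [one_mul]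
  | succ n T R μ _ hμ _ ih => rw [hμ.wt, ih, add_mul, one_mul, add_comm]

theorem cmTwist_gen {CM C : Str → Prop} (hsub : ∀ Z, CM Z → C Z) {T : Str} (hT : Gen C T) {r : ℕ}
    {R : Str} (h : CMTwist CM T r R) : Gen C R := by
  induction h with
  | zero => exact hT
  | succ r R Z R' μ _ hZ _ hμ hbij ih =>
    refine Gen.ten R' 1 (fun _ => R) (fun _ => Z) (fun _ => μ) (fun _ => ih)
      (fun _ => Gen.base Z (hsub Z hZ)) (fun _ => hμ) ?_
    rw [ciSup_const, LinearMap.range_eq_top]
    exact hbij.2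

theorem cmTwist_tenL {CM : Str → Prop} {T : Str} : ∀ (l : List Str) (r : ℕ) (R : Str),
    CMTwist CM T r R → (∀ Z ∈ l, CM Z ∧ Z.wt = 1) → CMTwist CM T (r + l.length) (tenL R l)
  | [], r, R, h, _ => h
  | Z :: l, r, R, h, hl => by
    have hZ := hl Z List.mem_cons_self
    have h1 : CMTwist CM T (r + 1) (R.ten Z) := by
      refine CMTwist.succ r R Z (R.ten Z) (mkT R Z) h hZ.1 hZ.2 (isBil_mk R Z)
        ⟨mkT_inj R Z, fun z => ⟨z, lift_mkT R Z z⟩⟩
    have h2 := cmTwist_tenL l (r + 1) (R.ten Z) h1 (fun Z' hZ' => hl Z' (List.mem_cons_of_mem _ hZ'))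
    have h3 : r + (Z :: l).length = r + 1 + l.length := by
      rw [List.length_cons]
      omega
    rw [h3]
    exact h2

/-- The twist of a family to Tate type. -/
theorem exists_twist_fam {K : Type} [Field K] [NumberField K] {CM : Str → Prop} (hCM : HasCM CM)
    (e : K →+* ℂ) (hex : ∃ d, LiesIn e d) (him : ∃ x, (e x).im ≠ 0) (hGal : IsGalois ℚ K)
    (hcyc : IsCyclic (K ≃ₐ[ℚ] K)) {R : Str} (f : Fam R K) :
    ∃ l : List Str, l.length = R.wt ∧ (∀ Z ∈ l, CM Z ∧ Z.wt = 1) ∧
      ∃ g : Fam (tenL R l) K, (∀ σ, g.p σ = R.wt) ∧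
        ((∀ Z ∈ l, ∀ A : Adm Z K, Relation A e) →
          (2 * Real.pi * I) ^ R.wt • ∑ σ, g.v σ ∈ (tenL R l).D →
            ∀ A : Adm R K, Attached A f → Relation A e) := by
  classical
  have hc := liesIn_conductor hex
  have hne : NeZero (conductor e) := ⟨hc.1.ne'⟩
  have hd3 := three_le hc.2 him
  obtain ⟨Φ, hΦ1, hΦ2⟩ := exists_types (no_real e hc.2 him) R.wt f.p (fun σ => f.p_add σ)
  have hex2 : ∀ j, ∃ z : Σ Z : Str, Fam Z K, CM z.1 ∧ z.1.wt = 1 ∧ z.2.p = typ (Φ j) := by
    intro j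
    obtain ⟨S, hS, hwt, A, hA1, hA0⟩ := hCM K e hex him hGal hcyc (Φ j) (hΦ1 j)
    have hTy : A.HasType (typ (Φ j)) := by
      intro σ
      unfold typ
      by_cases hσ : σ ∈ Φ j
      · rw [if_pos hσ]
        exact hA1 σ hσ
      · rw [if_neg hσ]
        exact hA0 σ hσ
    obtain ⟨g, -, hgp⟩ := A.exists_fam _ hTy
    exact ⟨⟨S, g⟩, hS, hwt, hgp⟩
  choose z hz1 hz2 hz3 using hex2
  obtain ⟨g, hg1, hg2⟩ := tenL_fam ((List.range R.wt).map z) f
  have hlist : ((List.range R.wt).map z).map Sigma.fst = (List.range R.wt).map fun j => (z j).1 := by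
    rw [List.map_map]
    rfl
  have hprod : ∀ σ, g.c σ = f.c σ * ∏ j ∈ Finset.range R.wt, (z j).2.c σ := by
    intro σ
    rw [hg1]
    change f.c σ * (((List.range R.wt).map z).map fun z => z.2.c σ).prod = _
    rw [List.map_map]
    rfl
  have hp : ∀ σ, f.p σ + ∑ j ∈ Finset.range R.wt, (z j).2.p σ = R.wt := by
    intro σ
    have h1 : ∑ j ∈ Finset.range R.wt, (z j).2.p σ = ∑ j ∈ Finset.range R.wt, typ (Φ j) σ :=
      Finset.sum_congr rfl fun j _ => by rw [hz3]
    rw [h1, hΦ2 σ]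
  have hsum : ∀ σ, g.p σ = R.wt := by
    intro σ
    rw [hg2]
    change f.p σ + (((List.range R.wt).map z).map fun z => z.2.p σ).sum = _
    rw [List.map_map]
    exact hp σ
  refine ⟨((List.range R.wt).map z).map Sigma.fst, by simp, ?_, g, hsum, ?_⟩
  · intro Z hZ
    rw [hlist, List.mem_map] at hZ
    obtain ⟨j, _, rfl⟩ := hZ
    exact ⟨hz1 j, hz2 j⟩
  · intro hrel hD A hA d _ hd
    subst hd
    have hzr : ∀ j < R.wt, RelAll Pool.Agent.H11.GD.cls (conductor e) e hc.2 (z j).2.c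
        (z j).2.p := by
      intro j hj
      obtain ⟨A, hA, -⟩ := (z j).2.exists_adm
      refine relationAt_to gammaSpec hA hc.2 (hrel (z j).1 ?_ A (conductor e) rfl)
      rw [hlist, List.mem_map]
      exact ⟨j, List.mem_range.2 hj, rfl⟩
    have h1 := relAll_twist gammaSpec hc.2 hd3 f R.wt z hz2 hp hzr
    have h2 := (fam_tate_iff gammaSpec g R.wt).2 hD
    refine relationAt_of gammaSpec hA hc.2 (h1.2 fun σ => ?_)
    rw [← hprod]
    exact h2 σ

/-- The relation for determinants for a union of two classes. -/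
theorem detAll_or {C C' : Str → Prop} :
    DetAll (fun R => C R ∨ C' R) ↔ DetAll C ∧ DetAll C' := by
  constructor
  · intro h
    exact ⟨fun K _ _ e hex him hG hc S hS => h K e hex him hG hc S (Or.inl hS),
      fun K _ _ e hex him hG hc S hS => h K e hex him hG hc S (Or.inr hS)⟩
  · rintro ⟨h1, h2⟩ K _ _ e hex him hG hc S (hS | hS)
    · exact h1 K e hex him hG hc S hS
    · exact h2 K e hex him hG hc S hS

/-- The Gross-Deligne conjecture for a union of two classes. -/
theorem grossDeligne_or {C C' : Str → Prop} (hP : ∀ S, C S → Nonempty (Pol S))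
    (hP' : ∀ S, C' S → Nonempty (Pol S)) :
    GrossDeligne (Gen (fun R => C R ∨ C' R)) ↔
      GrossDeligne (Gen C) ∧ GrossDeligne (Gen C') := by
  rw [grossDeligne_iff_detAll hP, grossDeligne_iff_detAll hP', ← detAll_or]
  apply grossDeligne_iff_detAll
  rintro S (hS | hS)
  · exact hP S hS
  · exact hP' S hS

/-- The relation for determinants from the relation in weight one and from the rationality of
Hodge classes. -/
theorem detAll_of_hodge {CM C : Str → Prop} (hCM : HasCM CM) (hP : ∀ S, C S → Nonempty (Pol S))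
    (h1 : WeightOne CM) (h2 : BoundedHodge CM C) : DetAll C := by
  intro K _ _ e hex him hG hc S hS M hM ι hι
  obtain ⟨P⟩ := hP S hS
  obtain ⟨k, hk, f, hfc, hfp⟩ := exists_fam_tpow ι P hM.sub hM.ne hι.isEnd
  obtain ⟨l, hl1, hl2, g, hg1, hg2⟩ := exists_twist_fam hCM e hex him hG hc f
  refine detRelation_of_attached hM.sub.le ι hex f hfc hfp (hg2 ?_ ?_)
  · intro Z hZ A
    exact h1 Z (hl2 Z hZ).1 (hl2 Z hZ).2 K e hex him hG hc A
  · have hT : PowOf S (k + 1) (S.tpow k) := powOf_tpow S k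
    have hwt : (S.tpow k).wt = (k + 1) * S.wt := powOf_wt hT
    have hR : CMTwist CM (S.tpow k) ((k + 1) * S.wt) (tenL (S.tpow k) l) := by
      have h3 := cmTwist_tenL l 0 (S.tpow k) CMTwist.zero hl2
      rwa [zero_add, hl1, hwt] at h3
    obtain ⟨A, hA, hAT⟩ := g.exists_adm
    have hAT' : A.HasType (fun _ => (k + 1) * S.wt) := by
      intro σ
      have h3 := hAT σ
      rwa [hg1, hwt] at h3
    have h4 := h2 K e hex him hG hc S hS M hM ι hι (k + 1) hk (S.tpow k) hT _ hR A hAT'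
      (∑ σ, g.v σ) ((hA.mem _).2 ⟨1, by simp⟩)
    rw [hwt]
    exact h4

/-- The main theorem on Hodge classes. -/
theorem bounded_hodge {CM C : Str → Prop} (hCM : HasCM CM) (hsub : ∀ Z, CM Z → C Z)
    (hP : ∀ S, C S → Nonempty (Pol S)) :
    GrossDeligne (Gen C) ↔ WeightOne CM ∧ BoundedHodge CM C := by
  constructor
  · intro h
    refine ⟨fun Z hZ _ K _ _ e hex _ _ _ A => h Z (Gen.base Z (hsub Z hZ)) K e hex A, ?_⟩
    intro K _ _ e hex him hG hc S hS M hM ι hι n hn T hT R hR A hA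
    have h1 : Gen C T := powOf_gen (Gen.base S hS) hT
    have h2 : Gen C R := cmTwist_gen hsub h1 hR
    exact tate_of_relation hex him A _ hA (h R h2 K e hex A)
  · rintro ⟨h1, h2⟩
    rw [grossDeligne_iff_detAll hP]
    exact detAll_of_hodge hCM hP h1 h2

end GD.DT
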