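import Pool.Agent.H26.DT.Defs2

/-!
# Hodge classes on bounded powers times abelian varieties with complex multiplication
-/

set_option autoImplicit false

noncomputable section

namespace GD

/-- `R` is the tensor product of `T` with `r` structures of weight one of the class `CM`. -/
inductive CMTwist (CM : Str → Prop) (T : Str) : ℕ → Str → Prop
  | zero : CMTwist CM T 0 T
  | succ (r : ℕ) (R Z R' : Str) (μ : R.W →ₗ[ℂ] Z.W →ₗ[ℂ] R'.W) :
      CMTwist CM T r R → CM Z → Z.wt = 1 → IsBil R Z R' μ →
      Function.Bijective (TensorProduct.lift μ) → CMTwist CM T (r + 1) R'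

/-- Rationality on the de Rham side of the Hodge classes with multiplication by an imaginary
cyclic field `K` on `S ^ ⊗ n ⊗ Z 1 ⊗ ... ⊗ Z r`, where `S` is in `C`, the field `K` acts through
the centre of the endomorphisms on a simple constituent `M` of `S` with `n * [K : ℚ] = dim M`,
`r = n * wt S` and the `Z j` are structures of weight one of the class `CM`. -/
def BoundedHodge (CM C : Str → Prop) : Prop :=
  ∀ (K : Type) [Field K] [NumberField K] (e : K →+* ℂ), (∃ d, LiesIn e d) →
    (∃ x, (e x).im ≠ 0) → IsGalois ℚ K → IsCyclic (K ≃ₐ[ℚ] K) →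
    ∀ S, C S → ∀ M : Submodule ℚ S.W, IsSimple S M →
      ∀ ι : K →+* Module.End ℂ (S.cx M), IsCentral ι →
      ∀ n : ℕ, n * Module.finrank ℚ K = Module.finrank ℚ M →
      ∀ T, PowOf S n T → ∀ R, CMTwist CM T (n * S.wt) R →
      ∀ A : Adm R K, A.HasType (fun _ => n * S.wt) →
      ∀ h ∈ A.H, (2 * Real.pi * Complex.I) ^ (n * S.wt) • h ∈ R.D

end GD
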