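import Pool.Agent.H44.GD.Per
import Pool.Agent.H44.GD.Eig

/-!
# Decomposition into simple substructures and transport of multiplications
-/

set_option autoImplicit false

noncomputable section

namespace GD.DT

open Complex GD Module

variable {S : Str}

theorem IsHom.add' {R R' : Str} {f g : R.W →ₗ[ℂ] R'.W} (hf : IsHom R R' f)
    (hg : IsHom R R' g) : IsHom R R' (f + g) :=
  ⟨hf.wt, fun x h => add_mem (hf.betti x h) (hg.betti x h),
    fun x h => add_mem (hf.deRham x h) (hg.deRham x h),
    fun p x h => add_mem (hf.hodge p x h) (hg.hodge p x h)⟩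

/-- A polarised structure is a direct sum of simple ones, with projections. -/
theorem exists_decomp_aux (P : Pol S) : ∀ (n : ℕ) (N : Submodule ℚ S.W), IsSub S N →
    finrank ℚ N = n → ∃ (J : Type) (_ : Fintype J) (M : J → Submodule ℚ S.W)
      (π : J → (S.W →ₗ[ℂ] S.W)), (∀ j, IsSimple S (M j)) ∧ (∀ j, IsHom S S (π j)) ∧
      (∀ j w, π j w ∈ S.cx (M j)) ∧ ∀ w ∈ S.cx N, ∑ j, π j w = w := by
  intro n
  induction n using Nat.strong_induction_on with
  | _ n ih =>
    intro N hN hn
    by_cases h0 : N = ⊥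
    · refine ⟨Empty, inferInstance, fun j => j.elim, fun j => j.elim, fun j => j.elim,
        fun j => j.elim, fun j => j.elim, ?_⟩
      intro w hw
      rw [h0] at hw
      have : S.cx (⊥ : Submodule ℚ S.W) = ⊥ := by simp
      rw [this, Submodule.mem_bot] at hw
      rw [hw]
      simp
    by_cases hs : IsSimple S N
    · obtain ⟨p, hp, hp1, hp2⟩ := exists_proj P hN
      refine ⟨Unit, inferInstance, fun _ => N, fun _ => p, fun _ => hs, fun _ => hp,
        fun _ => hp2, ?_⟩
      intro w hw
      simp [hp1 w hw]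
    -- a proper substructure
    have h1 : ∃ N', N' ≤ N ∧ IsSub S N' ∧ N' ≠ ⊥ ∧ N' ≠ N := by
      by_contra hcon
      push Not at hcon
      apply hs
      refine ⟨hN, h0, fun N' h1 h2 => ?_⟩
      by_cases h3 : N' = ⊥
      · exact Or.inl h3
      · exact Or.inr (hcon N' h1 h2 h3)
    obtain ⟨N', hN'1, hN'2, hN'3, hN'4⟩ := h1
    have := finite_sub hN.le
    have := finite_sub hN'2.le
    obtain ⟨p, hp, hp1, hp2⟩ := exists_proj P hN'2
    -- the complement
    have hq : IsHom S S (LinearMap.id - p) := (IsHom.id S).sub hp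
    have hN'' := isSub_img hq hN
    have hpN : ∀ x ∈ N, p x ∈ N' := fun x hx => mem_of_cx hN'2.le (hp2 x) (hp.betti x (hN.le hx))
    have hle : imgQ (LinearMap.id - p) N ≤ N := by
      rintro _ ⟨x, hx, rfl⟩
      exact sub_mem hx (hN'1 (hpN x hx))
    have := finite_sub hN''.le
    have hker : ∀ y ∈ imgQ (LinearMap.id - p) N, p y = 0 := by
      rintro _ ⟨x, _, rfl⟩
      rw [LinearMap.sub_apply, LinearMap.id_apply, map_sub, hp1 (p x) (hp2 x), sub_self]
    have hlt1 : finrank ℚ N' < n := by
      rw [← hn]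
      exact Submodule.finrank_lt_finrank_of_lt (lt_of_le_of_ne hN'1 hN'4)
    have hlt2 : finrank ℚ (imgQ (LinearMap.id - p) N : Submodule ℚ S.W) < n := by
      rw [← hn]
      apply Submodule.finrank_lt_finrank_of_lt
      refine lt_of_le_of_ne hle fun heq => ?_
      apply hN'3
      rw [Submodule.eq_bot_iff]
      intro x hx
      have h2 : x ∈ imgQ (LinearMap.id - p) N := by
        rw [heq]
        exact hN'1 hx
      rw [← hp1 x (Submodule.subset_span hx)]
      exact hker x h2
    obtain ⟨J, _, M, π, h3, h4, h5, h6⟩ := ih _ hlt1 N' hN'2 rfl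
    obtain ⟨J', _, M', π', h3', h4', h5', h6'⟩ := ih _ hlt2 _ hN'' rfl
    refine ⟨J ⊕ J', inferInstance, Sum.elim M M',
      Sum.elim (fun j => (π j).comp p) (fun j => (π' j).comp (LinearMap.id - p)), ?_, ?_, ?_, ?_⟩
    · rintro (j | j)
      · exact h3 j
      · exact h3' j
    · rintro (j | j)
      · exact (h4 j).comp hp
      · exact (h4' j).comp hq
    · rintro (j | j) w
      · exact h5 j _
      · exact h5' j _
    · intro w hw
      rw [Fintype.sum_sum_type]
      simp only [Sum.elim_inl, Sum.elim_inr, LinearMap.comp_apply]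
      rw [h6 _ (hp2 w), h6']
      · rw [LinearMap.sub_apply, LinearMap.id_apply]
        abel
      · rw [cx_imgQ]
        exact Submodule.mem_map_of_mem hw

/-- Every simple substructure is isomorphic to one of the finitely many simple constituents. -/
theorem exists_decomp (P : Pol S) : ∃ (J : Type) (_ : Fintype J) (M : J → Submodule ℚ S.W),
    (∀ j, IsSimple S (M j)) ∧ ∀ N, IsSimple S N → ∃ (j : J) (F : S.W →ₗ[ℂ] S.W),
      IsHom S S F ∧ (∀ x ∈ S.cx N, F x = 0 → x = 0) ∧ imgQ F N = M j := by
  classical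
  obtain ⟨J, _, M, π, h1, h2, h3, h4⟩ := exists_decomp_aux P _ _ isSub_top rfl
  refine ⟨J, inferInstance, M, h1, fun N hN => ?_⟩
  have h4' : ∀ w, ∑ j, π j w = w := fun w => h4 w (by rw [Str.cx_B]; exact Submodule.mem_top)
  obtain ⟨p, hp, hp1, hp2⟩ := exists_proj P hN.sub
  -- one of the composites is not zero
  have h5 : ∃ j, ∃ x ∈ N, p (π j x) ≠ 0 := by
    by_contra hcon
    push Not at hcon
    apply hN.ne
    rw [Submodule.eq_bot_iff]
    intro x hx
    have h6 := hp1 x (Submodule.subset_span hx)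
    rw [← h4' x, map_sum] at h6
    rw [Finset.sum_eq_zero fun j _ => hcon j x hx] at h6
    rw [← h4' x]
    exact h6.symm
  obtain ⟨j, x0, hx0, hne⟩ := h5
  -- the endomorphism
  let g : Module.End ℂ (S.cx N) := (p.comp (π j)).restrict (fun w _ => hp2 _)
  have hg : ∀ x : S.cx N, (g x : S.W) = p (π j x) := fun _ => rfl
  have hgE : IsEnd S N g := by
    refine ⟨fun x hx => ?_, fun x hx => ?_, fun q x hx => ?_⟩
    · rw [hg]
      exact mem_of_cx hN.sub.le (hp2 _) (hp.betti _ ((h2 j).betti _ (hN.sub.le hx)))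
    · rw [hg]
      exact hp.deRham _ ((h2 j).deRham _ hx)
    · rw [hg]
      exact hp.hodge q _ ((h2 j).hodge q _ hx)
  have hg0 : g ≠ 0 := by
    intro h
    apply hne
    have h7 := congrArg (fun t => ((t ⟨x0, Submodule.subset_span hx0⟩ : S.cx N) : S.W)) h
    exact h7
  have hinj := hN.bij P hgE hg0
  refine ⟨j, π j, h2 j, ?_, ?_⟩
  · intro x hx h0
    have h8 : g ⟨x, hx⟩ = 0 := by
      apply Subtype.ext
      rw [hg]
      change p (π j x) = 0
      rw [h0, map_zero]
    have h9 := hinj (h8.trans (map_zero g).symm)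
    exact congrArg Subtype.val h9
  · have hle : imgQ (π j) N ≤ M j := by
      rintro _ ⟨x, hx, rfl⟩
      exact mem_of_cx (h1 j).sub.le (h3 j x) ((h2 j).betti _ (hN.sub.le hx))
    rcases (h1 j).min _ hle (isSub_img (h2 j) hN.sub) with h6 | h6
    · exfalso
      apply hne
      have h7 : π j x0 ∈ imgQ (π j) N := ⟨x0, hx0, rfl⟩
      rw [h6, Submodule.mem_bot] at h7
      rw [h7, map_zero]
    · exact h6

section transport

variable {M M' : Submodule ℚ S.W} {F : S.W →ₗ[ℂ] S.W}

theorem map_nabD {R R' : Str} {f : R.W →ₗ[ℂ] R'.W} (hf : IsHom R R' f)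
    (δ : Derivation Qbar ℂ ℂ) (x : R.W) : R'.nabD δ (f x) = f (R.nabD δ x) := by
  have hx : x ∈ Submodule.span ℂ (R.D : Set R.W) := by
    rw [Str.span_D]
    exact Submodule.mem_top
  induction hx using Submodule.span_induction with
  | mem x hx => rw [R.nabD_D δ hx, R'.nabD_D δ (hf.deRham x hx), map_zero]
  | zero => rw [map_zero, map_zero, map_zero, map_zero]
  | add x y _ _ hx hy => rw [map_add, map_add, map_add, map_add, hx, hy]
  | smul c x _ hx => rw [map_smul, Str.nabD_smul, Str.nabD_smul, map_add, map_smul, map_smul, hx]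

/-- An injective morphism reflects de Rham vectors. -/
theorem mem_D_of_map (hF : IsHom S S F) (hM : IsSub S M) (hinj : ∀ x ∈ S.cx M, F x = 0 → x = 0)
    {x : S.W} (hx : x ∈ S.cx M) (h : F x ∈ S.D) : x ∈ S.D := by
  apply S.mem_D_of_nabD
  intro δ
  apply hinj
  · have h1 := hM.deRham hx
    clear h
    induction h1 using Submodule.span_induction with
    | mem y hy =>
      rw [S.nabD_D δ hy.1]
      exact zero_mem _
    | zero =>
      rw [map_zero]
      exact zero_mem _
    | add y z hy hz ihy ihz =>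
      have e1 : Submodule.span ℂ {x | x ∈ S.D ∧ x ∈ S.cx M} ≤ S.cx M := by
        rw [Submodule.span_le]
        exact fun x hx => hx.2
      rw [map_add]
      exact add_mem (ihy (e1 hy)) (ihz (e1 hz))
    | smul c y hy ihy =>
      have e1 : Submodule.span ℂ {x | x ∈ S.D ∧ x ∈ S.cx M} ≤ S.cx M := by
        rw [Submodule.span_le]
        exact fun x hx => hx.2
      rw [S.nabD_smul]
      exact add_mem ((S.cx M).smul_mem _ (e1 hy)) ((S.cx M).smul_mem _ (ihy (e1 hy)))
  · rw [← map_nabD hF, S.nabD_D δ h]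

/-- An injective morphism reflects Hodge types. -/
theorem mem_hodge_of_map (hF : IsHom S S F) (hM : IsSub S M)
    (hinj : ∀ x ∈ S.cx M, F x = 0 → x = 0) {x : S.W} (hx : x ∈ S.cx M) {p : ℕ}
    (h : F x ∈ S.hodge p) : x ∈ S.hodge p := by
  classical
  obtain ⟨u, hu1, hu2, hxu⟩ := hodge_comp hM.hodge hx
  have hind := S.hodge_internal.submodule_iSupIndep
  have h1 : ∀ q ∈ Finset.range (S.wt + 1), q ≠ p → u q = 0 := by
    intro q hq hqp
    apply hinj _ (hu1 q)
    by_contra hne
    -- the component of type q of F x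
    have h2 : F (u q) = F x - ∑ r ∈ (Finset.range (S.wt + 1)).erase q, F (u r) := by
      rw [hxu, map_sum, ← Finset.add_sum_erase _ _ hq]
      abel
    have h3 : F (u q) ∈ ⨆ (r) (_ : r ≠ q), S.hodge r := by
      rw [h2]
      refine sub_mem ?_ (Submodule.sum_mem _ fun r hr => ?_)
      · exact Submodule.mem_iSup_of_mem p (Submodule.mem_iSup_of_mem (Ne.symm hqp) h)
      · exact Submodule.mem_iSup_of_mem r (Submodule.mem_iSup_of_mem (Finset.ne_of_mem_erase hr)
          (hF.hodge r _ (hu2 r)))
    exact hne (Submodule.disjoint_def.1 (hind q) _ (hF.hodge q _ (hu2 q)) h3)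
  rw [hxu]
  refine Submodule.sum_mem _ fun q hq => ?_
  by_cases hqp : q = p
  · rw [← hqp]
    exact hu2 q
  · rw [h1 q hq hqp]
    exact zero_mem _

variable {K : Type} [Field K] (ι : K →+* Module.End ℂ (S.cx M))

/-- Transport of a multiplication along an isomorphism of substructures. -/
theorem transport (hF : IsHom S S F) (hM : IsSub S M)
    (hinj : ∀ x ∈ S.cx M, F x = 0 → x = 0) (himg : imgQ F M = M') :
    ∃ ι' : K →+* Module.End ℂ (S.cx M'),
      (∀ τ z, IsDetPeriod ι τ z → IsDetPeriod ι' τ z) ∧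
      (∀ τ, detType ι' τ = detType ι τ) ∧ (IsCentral ι → IsCentral ι') := by
  classical
  have hcx : (S.cx M).map F = S.cx M' := by rw [← cx_imgQ, himg]
  let F0 : S.cx M →ₗ[ℂ] S.cx M' := F.restrict (p := S.cx M) (q := S.cx M') (fun x hx => by
    rw [← hcx]
    exact Submodule.mem_map_of_mem hx)
  have hF0 : ∀ x : S.cx M, (F0 x : S.W) = F x := fun _ => rfl
  have hF0i : Function.Injective F0 := by
    rw [injective_iff_map_eq_zero]
    intro x hx
    apply Subtype.ext
    exact hinj x x.2 (by rw [← hF0, hx]; rfl)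
  have hF0s : Function.Surjective F0 := by
    intro y
    have h1 : (y : S.W) ∈ (S.cx M).map F := by
      rw [hcx]
      exact y.2
    obtain ⟨x, hx, hxy⟩ := h1
    exact ⟨⟨x, hx⟩, Subtype.ext hxy⟩
  let T : S.cx M ≃ₗ[ℂ] S.cx M' := LinearEquiv.ofBijective F0 ⟨hF0i, hF0s⟩
  have hT : ∀ x : S.cx M, (T x : S.W) = F x := fun _ => rfl
  let ι' : K →+* Module.End ℂ (S.cx M') := (T.conjRingEquiv : _ →+* _).comp ι
  have hι' : ∀ a y, ι' a y = T (ι a (T.symm y)) := fun _ _ => rfl
  have hι'T : ∀ a x, ι' a (T x) = T (ι a x) := fun a x => by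
    rw [hι', LinearEquiv.symm_apply_apply]
  -- eigenspaces
  have heig : ∀ τ (x : S.cx M), (T x : S.W) ∈ eig ι' τ ↔ (x : S.W) ∈ eig ι τ := by
    intro τ x
    rw [coe_mem_eig, coe_mem_eig]
    refine forall_congr' fun a => ?_
    rw [hι'T, ← map_smul]
    exact T.injective.eq_iff
  have heigm : ∀ τ, (eig ι τ).map F = eig ι' τ := by
    intro τ
    ext y
    constructor
    · rintro ⟨x, hx, rfl⟩
      have h1 : x ∈ S.cx M := eig_le ι τ hx
      exact (heig τ ⟨x, h1⟩).2 hx
    · intro hy
      have h1 : y ∈ S.cx M' := eig_le ι' τ hy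
      refine ⟨T.symm ⟨y, h1⟩, ?_, ?_⟩
      · apply (heig τ _).1
        rw [LinearEquiv.apply_symm_apply]
        exact hy
      · rw [← hT, LinearEquiv.apply_symm_apply]
  have hM'F : ∀ y : S.cx M', (y : S.W) ∈ M' → (T.symm y : S.W) ∈ M := by
    intro y hy
    obtain ⟨x, hx, hxy⟩ := himg.ge hy
    have h1 : T ⟨x, Submodule.subset_span hx⟩ = y := Subtype.ext hxy
    rw [← h1, LinearEquiv.symm_apply_apply]
    exact hx
  have hTM : ∀ x : S.cx M, (x : S.W) ∈ M → (T x : S.W) ∈ M' := by
    intro x hx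
    exact himg.le ⟨x, hx, rfl⟩
  have hTD : ∀ y : S.cx M', (y : S.W) ∈ S.D → (T.symm y : S.W) ∈ S.D := by
    intro y hy
    apply mem_D_of_map hF hM hinj (T.symm y).2
    rw [← hT, LinearEquiv.apply_symm_apply]
    exact hy
  have hTH : ∀ (p : ℕ) (y : S.cx M'), (y : S.W) ∈ S.hodge p → (T.symm y : S.W) ∈ S.hodge p := by
    intro p y hy
    apply mem_hodge_of_map hF hM hinj (T.symm y).2
    rw [← hT, LinearEquiv.apply_symm_apply]
    exact hy
  refine ⟨ι', ?_, ?_, ?_⟩
  · -- periods
    rintro τ z ⟨n, v, ω, Φ, hv, hvs, hω, hωs, hvB, hωD, hΦ, rfl⟩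
    have hle : ∀ {k : ℕ} (x : Fin k → S.W), Submodule.span ℂ (Set.range x) = eig ι τ →
        ∀ j, x j ∈ S.cx M := by
      intro k x hx j
      apply eig_le ι τ
      rw [← hx]
      exact Submodule.subset_span ⟨j, rfl⟩
    have hlin : ∀ {k : ℕ} (x : Fin k → S.W), LinearIndependent ℂ x → (∀ j, x j ∈ S.cx M) →
        LinearIndependent ℂ (fun j => F (x j)) := by
      intro k x hx hxm
      rw [Fintype.linearIndependent_iff] at hx ⊢
      intro g hg
      apply hx g
      apply hinj
      · exact Submodule.sum_mem _ fun j _ => Submodule.smul_mem _ _ (hxm j)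
      · rw [map_sum, ← hg]
        exact Finset.sum_congr rfl fun j _ => map_smul _ _ _
    have hspan : ∀ {k : ℕ} (x : Fin k → S.W), Submodule.span ℂ (Set.range x) = eig ι τ →
        Submodule.span ℂ (Set.range fun j => F (x j)) = eig ι' τ := by
      intro k x hx
      rw [← heigm, ← hx, Submodule.map_span, ← Set.range_comp]
      rfl
    refine ⟨n, fun j => F (v j), fun j => F (ω j), Φ, hlin v hv (hle v hvs), hspan v hvs,
      hlin ω hω (hle ω hωs), hspan ω hωs, ?_, fun j => hF.deRham _ (hωD j), ?_, rfl⟩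
    · intro j
      have h1 : ∀ w ∈ Submodule.span Qbar (M : Set S.W),
          F w ∈ Submodule.span Qbar (M' : Set S.W) := by
        intro w hw
        induction hw using Submodule.span_induction with
        | mem x hx => exact Submodule.subset_span (himg.le ⟨x, hx, rfl⟩)
        | zero =>
          rw [map_zero]
          exact zero_mem _
        | add x y _ _ hx hy =>
          rw [map_add]
          exact add_mem hx hy
        | smul c x _ hx =>
          rw [Qbar_smul, map_smul]
          exact Submodule.smul_mem _ c hx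
      exact h1 _ (hvB j)
    · intro i
      change F (ω i) = ∑ j, Φ i j • F (v j)
      rw [hΦ i, map_sum]
      exact Finset.sum_congr rfl fun j _ => map_smul _ _ _
  · -- types
    intro τ
    unfold detType
    refine Finset.sum_congr rfl fun p _ => ?_
    congr 1
    have h1 : (eig ι' τ ⊓ S.hodge p : Submodule ℂ S.W) =
        (eig ι τ ⊓ S.hodge p : Submodule ℂ S.W).map F := by
      ext y
      constructor
      · rintro ⟨hy1, hy2⟩
        have h1 : y ∈ S.cx M' := eig_le ι' τ hy1
        refine ⟨T.symm ⟨y, h1⟩, ⟨?_, hTH p _ hy2⟩, ?_⟩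
        · apply (heig τ _).1
          rw [LinearEquiv.apply_symm_apply]
          exact hy1
        · rw [← hT, LinearEquiv.apply_symm_apply]
      · rintro ⟨x, ⟨hx1, hx2⟩, rfl⟩
        refine ⟨?_, hF.hodge p _ hx2⟩
        rw [← heigm]
        exact Submodule.mem_map_of_mem hx1
    rw [h1, ← LinearMap.range_domRestrict]
    apply LinearMap.finrank_range_of_inj
    rw [injective_iff_map_eq_zero]
    rintro ⟨x, hx⟩ h0
    apply Subtype.ext
    exact hinj x (eig_le ι τ hx.1) h0
  · -- centrality
    intro hc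
    refine ⟨fun a => ⟨fun y hy => ?_, fun y hy => ?_, fun p y hy => ?_⟩, fun f hf a => ?_⟩
    · rw [hι']
      exact hTM _ ((hc.isEnd a).betti _ (hM'F y hy))
    · rw [hι', hT]
      exact hF.deRham _ ((hc.isEnd a).deRham _ (hTD y hy))
    · rw [hι', hT]
      exact hF.hodge p _ ((hc.isEnd a).hodge p _ (hTH p y hy))
    · let g : Module.End ℂ (S.cx M) := T.symm.toLinearMap ∘ₗ f ∘ₗ T.toLinearMap
      have hg : ∀ x, g x = T.symm (f (T x)) := fun _ => rfl
      have hgE : IsEnd S M g := by
        refine ⟨fun x hx => ?_, fun x hx => ?_, fun p x hx => ?_⟩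
        · rw [hg]
          exact hM'F _ (hf.betti _ (hTM x hx))
        · rw [hg]
          exact hTD _ (hf.deRham _ (hF.deRham _ hx))
        · rw [hg]
          exact hTH p _ (hf.hodge p _ (hF.hodge p _ hx))
      have h1 := hc.comm g hgE a
      ext y
      have h2 := congrArg (fun t : Module.End ℂ (S.cx M) => T (t (T.symm y))) h1
      simp only [Module.End.mul_apply, hg, LinearEquiv.apply_symm_apply] at h2
      simp only [Module.End.mul_apply, hι', h2]

end transport

end GD.DT
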