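import Pool.Agent.H27.GD.RkOne
import Pool.Agent.H44.GD.LegD

/-!
# The determinant of a substructure with multiplication
-/

set_option autoImplicit false

noncomputable section

namespace GD.DT

open Complex GD NumberField Module

variable {S : Str} {M : Submodule ℚ S.W} {L : Type} [Field L] [NumberField L]
  (ι : L →+* Module.End ℂ (S.cx M))

/-- The space `M` as a vector space over `L`. -/
@[reducible] def modL (hι : ∀ a, IsEnd S M (ι a)) : Module L M where
  smul a x := ⟨(ι a ⟨x, Submodule.subset_span x.2⟩ : S.W), (hι a).betti _ x.2⟩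
  one_smul x := by
    apply Subtype.ext
    change (ι 1 ⟨x, Submodule.subset_span x.2⟩ : S.W) = x
    rw [map_one]
    rfl
  mul_smul a b x := by
    apply Subtype.ext
    change (ι (a * b) ⟨x, Submodule.subset_span x.2⟩ : S.W) =
      (ι a (ι b ⟨x, Submodule.subset_span x.2⟩) : S.W)
    rw [map_mul]
    rfl
  smul_zero a := by
    apply Subtype.ext
    change (ι a 0 : S.W) = 0
    rw [map_zero]
    rfl
  smul_add a x y := by
    apply Subtype.ext
    change (ι a (⟨x, Submodule.subset_span x.2⟩ + ⟨y, Submodule.subset_span y.2⟩) : S.W) =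
      (ι a ⟨x, Submodule.subset_span x.2⟩ : S.W) + (ι a ⟨y, Submodule.subset_span y.2⟩ : S.W)
    rw [map_add]
    rfl
  add_smul a b x := by
    apply Subtype.ext
    change (ι (a + b) ⟨x, Submodule.subset_span x.2⟩ : S.W) =
      (ι a ⟨x, Submodule.subset_span x.2⟩ : S.W) + (ι b ⟨x, Submodule.subset_span x.2⟩ : S.W)
    rw [map_add]
    rfl
  zero_smul x := by
    apply Subtype.ext
    change (ι 0 ⟨x, Submodule.subset_span x.2⟩ : S.W) = 0
    rw [map_zero]
    rfl

/-- A basis of `M` over `L`. -/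
theorem exists_Lbasis (hM : M ≤ S.B) (hι : ∀ a, IsEnd S M (ι a)) :
    ∃ (n : ℕ) (m : Fin n → S.cx M), (∀ j, (m j : S.W) ∈ M) ∧
      (∀ x : S.cx M, (x : S.W) ∈ M → ∃ a : Fin n → L, x = ∑ j, ι (a j) (m j)) ∧
      LinearIndependent ℂ (fun s : Fin (finrank ℚ L) × Fin n => ι (bas L s.1) (m s.2)) := by
  let _ := modL ι hι
  have hfin := finite_sub hM
  have htow : IsScalarTower ℚ L M := by
    refine ⟨fun q a x => ?_⟩
    apply Subtype.ext
    change (ι (q • a) ⟨x, Submodule.subset_span x.2⟩ : S.W) =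
      q • (ι a ⟨x, Submodule.subset_span x.2⟩ : S.W)
    rw [iota_rat, ratC_smul]
    rfl
  have hfinL : Module.Finite L M := Module.Finite.of_restrictScalars_finite ℚ L M
  let b := Module.finBasis L M
  have hsm : ∀ (a : L) (x : M), ((a • x : M) : S.W) =
      (ι a ⟨x, Submodule.subset_span x.2⟩ : S.W) := fun _ _ => rfl
  refine ⟨finrank L M, fun j => ⟨(b j : S.W), Submodule.subset_span (b j).2⟩,
    fun j => (b j).2, ?_, ?_⟩
  · intro x hx
    refine ⟨fun j => b.repr ⟨x, hx⟩ j, ?_⟩
    apply Subtype.ext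
    have h1 := congrArg (fun y : M => (y : S.W)) (b.sum_repr ⟨x, hx⟩)
    simp only [AddSubmonoidClass.coe_finsetSum, hsm] at h1
    rw [AddSubmonoidClass.coe_finsetSum]
    exact h1.symm
  · let B := (bas L).smulTower b
    have hB : ∀ s, ((B s : M) : S.W) = (ι (bas L s.1) ⟨(b s.2 : S.W),
        Submodule.subset_span (b s.2).2⟩ : S.W) := by
      intro s
      rw [Module.Basis.smulTower_apply]
      exact hsm _ _
    have h1 : LinearIndependent ℚ (fun s => ((B s : M) : S.W)) :=
      B.linearIndependent.map' M.subtype (Submodule.ker_subtype M)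
    have h2 := form_lin S.B S.B_form _ (fun s => hM (B s).2) h1
    have h3 : (fun s => ((B s : M) : S.W)) = (S.cx M).subtype ∘
        (fun s : Fin (finrank ℚ L) × Fin (finrank L M) => ι (bas L s.1) ⟨(b s.2 : S.W),
        Submodule.subset_span (b s.2).2⟩) := by
      funext s
      exact hB s
    rw [h3] at h2
    exact LinearIndependent.of_comp _ h2

theorem prj_comm (τ : L →+* ℂ) (a : L) (x : S.cx M) :
    prj ι τ (ι a x) = τ a • prj ι τ x := by
  rw [← prj_mem, prj_apply, prj_apply, map_sum]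
  refine Finset.sum_congr rfl fun i _ => ?_
  rw [map_smul]
  congr 1
  have : ι (bas L i) * ι a = ι a * ι (bas L i) := by
    rw [← map_mul, ← map_mul, mul_comm]
  exact LinearMap.congr_fun this x

section basis

variable {n : ℕ} {m : Fin n → S.cx M}
  (hm : ∀ x : S.cx M, (x : S.W) ∈ M → ∃ a : Fin n → L, x = ∑ j, ι (a j) (m j))
  (hlin : LinearIndependent ℂ (fun s : Fin (finrank ℚ L) × Fin n => ι (bas L s.1) (m s.2)))

include hlin in
theorem prj_lin (τ : L →+* ℂ) : LinearIndependent ℂ (fun j => prj ι τ (m j)) := by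
  rw [Fintype.linearIndependent_iff]
  intro c hc j
  have h1 : ∑ s : Fin (finrank ℚ L) × Fin n, (c s.2 * τ (bad L s.1)) •
      ι (bas L s.1) (m s.2) = 0 := by
    rw [← hc, Fintype.sum_prod_type, Finset.sum_comm]
    refine Finset.sum_congr rfl fun j _ => ?_
    rw [prj_apply, Finset.smul_sum]
    exact Finset.sum_congr rfl fun i _ => by rw [smul_smul]
  have h2 := Fintype.linearIndependent_iff.1 hlin _ h1
  have hpos : 0 < finrank ℚ L := finrank_pos
  have h3 := h2 (⟨0, hpos⟩, j)
  have h4 : τ (bad L ⟨0, hpos⟩) ≠ 0 := (map_ne_zero τ).2 ((bad L).ne_zero _)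
  exact (mul_eq_zero.1 h3).resolve_right h4

include hm in
theorem prj_span (τ : L →+* ℂ) (x : S.cx M) :
    prj ι τ x ∈ Submodule.span ℂ (Set.range fun j => prj ι τ (m j)) := by
  have h1 : ∀ (w : S.W) (h : w ∈ S.cx M), prj ι τ ⟨w, h⟩ ∈
      Submodule.span ℂ (Set.range fun j => prj ι τ (m j)) := by
    intro w h
    induction h using Submodule.span_induction with
    | mem y hy =>
      obtain ⟨a, ha⟩ := hm ⟨y, Submodule.subset_span hy⟩ hy
      rw [ha, map_sum]
      refine Submodule.sum_mem _ fun j _ => ?_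
      rw [prj_comm]
      exact Submodule.smul_mem _ _ (Submodule.subset_span ⟨j, rfl⟩)
    | zero =>
      have : (⟨0, zero_mem _⟩ : S.cx M) = 0 := rfl
      rw [this, map_zero]
      exact zero_mem _
    | add y y' hy hy' ih ih' =>
      have : (⟨y + y', add_mem hy hy'⟩ : S.cx M) = ⟨y, hy⟩ + ⟨y', hy'⟩ := rfl
      rw [this, map_add]
      exact add_mem ih ih'
    | smul c y hy ih =>
      have : (⟨c • y, Submodule.smul_mem _ c hy⟩ : S.cx M) = c • ⟨y, hy⟩ := rfl
      rw [this, map_smul]
      exact Submodule.smul_mem _ c ih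
  exact h1 x x.2

/-- The basis `prj τ (m j)` of the span. -/
def bsp (τ : L →+* ℂ) (hl : LinearIndependent ℂ (fun j => prj ι τ (m j))) :
    Module.Basis (Fin n) ℂ (Submodule.span ℂ (Set.range fun j => prj ι τ (m j))) :=
  Module.Basis.span hl

include hm hlin in
/-- Coordinates of the projections. -/
theorem exists_q (τ : L →+* ℂ) : ∃ q : S.cx M →ₗ[ℂ] (Fin n → ℂ),
    ∀ x, prj ι τ x = ∑ j, q x j • prj ι τ (m j) := by
  let b := bsp ι τ (prj_lin ι hlin τ)
  let P : S.cx M →ₗ[ℂ] Submodule.span ℂ (Set.range fun j => prj ι τ (m j)) :=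
    (prj ι τ).codRestrict _ (prj_span ι hm τ)
  refine ⟨b.equivFun.toLinearMap ∘ₗ P, fun x => ?_⟩
  have h1 := congrArg Subtype.val (b.sum_equivFun (P x))
  rw [AddSubmonoidClass.coe_finsetSum] at h1
  have h2 : ((P x : _) : S.cx M) = prj ι τ x := rfl
  rw [h2] at h1
  rw [← h1]
  refine Finset.sum_congr rfl fun j _ => ?_
  rw [Submodule.coe_smul]
  congr 1
  exact (congrArg Subtype.val (Module.Basis.span_apply (prj_lin ι hlin τ) j))

include hlin in
theorem q_unique (τ : L →+* ℂ) {a b : Fin n → ℂ}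
    (h : ∑ j, a j • prj ι τ (m j) = ∑ j, b j • prj ι τ (m j)) : a = b := by
  have h1 : ∑ j, (a j - b j) • prj ι τ (m j) = 0 := by
    simp only [sub_smul, Finset.sum_sub_distrib]
    rw [h, sub_self]
  funext j
  exact sub_eq_zero.1 (Fintype.linearIndependent_iff.1 (prj_lin ι hlin τ) _ h1 j)

end basis

/-- De Rham vectors in the span of independent de Rham vectors have algebraic coordinates. -/
theorem dR_coord {n : ℕ} {ω : Fin n → S.W} (hω : LinearIndependent ℂ ω) (hωD : ∀ j, ω j ∈ S.D)
    {a : Fin n → ℂ} (h : ∑ j, a j • ω j ∈ S.D) : ∀ j, ∃ x : Qbar, a j = x := by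
  intro j
  have h1 : a j ∈ Qbar := by
    rw [mem_algebraicClosure_iff]
    apply isAlgebraic_of_der
    intro δ
    have h2 := S.nabD_D δ h
    rw [map_sum] at h2
    have h3 : ∑ j, δ (a j) • ω j = 0 := by
      rw [← h2]
      refine Finset.sum_congr rfl fun j _ => ?_
      rw [S.nabD_smul, S.nabD_D δ (hωD j), smul_zero, add_zero]
    exact Fintype.linearIndependent_iff.1 hω _ h3 j
  exact ⟨⟨a j, h1⟩, rfl⟩

/-- The determinant structure and the multilinear map onto it. -/
theorem exists_det (P : Pol S) (hM : IsSub S M) (hι : ∀ a, IsEnd S M (ι a)) (hne : M ≠ ⊥) :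
    ∃ (k : ℕ) (r : RkOne L) (f : MultilinearMap ℂ (fun _ : Fin (k + 1) => S.W) r.str.W),
      (∀ τ, IsDetPeriod ι τ (r.c τ)) ∧ (∀ τ, r.p τ = detType ι τ) ∧
      r.wt = (k + 1) * S.wt ∧
      (∀ x, (∀ i, x i ∈ S.B) → f x ∈ r.str.B) ∧ (∀ x, (∀ i, x i ∈ S.D) → f x ∈ r.str.D) ∧
      (∀ (p : Fin (k + 1) → ℕ) x, (∀ i, x i ∈ S.hodge (p i)) → f x ∈ r.str.hodge (∑ i, p i)) ∧
      Submodule.span ℂ (Set.range f) = ⊤ := by
  classical
  obtain ⟨n, m, hmM, hm, hlin⟩ := exists_Lbasis ι hM.le hι
  obtain ⟨p0, hp0, hp1, hp2⟩ := exists_proj P hM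
  -- the rank is positive
  have hn : n ≠ 0 := by
    rintro rfl
    apply hne
    rw [Submodule.eq_bot_iff]
    intro x hx
    obtain ⟨a, ha⟩ := hm ⟨x, Submodule.subset_span hx⟩ hx
    have := congrArg Subtype.val ha
    simpa using this
  obtain ⟨k, rfl⟩ := Nat.exists_eq_succ_of_ne_zero hn
  -- eigenspaces
  have heig : ∀ τ : L →+* ℂ, Submodule.span ℂ (Set.range fun j => (prj ι τ (m j) : S.W)) =
      eig ι τ := by
    intro τ
    apply le_antisymm
    · rw [Submodule.span_le]
      rintro _ ⟨j, rfl⟩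
      exact prj_mem_eig ι τ _
    · intro w hw
      have hw1 : w ∈ S.cx M := eig_le ι τ hw
      have h1 := prj_span ι hm τ ⟨w, hw1⟩
      have h2 : prj ι τ ⟨w, hw1⟩ = ⟨w, hw1⟩ := by
        have := prj_of_eig ι τ τ (x := ⟨w, hw1⟩) hw
        rw [if_pos rfl] at this
        exact this
      rw [h2] at h1
      have h3 := Submodule.mem_map_of_mem (f := (S.cx M).subtype) h1
      rw [Submodule.map_span, ← Set.range_comp] at h3
      exact h3
  have hvlin : ∀ τ : L →+* ℂ, LinearIndependent ℂ (fun j => (prj ι τ (m j) : S.W)) := fun τ =>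
    (prj_lin ι hlin τ).map' (S.cx M).subtype (Submodule.ker_subtype _)
  have hfr : ∀ τ : L →+* ℂ, finrank ℂ (eig ι τ) = k + 1 := by
    intro τ
    rw [← heig τ, finrank_span_eq_card (hvlin τ), Fintype.card_fin]
  have hcoe : ∀ (τ : L →+* ℂ) (x : S.cx M),
      (prj ι τ x : S.W) = ∑ i, τ (bad L i) • (ι (bas L i) x : S.W) := by
    intro τ x
    rw [prj_apply, AddSubmonoidClass.coe_finsetSum]
    rfl
  have halg : ∀ (τ : L →+* ℂ) i, τ (bad L i) ∈ Qbar := fun τ i =>
    mem_algebraicClosure_iff.2 (emb_alg L τ _)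
  -- de Rham bases
  have hω : ∀ τ : L →+* ℂ, ∃ ω : Fin (k + 1) → S.W, LinearIndependent ℂ ω ∧
      Submodule.span ℂ (Set.range ω) = eig ι τ ∧ ∀ j, ω j ∈ S.D := by
    intro τ
    obtain ⟨ω, h1, h2, h3⟩ := exists_basis_in ι (S.D : Set S.W)
      (hM.deRham.trans (Submodule.span_mono fun x hx => hx)) τ (by
        intro x hx
        rw [hcoe]
        exact Submodule.sum_mem _ fun i _ =>
          S.D.smul_mem (⟨_, halg τ i⟩ : Qbar) ((hι _).deRham x hx))
    let e : Fin (k + 1) ≃ Fin (finrank ℂ (eig ι τ)) := finCongr (hfr τ).symm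
    refine ⟨ω ∘ e, h1.comp _ e.injective, ?_, fun j => h3 _⟩
    rw [e.surjective.range_comp, h2]
  choose ω hωlin hωspan hωD using hω
  have hΦ : ∀ τ i, ∃ c : Fin (k + 1) → ℂ, ∑ j, c j • (prj ι τ (m j) : S.W) = ω τ i := by
    intro τ i
    apply (Submodule.mem_span_range_iff_exists_fun ℂ).1
    rw [heig τ, ← hωspan τ]
    exact Submodule.subset_span ⟨i, rfl⟩
  choose Φ hΦ using hΦ
  have hvbar : ∀ τ j, (prj ι τ (m j) : S.W) ∈ Submodule.span Qbar (M : Set S.W) := by
    intro τ j
    rw [hcoe]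
    refine Submodule.sum_mem _ fun i _ => ?_
    exact Submodule.smul_mem _ (⟨_, halg τ i⟩ : Qbar)
      (Submodule.subset_span ((hι _).betti _ (hmM j)))
  have hper : ∀ τ, IsDetPeriod ι τ (Matrix.det (Φ τ)) := fun τ =>
    ⟨k + 1, fun j => (prj ι τ (m j) : S.W), ω τ, Φ τ, hvlin τ, heig τ, hωlin τ, hωspan τ,
      hvbar τ, hωD τ, fun i => (hΦ τ i).symm, rfl⟩
  let r : RkOne L :=
    { wt := (k + 1) * S.wt
      c := fun τ => Matrix.det (Φ τ)
      p := detType ι
      c_ne := fun τ => (detPeriod_trace ι hM.le (hper τ)).1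
      p_add := fun τ => by rw [leg_type ι P hM hι τ, hfr τ] }
  choose q hq using fun τ => exists_q ι hm hlin τ
  let p' : S.W →ₗ[ℂ] S.cx M := p0.codRestrict _ hp2
  have hp' : ∀ w, ((p' w : S.cx M) : S.W) = p0 w := fun w => rfl
  let f : MultilinearMap ℂ (fun _ : Fin (k + 1) => S.W) ((L →+* ℂ) → ℂ) :=
    MultilinearMap.pi fun τ =>
      (Matrix.detRowAlternating (n := Fin (k + 1)) (R := ℂ)).toMultilinearMap.compLinearMap
        (fun _ => q τ ∘ₗ p')
  have hf : ∀ w τ, f w τ = Matrix.det (Matrix.of fun i j => q τ (p' (w i)) j) := fun w τ => rfl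
  refine ⟨k, r, f, hper, fun τ => rfl, rfl, ?_, ?_, ?_, ?_⟩
  · -- Betti
    intro w hw
    have h1 : ∀ i, ∃ a : Fin (k + 1) → L, p' (w i) = ∑ j, ι (a j) (m j) := by
      intro i
      apply hm
      rw [hp']
      exact mem_of_cx hM.le (hp2 _) (hp0.betti _ (hw i))
    choose a ha using h1
    refine ⟨Matrix.det (Matrix.of a), fun τ => ?_⟩
    refine (hf w τ).trans ?_
    rw [RingHom.map_det]
    congr 1
    ext i j
    have h2 : q τ (p' (w i)) = fun j => τ (a i j) := by
      apply q_unique ι hlin τ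
      rw [← hq, ha i, map_sum]
      exact Finset.sum_congr rfl fun j _ => prj_comm ι τ _ _
    rw [Matrix.of_apply, h2]
    rfl
  · -- de Rham
    intro w hw τ
    have h1 : ∀ i, ∃ A : Fin (k + 1) → Qbar, q τ (p' (w i)) = fun j => ∑ l, (A l : ℂ) * Φ τ l j := by
      intro i
      have h2 : (prj ι τ (p' (w i)) : S.W) ∈ S.D := by
        rw [hcoe]
        exact Submodule.sum_mem _ fun i' _ => S.D.smul_mem (⟨_, halg τ i'⟩ : Qbar)
          ((hι _).deRham _ (hp0.deRham _ (hw i)))
      have h3 : (prj ι τ (p' (w i)) : S.W) ∈ Submodule.span ℂ (Set.range (ω τ)) := by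
        rw [hωspan]
        exact prj_mem_eig ι τ _
      obtain ⟨α, hα⟩ := (Submodule.mem_span_range_iff_exists_fun ℂ).1 h3
      rw [← hα] at h2
      choose A hA using dR_coord (hωlin τ) (hωD τ) h2
      refine ⟨A, ?_⟩
      apply q_unique ι hlin τ
      rw [← hq]
      apply Subtype.ext
      rw [← hα, AddSubmonoidClass.coe_finsetSum]
      have h4 : ∀ l, α l • ω τ l = ∑ j, ((A l : ℂ) * Φ τ l j) • (prj ι τ (m j) : S.W) := by
        intro l
        rw [← hΦ τ l, hA l, Finset.smul_sum]
        exact Finset.sum_congr rfl fun j _ => by rw [smul_smul]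
      rw [Finset.sum_congr rfl fun l _ => h4 l, Finset.sum_comm]
      refine Finset.sum_congr rfl fun j _ => ?_
      rw [Submodule.coe_smul, Finset.sum_smul]
    choose A hA using h1
    refine ⟨Matrix.det (Matrix.of A), (hf w τ).trans ?_⟩
    have h2 : (Matrix.of fun i j => q τ (p' (w i)) j) =
        (algebraMap Qbar ℂ).mapMatrix (Matrix.of A) * Matrix.of (Φ τ) := by
      ext i j
      rw [Matrix.of_apply, hA i, Matrix.mul_apply]
      rfl
    rw [h2, Matrix.det_mul, ← RingHom.map_det]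
    rfl
  · -- Hodge
    intro p w hw τ hτ
    by_contra hdet0
    have hdet : Matrix.det (Matrix.of fun i j => q τ (p' (w i)) j) ≠ 0 := fun h =>
      hdet0 ((hf w τ).trans h)
    apply hτ
    have hx1 : ∀ i, (prj ι τ (p' (w i)) : S.W) ∈ eig ι τ := fun i => prj_mem_eig ι τ _
    have hx2 : ∀ i, (prj ι τ (p' (w i)) : S.W) ∈ S.hodge (p i) := by
      intro i
      rw [hcoe]
      exact Submodule.sum_mem _ fun i' _ => Submodule.smul_mem _ _
        ((hι _).hodge _ _ (hp0.hodge _ _ (hw i)))
    let x : Fin (k + 1) → eig ι τ := fun i => ⟨_, hx1 i⟩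
    have hxlin : LinearIndependent ℂ x := by
      have h1 : LinearIndependent ℂ (fun i => prj ι τ (p' (w i))) := by
        rw [Fintype.linearIndependent_iff]
        intro c hc
        have h2 : ∑ j, (∑ i, c i * q τ (p' (w i)) j) • prj ι τ (m j) =
            ∑ j, (0 : Fin (k + 1) → ℂ) j • prj ι τ (m j) := by
          have h3 : ∀ i, c i • prj ι τ (p' (w i)) =
              ∑ j, (c i * q τ (p' (w i)) j) • prj ι τ (m j) := by
            intro i
            conv_lhs => rw [hq, Finset.smul_sum]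
            exact Finset.sum_congr rfl fun j _ => by rw [smul_smul]
          rw [Finset.sum_congr rfl fun i _ => h3 i, Finset.sum_comm] at hc
          simp only [← Finset.sum_smul] at hc
          rw [hc]
          simp
        have h3 := q_unique ι hlin τ h2
        have h4 : Matrix.vecMul c (Matrix.of fun i j => q τ (p' (w i)) j) = 0 := by
          funext j
          have h5 := congrFun h3 j
          rw [Matrix.vecMul, dotProduct]
          exact h5
        intro i
        exact congrFun (Matrix.eq_zero_of_vecMul_eq_zero hdet h4) i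
      have h2 := h1.map' (S.cx M).subtype (Submodule.ker_subtype _)
      have h3 : (eig ι τ).subtype ∘ x = (S.cx M).subtype ∘ fun i => prj ι τ (p' (w i)) := rfl
      rw [← h3] at h2
      exact LinearIndependent.of_comp _ h2
    let b : Module.Basis (Fin (k + 1)) ℂ (eig ι τ) :=
      basisOfLinearIndependentOfCardEqFinrank hxlin (by rw [Fintype.card_fin, hfr τ])
    have hb : ∀ i, b i = x i := fun i => by simp [b]
    have hst : ∀ y ∈ eig ι τ, hOp S y ∈ eig ι τ :=
      eig_stable ι (hOp S) (nat_cx P hM isNat_hOp) (fun a y => nat_end P hM isNat_hOp (hι a) y) τ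
    have h1 := trOn_hOp_eig ι hM hι τ
    rw [trOn_of_stable hst, LinearMap.trace_eq_matrix_trace ℂ b, Matrix.trace] at h1
    have h2 : ∀ i, ((hOp S).restrict hst) (b i) = (p i : ℂ) • b i := by
      intro i
      apply Subtype.ext
      rw [LinearMap.coe_restrict_apply, hb, Submodule.coe_smul]
      exact hodgeEnd_apply S _ (p i) _ (hx2 i)
    have h3 : ∑ i, ((p i : ℕ) : ℂ) = (detType ι τ : ℂ) := by
      rw [← h1]
      refine Finset.sum_congr rfl fun i _ => ?_
      rw [Matrix.diag_apply, LinearMap.toMatrix_apply, h2, map_smul]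
      simp
    change detType ι τ = ∑ i, p i
    exact_mod_cast h3.symm
  · -- spanning
    rw [eq_top_iff]
    intro y _
    have h1 : (y : (L →+* ℂ) → ℂ) = ∑ τ, y τ • (Pi.single τ 1 : (L →+* ℂ) → ℂ) := by
      funext σ
      rw [Finset.sum_apply, Finset.sum_eq_single σ]
      · rw [Pi.smul_apply, Pi.single_eq_same, smul_eq_mul, mul_one]
      · intro τ _ hτ
        rw [Pi.smul_apply, Pi.single_eq_of_ne (Ne.symm hτ), smul_zero]
      · intro h
        exact absurd (Finset.mem_univ σ) h
    have h2 : ∀ τ, (Pi.single τ 1 : (L →+* ℂ) → ℂ) ∈ Set.range f := by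
      intro τ
      refine ⟨fun i => (prj ι τ (m i) : S.W), ?_⟩
      funext σ
      refine (hf _ σ).trans ?_
      have h3 : ∀ i, p' (prj ι τ (m i) : S.W) = prj ι τ (m i) := by
        intro i
        apply Subtype.ext
        rw [hp']
        exact hp1 _ (prj ι τ (m i)).2
      have h4 : ∀ i, prj ι σ (prj ι τ (m i)) = if τ = σ then prj ι τ (m i) else 0 :=
        fun i => prj_of_eig ι σ τ (prj_mem_eig ι τ _)
      by_cases h : σ = τ
      · subst h
        rw [Pi.single_eq_same]
        have h5 : (Matrix.of fun i j => q σ (p' (prj ι σ (m i) : S.W)) j) =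
            (1 : Matrix (Fin (k + 1)) (Fin (k + 1)) ℂ) := by
          ext i j
          rw [Matrix.of_apply, h3]
          have h6 : q σ (prj ι σ (m i)) = (1 : Matrix (Fin (k + 1)) (Fin (k + 1)) ℂ) i := by
            apply q_unique ι hlin σ
            rw [← hq, h4, if_pos rfl]
            simp [Matrix.one_apply]
          rw [h6]
        rw [h5, Matrix.det_one]
      · rw [Pi.single_eq_of_ne h]
        have h5 : (Matrix.of fun i j => q σ (p' (prj ι τ (m i) : S.W)) j) =
            (0 : Matrix (Fin (k + 1)) (Fin (k + 1)) ℂ) := by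
          ext i j
          rw [Matrix.of_apply, h3]
          have h6 : q σ (prj ι τ (m i)) = 0 := by
            apply q_unique ι hlin σ
            rw [← hq, h4, if_neg (fun h' => h h'.symm)]
            simp
          rw [h6]
          rfl
        rw [h5, Matrix.det_zero]
    rw [h1]
    exact Submodule.sum_mem _ fun τ _ => Submodule.smul_mem _ _ (Submodule.subset_span (h2 τ))

end GD.DT
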