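import Mathlib

/-!
# GD.Local: the trace of a subconnection at a regular point

`K` a field, `O` a valuation ring of `K`, `res : O →+* k`, `θ` a derivation of `K` which maps `O`
to the kernel of `res`, with `θ f / f ∈ O` of integral residue for all `f ≠ 0`. If a connection
matrix `B` has a gauge `g` with `g B g⁻¹ + θ(g) g⁻¹ = R` over `O` and the eigenvalues of `res R`
are rational, then for every subconnection `θ(c) + c B = H c` (rows of `c` independent) the
trace of `H` lies in `O` and has a rational residue.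
-/

set_option autoImplicit false

open Matrix

namespace H27.GD

section jacobi
variable {K : Type*} [Field K] (θ : Derivation ℤ K K)

theorem map_mul_der {l m n : Type*} [Fintype m] (A : Matrix l m K) (B : Matrix m n K) :
    (A * B).map θ = A.map θ * B + A * B.map θ := by
  ext i j
  simp only [Matrix.map_apply, Matrix.mul_apply, Matrix.add_apply, map_sum, Derivation.leibniz,
    smul_eq_mul]
  rw [← Finset.sum_add_distrib]
  refine Finset.sum_congr rfl fun x _ => ?_
  ring

theorem map_one_der {n : Type*} [DecidableEq n] : (1 : Matrix n n K).map θ = 0 := by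
  ext i j
  rw [Matrix.map_apply, Matrix.one_apply, Matrix.zero_apply]
  split_ifs <;> simp

theorem der_prod {ι : Type*} [DecidableEq ι] (s : Finset ι) (f : ι → K) :
    θ (∏ i ∈ s, f i) = ∑ i ∈ s, (∏ j ∈ s.erase i, f j) * θ (f i) := by
  induction s using Finset.induction_on with
  | empty => rw [Finset.prod_empty, Finset.sum_empty, Derivation.map_one_eq_zero]
  | insert a s ha ih =>
    rw [Finset.prod_insert ha, Derivation.leibniz, ih, Finset.sum_insert ha,
      Finset.erase_insert ha, smul_eq_mul, smul_eq_mul, Finset.mul_sum, add_comm]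
    congr 1
    refine Finset.sum_congr rfl fun i hi => ?_
    have hne : a ≠ i := fun e => ha (e ▸ hi)
    rw [Finset.erase_insert_of_ne hne, Finset.prod_insert (fun h => ha (Finset.mem_of_mem_erase h))]
    ring

/-- Jacobi's formula for a derivation -/
theorem der_det {n : Type*} [Fintype n] [DecidableEq n] (M : Matrix n n K) :
    θ M.det = (M.adjugate * M.map θ).trace := by
  have h1 : θ M.det = ∑ i, (M.updateCol i (fun j => θ (M j i))).det := by
    rw [Matrix.det_apply', map_sum]
    have h2 : ∀ σ : Equiv.Perm n, θ (((Equiv.Perm.sign σ : ℤ) : K) * ∏ i, M (σ i) i) =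
        ∑ i, ((Equiv.Perm.sign σ : ℤ) : K) *
          ∏ j, (M.updateCol i (fun j => θ (M j i))) (σ j) j := by
      intro σ
      rw [Derivation.leibniz, Derivation.map_intCast, smul_zero, add_zero, smul_eq_mul,
        der_prod, Finset.mul_sum]
      refine Finset.sum_congr rfl fun i _ => ?_
      congr 1
      rw [← Finset.prod_erase_mul _ _ (Finset.mem_univ i)]
      congr 1
      · refine Finset.prod_congr rfl fun j hj => ?_
        rw [Matrix.updateCol_ne (Finset.ne_of_mem_erase hj)]
      · rw [Matrix.updateCol_self]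
    rw [Finset.sum_congr rfl fun σ _ => h2 σ, Finset.sum_comm]
    refine Finset.sum_congr rfl fun i _ => ?_
    rw [Matrix.det_apply']
  rw [h1, Matrix.trace]
  refine Finset.sum_congr rfl fun i _ => ?_
  rw [← Matrix.cramer_apply, Matrix.cramer_eq_adjugate_mulVec, Matrix.diag_apply]
  rfl

end jacobi

section minors
variable {K : Type} [Field K] {N n : Type} [Fintype N] [DecidableEq N] [Fintype n] [DecidableEq n]

/-- independent rows: some maximal minor does not vanish -/
theorem exists_minor (c : Matrix n N K) (hc : ∀ v : n → K, v ᵥ* c = 0 → v = 0) :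
    ∃ J : n → N, (c.submatrix id J).det ≠ 0 := by
  have h1 : LinearIndependent K c.row := by
    rw [← Matrix.vecMul_injective_iff]
    intro v w h
    have h2 := hc (v - w) (by rw [Matrix.sub_vecMul, sub_eq_zero]; exact h)
    exact sub_eq_zero.1 h2
  have h2 : Module.finrank K (Submodule.span K (Set.range c.col)) = Fintype.card n := by
    rw [← Matrix.rank_eq_finrank_span_cols]
    exact h1.rank_matrix
  obtain ⟨f, hf, -, hli⟩ := Submodule.exists_fun_fin_finrank_span_eq K (Set.range c.col)
  choose j hj using hf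
  let e := (Fintype.equivFin n).trans (finCongr h2).symm
  refine ⟨fun i => j (e i), ?_⟩
  have h3 : LinearIndependent K (c.submatrix id (fun i => j (e i))).col := by
    have h4 : (c.submatrix id (fun i => j (e i))).col = f ∘ e := by
      funext i
      rw [Function.comp_apply, ← hj]
      rfl
    rw [h4]
    exact hli.comp _ e.injective
  rw [Matrix.linearIndependent_cols_iff_isUnit, Matrix.isUnit_iff_isUnit_det] at h3
  exact h3.ne_zero

/-- a maximal minor of minimal valuation: dividing by it the entries become integral -/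
theorem exists_best (O : ValuationSubring K) (c : Matrix n N K)
    (hc : ∀ v : n → K, v ᵥ* c = 0 → v = 0) :
    ∃ J : n → N, (c.submatrix id J).det ≠ 0 ∧
      ∀ i j, ((c.submatrix id J)⁻¹ * c) i j ∈ O := by
  classical
  obtain ⟨J₁, h₁⟩ := exists_minor c hc
  haveI : Nonempty (n → N) := ⟨J₁⟩
  obtain ⟨J, hJ⟩ := Finite.exists_max (fun J : n → N => O.valuation (c.submatrix id J).det)
  have h0 : (c.submatrix id J).det ≠ 0 := by
    intro h
    have h2 := hJ J₁
    rw [h, map_zero, le_zero_iff, map_eq_zero] at h2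
    exact h₁ h2
  refine ⟨J, h0, fun i j => ?_⟩
  have h3 : ((c.submatrix id J)⁻¹ * c) i j =
      (c.submatrix id (Function.update J i j)).det / (c.submatrix id J).det := by
    have h4 : (c.submatrix id (Function.update J i j)).det =
        ((c.submatrix id J).adjugate * c) i j := by
      have h5 : c.submatrix id (Function.update J i j) =
          (c.submatrix id J).updateCol i (c.col j) := by
        ext a b
        rw [Matrix.updateCol_apply, Matrix.submatrix_apply]
        by_cases hb : b = i
        · subst hb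
          rw [Function.update_self, if_pos rfl]
          rfl
        · rw [Function.update_of_ne hb, if_neg hb]
          rfl
      rw [h5, ← Matrix.cramer_apply, Matrix.cramer_eq_adjugate_mulVec]
      rfl
    rw [h4, Matrix.inv_def, Ring.inverse_eq_inv', Matrix.smul_mul, Matrix.smul_apply, smul_eq_mul]
    rw [div_eq_mul_inv, mul_comm]
  rw [h3, ← ValuationSubring.valuation_le_one_iff, map_div₀]
  have h6 : O.valuation (c.submatrix id J).det ≠ 0 := by
    rw [Ne, map_eq_zero]
    exact h0
  rw [div_le_one₀ (zero_lt_iff.2 h6)]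
  exact hJ _

end minors

section main
variable {K k : Type} [Field K] [Field k] [IsAlgClosed k]
  {N n : Type} [Fintype N] [DecidableEq N] [Fintype n] [DecidableEq n]

/-- the trace of a matrix is rational if its left eigenvalues are -/
theorem trace_rat [CharZero k] (A : Matrix n n k)
    (h : ∀ (z : k) (v : n → k), v ≠ 0 → v ᵥ* A = z • v → ∃ m : ℚ, z = m) :
    ∃ m : ℚ, A.trace = m := by
  rw [Matrix.trace_eq_sum_roots_charpoly]
  have h1 : ∀ z ∈ A.charpoly.roots, ∃ m : ℚ, z = m := by
    intro z hz
    have h2 : A.charpoly.eval z = 0 := Polynomial.isRoot_of_mem_roots hz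
    rw [Matrix.eval_charpoly, ← Matrix.exists_vecMul_eq_zero_iff] at h2
    obtain ⟨v, hv, h3⟩ := h2
    refine h z v hv ?_
    rw [Matrix.vecMul_sub, sub_eq_zero] at h3
    rw [← h3]
    ext i
    rw [Matrix.scalar_apply, Matrix.vecMul_diagonal, Pi.smul_apply, smul_eq_mul, mul_comm]
  generalize A.charpoly.roots = s at h1
  induction s using Multiset.induction_on with
  | empty => exact ⟨0, by simp⟩
  | cons a s ih =>
    obtain ⟨m, hm⟩ := ih (fun z hz => h1 z (Multiset.mem_cons_of_mem hz))
    obtain ⟨l, hl⟩ := h1 a (Multiset.mem_cons_self a s)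
    exact ⟨l + m, by rw [Multiset.sum_cons, hm, hl, Rat.cast_add]⟩

theorem local_trace [CharZero k] (O : ValuationSubring K) (res : O →+* k) (θ : Derivation ℤ K K)
    (hO : ∀ x ∈ O, θ x ∈ O) (hres : ∀ (x : K) (hx : x ∈ O), res ⟨θ x, hO x hx⟩ = 0)
    (hlog : ∀ f : K, f ≠ 0 → ∃ (h : θ f / f ∈ O) (m : ℤ), res ⟨θ f / f, h⟩ = m)
    (B g : Matrix N N K) (hg : g.det ≠ 0) (R : Matrix N N O)
    (hR : R.map (O.subtype) * g = g * B + g.map θ)
    (hrat : ∀ (z : k) (v : N → k), v ≠ 0 → v ᵥ* (R.map res) = z • v → ∃ m : ℚ, z = m)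
    (c : Matrix n N K) (hc : ∃ J : n → N, (c.submatrix id J).det ≠ 0)
    (H : Matrix n n K) (hH : c.map θ + c * B = H * c) :
    ∃ (h : H.trace ∈ O) (m : ℚ), res ⟨H.trace, h⟩ = m := by
  classical
  have hgu : IsUnit g.det := isUnit_iff_ne_zero.2 hg
  -- the gauge
  have hinv : (g⁻¹).map θ = -(g⁻¹ * g.map θ * g⁻¹) := by
    have h1 : (g * g⁻¹).map θ = 0 := by
      rw [Matrix.mul_nonsing_inv _ hgu, map_one_der]
    rw [map_mul_der] at h1
    have h2 : g * (g⁻¹).map θ = -(g.map θ * g⁻¹) := by
      rw [eq_neg_iff_add_eq_zero, add_comm]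
      exact h1
    have h3 := congrArg (fun M => g⁻¹ * M) h2
    simp only [← Matrix.mul_assoc, Matrix.mul_neg, Matrix.nonsing_inv_mul _ hgu,
      Matrix.one_mul] at h3
    exact h3
  have hRm : R.map (O.subtype) = (g * B + g.map θ) * g⁻¹ := by
    rw [← hR, Matrix.mul_assoc, Matrix.mul_nonsing_inv _ hgu, Matrix.mul_one]
  have hH' : (c * g⁻¹).map θ + (c * g⁻¹) * R.map (O.subtype) = H * (c * g⁻¹) := by
    have h4 : g⁻¹ * ((g * B + g.map θ) * g⁻¹) = B * g⁻¹ + g⁻¹ * g.map θ * g⁻¹ := by
      rw [Matrix.add_mul, Matrix.mul_add, ← Matrix.mul_assoc, ← Matrix.mul_assoc,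
        Matrix.nonsing_inv_mul _ hgu, Matrix.one_mul, Matrix.mul_assoc g⁻¹]
    rw [map_mul_der, hinv, hRm, Matrix.mul_assoc c, h4, ← Matrix.mul_assoc H, ← hH,
      Matrix.add_mul, Matrix.mul_add, Matrix.mul_neg, Matrix.mul_assoc c B]
    abel
  -- independent rows
  have hind : ∀ v : n → K, v ᵥ* (c * g⁻¹) = 0 → v = 0 := by
    intro v hv
    obtain ⟨J, hJ⟩ := hc
    have h5 : v ᵥ* c = 0 := by
      have h6 := congrArg (fun w => w ᵥ* g) hv
      simp only [Matrix.vecMul_vecMul, Matrix.zero_vecMul, Matrix.mul_assoc,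
        Matrix.nonsing_inv_mul _ hgu, Matrix.mul_one] at h6
      exact h6
    by_contra hne
    refine hJ ((Matrix.exists_vecMul_eq_zero_iff).1 ⟨v, hne, ?_⟩)
    ext j
    exact congrFun h5 (J j)
  obtain ⟨J, hJ, hint⟩ := exists_best O (c * g⁻¹) hind
  generalize c * g⁻¹ = c' at hH' hind hJ hint
  set A : Matrix n n K := c'.submatrix id J with hA
  have hAu : IsUnit A.det := isUnit_iff_ne_zero.2 hJ
  set c'' : Matrix n N K := A⁻¹ * c' with hc''
  set H'' : Matrix n n K := (A⁻¹).map θ * A + A⁻¹ * H * A with hH''d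
  have hc'J : c''.submatrix id J = 1 := by
    have h7 : c''.submatrix id J = A⁻¹ * A := by
      ext i j
      rfl
    rw [h7, Matrix.nonsing_inv_mul _ hAu]
  have hAc : A * c'' = c' := by
    rw [hc'', ← Matrix.mul_assoc, Matrix.mul_nonsing_inv _ hAu, Matrix.one_mul]
  have hH'' : c''.map θ + c'' * R.map (O.subtype) = H'' * c'' := by
    have h8 : (A⁻¹).map θ * A * c'' = (A⁻¹).map θ * c' := by
      rw [Matrix.mul_assoc, hAc]
    have h9 : A⁻¹ * H * A * c'' = A⁻¹ * (H * c') := by
      rw [Matrix.mul_assoc, hAc, Matrix.mul_assoc]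
    have h10 : c'' * R.map (O.subtype) = A⁻¹ * (c' * R.map (O.subtype)) := by
      rw [hc'', Matrix.mul_assoc]
    rw [hH''d, Matrix.add_mul, h8, h9, h10, ← hH', hc'', map_mul_der, Matrix.mul_add]
    abel
  -- the matrix `H''` is integral
  have hHeq : H'' = (c'' * R.map (O.subtype)).submatrix id J := by
    have h8 := congrArg (fun M => Matrix.submatrix M id J) hH''
    have h9 : (H'' * c'').submatrix id J = H'' := by
      have h10 : (H'' * c'').submatrix id J = H'' * c''.submatrix id J := by
        ext i j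
        rfl
      rw [h10, hc'J, Matrix.mul_one]
    have h11 : (c''.map θ).submatrix id J = 0 := by
      have h12 : (c''.map θ).submatrix id J = (c''.submatrix id J).map θ := rfl
      rw [h12, hc'J, map_one_der]
    simp only [Matrix.submatrix_add, Pi.add_apply, h11, h9, zero_add] at h8
    exact h8.symm
  have hH''O : ∀ i j, H'' i j ∈ O := by
    intro i j
    rw [hHeq, Matrix.submatrix_apply, Matrix.mul_apply]
    refine O.toSubring.sum_mem fun x _ => O.mul_mem _ _ (hint _ _) ?_
    exact (R x (J j)).2
  -- over the ring `O`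
  let cO : Matrix n N O := fun i j => ⟨c'' i j, hint i j⟩
  let HO : Matrix n n O := fun i j => ⟨H'' i j, hH''O i j⟩
  have hred : cO.map res * R.map res = HO.map res * cO.map res := by
    have h13 : ∀ i j, (cO * R - HO * cO) i j = -⟨θ (c'' i j), hO (c'' i j) (hint i j)⟩ := by
      intro i j
      apply Subtype.ext
      have h14 := congrFun (congrFun hH'' i) j
      rw [Matrix.add_apply, Matrix.map_apply] at h14
      have h15 : (((cO * R - HO * cO) i j : O) : K) =
          (c'' * R.map (O.subtype)) i j - (H'' * c'') i j := by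
        rw [Matrix.sub_apply, Matrix.mul_apply, Matrix.mul_apply, Matrix.mul_apply,
          Matrix.mul_apply]
        push_cast
        rfl
      rw [h15, ← h14]
      push_cast
      ring
    rw [← sub_eq_zero, ← Matrix.map_mul, ← Matrix.map_mul]
    ext i j
    rw [Matrix.sub_apply, Matrix.map_apply, Matrix.map_apply, ← map_sub, ← Matrix.sub_apply, h13,
      map_neg, hres _ (hint i j), neg_zero]
    rfl
  have hid : (cO.map res).submatrix id J = 1 := by
    ext i j
    rw [Matrix.submatrix_apply, Matrix.map_apply]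
    have h16 := congrFun (congrFun hc'J i) j
    rw [Matrix.submatrix_apply] at h16
    have h17 : cO (id i) (J j) = (1 : Matrix n n O) i j := by
      apply Subtype.ext
      change c'' (id i) (J j) = _
      rw [h16, Matrix.one_apply, Matrix.one_apply]
      split_ifs <;> rfl
    rw [h17, Matrix.one_apply, Matrix.one_apply]
    split_ifs
    · exact map_one res
    · exact map_zero res
  obtain ⟨m, hm⟩ := trace_rat (HO.map res) (by
    intro z v hv hz
    refine hrat z (v ᵥ* cO.map res) ?_ ?_
    · intro h0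
      apply hv
      have h18 : v ᵥ* (cO.map res).submatrix id J = 0 := by
        ext j
        exact congrFun h0 (J j)
      rwa [hid, Matrix.vecMul_one] at h18
    · rw [Matrix.vecMul_vecMul, hred, ← Matrix.vecMul_vecMul, hz, Matrix.smul_vecMul])
  -- the traces
  have htr : H.trace = H''.trace - θ A⁻¹.det / A⁻¹.det := by
    have h19 : ((A⁻¹).map θ * A).trace = θ A⁻¹.det / A⁻¹.det := by
      have h20 : A = (A⁻¹)⁻¹ := (Matrix.nonsing_inv_nonsing_inv _ hAu).symm
      have h21 : A⁻¹.det ≠ 0 := (Matrix.isUnit_nonsing_inv_det _ hAu).ne_zero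
      rw [der_det, Matrix.trace_mul_comm]
      nth_rewrite 1 [h20]
      rw [Matrix.inv_def, Ring.inverse_eq_inv', Matrix.smul_mul, Matrix.trace_smul, smul_eq_mul,
        div_eq_mul_inv, mul_comm]
    have h22 : (A⁻¹ * H * A).trace = H.trace := by
      rw [Matrix.trace_mul_comm, ← Matrix.mul_assoc, Matrix.mul_nonsing_inv _ hAu, Matrix.one_mul]
    rw [hH''d, Matrix.trace_add, h19, h22]
    ring
  have h21 : A⁻¹.det ≠ 0 := (Matrix.isUnit_nonsing_inv_det _ hAu).ne_zero
  obtain ⟨hl, l, hll⟩ := hlog _ h21
  have h23 : ((HO.trace - ⟨θ A⁻¹.det / A⁻¹.det, hl⟩ : O) : K) = H.trace := by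
    rw [htr]
    push_cast
    congr 1
    rw [Matrix.trace, Matrix.trace]
    push_cast
    rfl
  refine ⟨h23 ▸ (HO.trace - ⟨θ A⁻¹.det / A⁻¹.det, hl⟩ : O).2, m - l, ?_⟩
  have h24 : (⟨H.trace, h23 ▸ (HO.trace - ⟨θ A⁻¹.det / A⁻¹.det, hl⟩ : O).2⟩ : O) =
      HO.trace - ⟨θ A⁻¹.det / A⁻¹.det, hl⟩ := Subtype.ext h23.symm
  rw [h24, map_sub, hll]
  have h25 : res HO.trace = (HO.map res).trace := by
    rw [Matrix.trace, Matrix.trace, map_sum]
    rfl
  rw [h25, hm]
  push_cast
  ring

end main

end H27.GD
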