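import Pool.Agent.H27.GD.Local
import Pool.Agent.H26.FM.Reg

/-! # GD.Local2: `local_trace` in the form used for `exists_log` -/

set_option autoImplicit false

namespace GD

theorem local_trace {K k : Type} [Field K] [Field k] [IsAlgClosed k] [CharZero k]
    (O : ValuationSubring K) (res : O →+* k) (θ : K → K) (hadd : ∀ x y, θ (x + y) = θ x + θ y)
    (hmul : ∀ x y, θ (x * y) = θ x * y + x * θ y)
    (hO : ∀ x : O, ∃ h : θ x ∈ O, res ⟨θ x, h⟩ = 0)
    (hlog : ∀ x, x ≠ 0 → ∃ h : θ x / x ∈ O, ∃ m : ℤ, res ⟨θ x / x, h⟩ = m) {n m : ℕ}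
    (B : Matrix (Fin n) (Fin n) K) (g : Matrix (Fin n) (Fin n) K) (hg : g.det ≠ 0)
    (R : Matrix (Fin n) (Fin n) k)
    (hR : ∀ i j, ∃ h : ((g.map θ + g * B) * g⁻¹) i j ∈ O, res ⟨_, h⟩ = R i j)
    (hrat : RatEigen R) (c : Matrix (Fin m) (Fin n) K)
    (hc : ∃ J : Fin m → Fin n, (c.submatrix id J).det ≠ 0) (H : Matrix (Fin m) (Fin m) K)
    (hH : c.map θ + c * B = H * c) :
    ∃ (h : H.trace ∈ O) (r : ℚ), res ⟨H.trace, h⟩ = r := by
  have h0 : θ 0 = 0 := by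
    have h1 := hadd 0 0
    rw [add_zero] at h1
    exact left_eq_add.1 h1
  let θ' : Derivation ℤ K K := Derivation.mk' (AddMonoidHom.mk' θ hadd).toIntLinearMap
    (fun x y => by
      change θ (x * y) = x • θ y + y • θ x
      rw [hmul, smul_eq_mul, smul_eq_mul]
      ring)
  have hθ : ∀ x, θ' x = θ x := fun x => rfl
  have hgu : IsUnit g.det := isUnit_iff_ne_zero.2 hg
  let RO : Matrix (Fin n) (Fin n) O := fun i j => ⟨_, (hR i j).1⟩
  have hRm : RO.map res = R := by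
    ext i j
    obtain ⟨h1, h2⟩ := hR i j
    exact h2
  refine H27.GD.local_trace O res θ' (fun x hx => (hO ⟨x, hx⟩).1)
    (fun x hx => (hO ⟨x, hx⟩).2) (fun f hf => ?_) B g hg RO ?_ ?_ c hc H hH
  · obtain ⟨h1, l, h2⟩ := hlog f hf
    exact ⟨h1, l, h2⟩
  · have h3 : RO.map O.subtype = (g.map θ + g * B) * g⁻¹ := by
      ext i j
      rfl
    rw [h3, Matrix.mul_assoc, Matrix.nonsing_inv_mul _ hgu, Matrix.mul_one, add_comm]
    rfl
  · intro z v hv hz
    rw [hRm] at hz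
    exact hrat z v hv hz

end GD
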