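import Pool.Agent.H27.GD.Red
import Pool.Agent.H44.GD.Tr
import Pool.Agent.H26.DT.FamStr

/-!
# Interface with the other files
-/

set_option autoImplicit false

noncomputable section

namespace GD.DT

open Complex GD

/-- (N1) Natural derivations preserve the eigenlines of an admissible family. -/
theorem exists_chi {R : Str} {F : Type} [Field F] [NumberField F] (f : Fam R F) {T : Op}
    (hT : IsNat T) : ∃ chi : (F →+* ℂ) → ℂ, ∀ s, T R (f.v s) = chi s • f.v s :=
  f.nat_scalar hT

/-- (N3) A polarised structure is spanned by its simple substructures. -/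
theorem span_simple {S : Str} (P : Pol S) :
    Submodule.span ℂ {x : S.W | ∃ M, IsSimple S M ∧ x ∈ S.cx M} = ⊤ := by
  rw [eq_top_iff, ← iSup_simple P]
  refine iSup_le fun M => ?_
  intro x hx
  exact Submodule.subset_span ⟨M.1, M.2, hx⟩

section seven

variable {S : Str} {M : Submodule ℚ S.W}

/-- A rational linear functional on a number field in terms of the embeddings. -/
theorem functional_exp {E : Type} [Field E] [NumberField E] (θ : E →ₗ[ℚ] ℂ) (a : E) :
    θ a = ∑ τ : E →+* ℂ, τ a * ∑ i, τ (bad E i) * θ (bas E i) := by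
  have h1 : θ a = ∑ i, ((Algebra.trace ℚ E (bad E i * a) : ℚ) : ℂ) * θ (bas E i) := by
    conv_lhs => rw [bas_exp E a, map_sum]
    refine Finset.sum_congr rfl fun i _ => ?_
    rw [map_smul, Rat.smul_def]
  rw [h1]
  simp only [trace_sum, Finset.sum_mul, Finset.mul_sum, map_mul]
  rw [Finset.sum_comm]
  exact Finset.sum_congr rfl fun τ _ => Finset.sum_congr rfl fun i _ => by ring

/-- (N7) Restriction of the action to a subfield. -/
theorem trOn_subfield {E L : Type} [Field E] [NumberField E]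
    [Field L] [NumberField L] (ι : E →+* Module.End ℂ (S.cx M)) (k : L →+* E)
    (X : Module.End ℂ S.W)
    (hX : ∀ x ∈ S.cx M, X x ∈ S.cx M)
    (hc : ∀ a, ∀ x : S.cx M, X (ι a x : S.W) = (ι a ⟨X x, hX x x.2⟩ : S.W)) (ρ : L →+* ℂ)
    [DecidablePred fun τ : E →+* ℂ => τ.comp k = ρ] :
    trOn X (eig (ι.comp k) ρ) =
      ∑ τ ∈ Finset.univ.filter (fun τ : E →+* ℂ => τ.comp k = ρ), trOn X (eig ι τ) := by
  classical
  let θ : E →ₗ[ℚ] ℂ :=
    { toFun := fun a => LinearMap.trace ℂ (S.cx M) (X.restrict hX * ι a)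
      map_add' := fun a b => by rw [map_add, mul_add, map_add]
      map_smul' := fun r a => by
        have h3 : ι (r • a) = (r : ℂ) • ι a := by
          ext x
          rw [iota_rat]
          rfl
        rw [h3, mul_smul_comm, map_smul, RingHom.id_apply, Rat.smul_def, smul_eq_mul] }
  let θ' : L →ₗ[ℚ] ℂ :=
    { toFun := fun a => θ (k a)
      map_add' := fun a b => by rw [map_add, map_add]
      map_smul' := fun r a => by
        rw [map_rat_smul k r a, map_smul]
        rfl }
  have h1 : ∀ τ : E →+* ℂ, trOn X (eig ι τ) = ∑ i, τ (bad E i) * θ (bas E i) := fun τ =>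
    trOn_eig ι X hX hc τ
  have h2 : ∀ ρ : L →+* ℂ, trOn X (eig (ι.comp k) ρ) = ∑ i, ρ (bad L i) * θ' (bas L i) :=
    fun ρ => trOn_eig (ι.comp k) X hX (fun a x => hc (k a) x) ρ
  have h3 : ∀ l : L, ∑ ρ : L →+* ℂ, ρ l • trOn X (eig (ι.comp k) ρ) =
      ∑ ρ : L →+* ℂ, ρ l • ∑ τ ∈ Finset.univ.filter (fun τ : E →+* ℂ => τ.comp k = ρ),
        trOn X (eig ι τ) := by
    intro l
    have e1 : θ' l = ∑ ρ : L →+* ℂ, ρ l • trOn X (eig (ι.comp k) ρ) := by
      rw [functional_exp θ' l]
      exact Finset.sum_congr rfl fun ρ _ => by rw [h2, smul_eq_mul]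
    have e2 : θ' l = ∑ τ : E →+* ℂ, τ (k l) * trOn X (eig ι τ) := by
      have : θ' l = θ (k l) := rfl
      rw [this, functional_exp θ (k l)]
      exact Finset.sum_congr rfl fun τ _ => by rw [h1]
    rw [← e1, e2, ← Finset.sum_fiberwise Finset.univ (fun τ : E →+* ℂ => τ.comp k)]
    refine Finset.sum_congr rfl fun ρ _ => ?_
    rw [smul_eq_mul, Finset.mul_sum]
    refine Finset.sum_congr rfl fun τ hτ => ?_
    have e3 : τ (k l) = ρ l := RingHom.congr_fun (Finset.mem_filter.1 hτ).2 l
    rw [e3]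
  have h4 := emb_lin L (W := ℂ) (fun ρ => trOn X (eig (ι.comp k) ρ) -
    ∑ τ ∈ Finset.univ.filter (fun τ : E →+* ℂ => τ.comp k = ρ), trOn X (eig ι τ)) (by
      intro l
      simp only [smul_sub, Finset.sum_sub_distrib]
      rw [h3 l, sub_self]) ρ
  have h5 := sub_eq_zero.1 h4
  rw [h5]
  exact Finset.sum_congr (by ext; simp) fun _ _ => rfl

end seven

end GD.DT
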