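import Pool.Agent.H27.GD.Nat

/-!
# Rational parts of natural derivations
-/

set_option autoImplicit false

noncomputable section

namespace GD.DT

open Complex GD
open scoped ComplexConjugate TensorProduct

/-! ### Partial evaluation of vectors -/

/-- Apply a rational linear form of `ℂ` to the coefficients of a vector. -/
def prt (R : Str) (l : ℂ →ₗ[ℚ] ℚ) : R.W →ₗ[ℚ] R.W :=
  R.B.subtype ∘ₗ (TensorProduct.lid ℚ R.B).toLinearMap ∘ₗ (LinearMap.rTensor R.B l) ∘ₗ
    (R.B_form.equiv.symm.toLinearMap.restrictScalars ℚ)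

theorem prt_mem (R : Str) (l : ℂ →ₗ[ℚ] ℚ) (w : R.W) : prt R l w ∈ R.B := by
  unfold prt
  exact Submodule.coe_mem _

theorem prt_smul (R : Str) (l : ℂ →ₗ[ℚ] ℚ) (c : ℂ) {b : R.W} (hb : b ∈ R.B) :
    prt R l (c • b) = l c • b := by
  have h1 : R.B_form.equiv.symm.toLinearMap (c • b) = c ⊗ₜ[ℚ] (⟨b, hb⟩ : R.B) := by
    rw [LinearEquiv.coe_coe, LinearEquiv.symm_apply_eq, IsBaseChange.equiv_tmul]
    rfl
  unfold prt
  rw [LinearMap.comp_apply, LinearMap.comp_apply, LinearMap.comp_apply,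
    LinearMap.restrictScalars_apply, h1, LinearMap.rTensor_tmul,
    LinearEquiv.coe_coe, TensorProduct.lid_tmul]
  rfl

theorem prt_of_mem (R : Str) (l : ℂ →ₗ[ℚ] ℚ) {b : R.W} (hb : b ∈ R.B) :
    prt R l b = l 1 • b := by
  have := prt_smul R l 1 hb
  rwa [one_smul] at this

/-- Rational maps commute with partial evaluation. -/
theorem map_prt {R R' : Str} {f : R.W →ₗ[ℂ] R'.W} (hf : ∀ x ∈ R.B, f x ∈ R'.B)
    (l : ℂ →ₗ[ℚ] ℚ) (w : R.W) : f (prt R l w) = prt R' l (f w) := by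
  refine Str.induction R (P := fun w => f (prt R l w) = prt R' l (f w)) w ?_ ?_ ?_
  · simp
  · intro a b ha hb
    rw [map_add, map_add, map_add, map_add, ha, hb]
  · intro c b hb
    rw [prt_smul R l c hb, map_smul f c b, prt_smul R' l c (hf b hb)]
    exact map_rat_smul f (l c) b

theorem map_prt_left {S S' R : Str} {μ : S.W →ₗ[ℂ] S'.W →ₗ[ℂ] R.W} (hμ : TensorBetti S S' R μ)
    (l : ℂ →ₗ[ℚ] ℚ) (w : S.W) {b' : S'.W} (hb' : b' ∈ S'.B) :
    μ (prt S l w) b' = prt R l (μ w b') :=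
  map_prt (f := μ.flip b') (fun x hx => hμ x hx b' hb') l w

theorem map_prt_right {S S' R : Str} {μ : S.W →ₗ[ℂ] S'.W →ₗ[ℂ] R.W} (hμ : TensorBetti S S' R μ)
    (l : ℂ →ₗ[ℚ] ℚ) {b : S.W} (hb : b ∈ S.B) (w : S'.W) :
    μ b (prt S' l w) = prt R l (μ b w) :=
  map_prt (f := μ b) (fun x hx => hμ b hb x hx) l w

/-! ### Rational parts of operators -/

/-- The rational part of an operator. -/
def ratEnd (R : Str) (l : ℂ →ₗ[ℚ] ℚ) (X : Module.End ℂ R.W) : Module.End ℂ R.W :=
  R.B_form.lift ((prt R l) ∘ₗ (X.restrictScalars ℚ) ∘ₗ R.B.subtype)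

theorem ratEnd_apply (R : Str) (l : ℂ →ₗ[ℚ] ℚ) (X : Module.End ℂ R.W) {b : R.W} (hb : b ∈ R.B) :
    ratEnd R l X b = prt R l (X b) :=
  R.B_form.lift_eq ((prt R l) ∘ₗ (X.restrictScalars ℚ) ∘ₗ R.B.subtype) ⟨b, hb⟩

/-- The rational part of a family. -/
def ratOp (l : ℂ →ₗ[ℚ] ℚ) (T : Op) : Op := fun R => ratEnd R l (T R)

/-- Families of rational operators. -/
def IsRat (T : Op) : Prop := ∀ (R : Str), ∀ b ∈ R.B, T R b ∈ R.B

theorem isRat_ratOp (l : ℂ →ₗ[ℚ] ℚ) (T : Op) : IsRat (ratOp l T) := by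
  intro R b hb
  rw [ratOp, ratEnd_apply R l _ hb]
  exact prt_mem R l _

theorem isNat_ratOp {T : Op} (h : IsNat T) (l : ℂ →ₗ[ℚ] ℚ) : IsNat (ratOp l T) := by
  refine ⟨fun R R' f hf x => ?_, fun S S' R μ hμ x y => ?_⟩
  · have key : (ratEnd R' l (T R')) ∘ₗ f = f ∘ₗ (ratEnd R l (T R)) := by
      refine ext_B fun b hb => ?_
      rw [LinearMap.comp_apply, LinearMap.comp_apply, ratEnd_apply R' l _ (hf.betti b hb),
        ratEnd_apply R l _ hb, h.nat R R' f hf, map_prt hf.betti]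
    exact LinearMap.congr_fun key x
  · have key : LinearMap.compr₂ μ (ratEnd R l (T R)) =
        μ.comp (ratEnd S l (T S)) + LinearMap.compl₂ μ (ratEnd S' l (T S')) := by
      refine ext_B fun b hb => ?_
      refine ext_B fun b' hb' => ?_
      rw [LinearMap.compr₂_apply, LinearMap.add_apply, LinearMap.add_apply, LinearMap.comp_apply,
        LinearMap.compl₂_apply, ratEnd_apply R l _ (hμ.betti b hb b' hb'), ratEnd_apply S l _ hb,
        ratEnd_apply S' l _ hb', h.der S S' R μ hμ, map_add, map_prt_left hμ.betti l _ hb',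
        map_prt_right hμ.betti l hb]
    exact LinearMap.congr_fun (LinearMap.congr_fun key x) y

/-! ### An operator is a combination of its rational parts -/

/-- Coordinates on a finite dimensional rational subspace of `ℂ`. -/
theorem exists_coord (V : Submodule ℚ ℂ) [Module.Finite ℚ V] :
    ∃ (n : ℕ) (c : Fin n → ℂ) (l : Fin n → (ℂ →ₗ[ℚ] ℚ)), ∀ v ∈ V, ∑ k, (l k v : ℂ) * c k = v := by
  let b := Module.finBasis ℚ V
  have hext : ∀ k, ∃ g : ℂ →ₗ[ℚ] ℚ, g ∘ₗ V.subtype = b.coord k := fun k =>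
    LinearMap.exists_extend (b.coord k)
  choose l hl using hext
  refine ⟨_, fun k => (b k : ℂ), l, fun v hv => ?_⟩
  have h1 := congrArg (fun z : V => (z : ℂ)) (b.sum_repr ⟨v, hv⟩)
  simp only [Submodule.coe_sum, Submodule.coe_smul] at h1
  rw [← h1]
  conv_lhs => rw [h1]
  refine Finset.sum_congr rfl fun k _ => ?_
  have h2 := LinearMap.congr_fun (hl k) ⟨v, hv⟩
  rw [LinearMap.comp_apply, Submodule.subtype_apply, Module.Basis.coord_apply] at h2
  rw [h2, Rat.smul_def]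

/-- The rational form is finite dimensional. -/
theorem finite_B (R : Str) : Module.Finite ℚ R.B := by
  let b := Module.Basis.ofVectorSpace ℚ R.B
  let bC := IsBaseChange.basis b R.B_form
  have : Finite (Module.Basis.ofVectorSpaceIndex ℚ R.B) := Module.Finite.finite_basis bC
  exact Module.Finite.of_basis b

/-- On finitely many vectors, partial evaluations recover the vectors. -/
theorem exists_prt {ι : Type} [Finite ι] (R : ι → Str) (w : ∀ i, (R i).W) :
    ∃ V : Submodule ℚ ℂ, Module.Finite ℚ V ∧ ∀ (n : ℕ) (c : Fin n → ℂ)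
      (l : Fin n → (ℂ →ₗ[ℚ] ℚ)), (∀ v ∈ V, ∑ k, (l k v : ℂ) * c k = v) →
      ∀ i, ∑ k, c k • prt (R i) (l k) (w i) = w i := by
  classical
  have hone : ∀ i, ∃ s : Set ℂ, s.Finite ∧ ∀ (n : ℕ) (c : Fin n → ℂ) (l : Fin n → (ℂ →ₗ[ℚ] ℚ)),
      (∀ v ∈ s, ∑ k, (l k v : ℂ) * c k = v) → ∑ k, c k • prt (R i) (l k) (w i) = w i := by
    intro i
    refine Str.induction (R i) (P := fun w => ∃ s : Set ℂ, s.Finite ∧ ∀ (n : ℕ) (c : Fin n → ℂ)
      (l : Fin n → (ℂ →ₗ[ℚ] ℚ)), (∀ v ∈ s, ∑ k, (l k v : ℂ) * c k = v) →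
      ∑ k, c k • prt (R i) (l k) w = w) (w i) ?_ ?_ ?_
    · exact ⟨∅, Set.finite_empty, fun n c l _ => by simp⟩
    · rintro a b ⟨s, hs, h1⟩ ⟨t, ht, h2⟩
      refine ⟨s ∪ t, hs.union ht, fun n c l h => ?_⟩
      have e1 := h1 n c l fun v hv => h v (Or.inl hv)
      have e2 := h2 n c l fun v hv => h v (Or.inr hv)
      conv_rhs => rw [← e1, ← e2]
      rw [← Finset.sum_add_distrib]
      refine Finset.sum_congr rfl fun k _ => ?_
      rw [map_add, smul_add]
    · intro z b hb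
      refine ⟨{z}, Set.finite_singleton z, fun n c l h => ?_⟩
      have e1 := h z rfl
      conv_rhs => rw [← e1]
      rw [Finset.sum_smul]
      refine Finset.sum_congr rfl fun k _ => ?_
      rw [prt_smul (R i) (l k) z hb, mul_comm, mul_smul]
      congr 1
      rw [← eq_ratCast (algebraMap ℚ ℂ), algebraMap_smul]
  choose s hs h using hone
  have hfin : (⋃ i, s i).Finite := Set.finite_iUnion hs
  refine ⟨Submodule.span ℚ (⋃ i, s i), Module.Finite.span_of_finite ℚ hfin, ?_⟩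
  intro n c l hv i
  exact h i n c l fun v hvs => hv v (Submodule.subset_span (Set.mem_iUnion.2 ⟨i, hvs⟩))

/-- On finitely many structures an operator is a combination of its rational parts. -/
theorem exists_ratOp {ι : Type} [Finite ι] (R : ι → Str) (T : Op) :
    ∃ (n : ℕ) (c : Fin n → ℂ) (l : Fin n → (ℂ →ₗ[ℚ] ℚ)),
      ∀ i, T (R i) = ∑ k, c k • ratOp (l k) T (R i) := by
  classical
  have hfin : ∀ i, Module.Finite ℚ (R i).B := fun i => finite_B (R i)
  let b := fun i => Module.finBasis ℚ (R i).B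
  obtain ⟨V, hV, h⟩ := exists_prt (ι := Σ i, Fin (Module.finrank ℚ (R i).B))
    (fun s => R s.1) (fun s => T (R s.1) (b s.1 s.2 : (R s.1).W))
  obtain ⟨n, c, l, hl⟩ := exists_coord V
  refine ⟨n, c, l, fun i => ext_B fun x hx => ?_⟩
  have h1 := h n c l hl
  -- both sides are rational linear in `x`
  have h2 : ∀ y : (R i).B, T (R i) (y : (R i).W) =
      ∑ k, c k • prt (R i) (l k) (T (R i) (y : (R i).W)) := by
    intro y
    let f1 : (R i).B →ₗ[ℚ] (R i).W := ((T (R i)).restrictScalars ℚ) ∘ₗ (R i).B.subtype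
    let f2 : (R i).B →ₗ[ℚ] (R i).W := ∑ k, c k • ((prt (R i) (l k)) ∘ₗ f1)
    have hf : f1 = f2 := by
      refine (b i).ext fun j => ?_
      have := h1 ⟨i, j⟩
      change T (R i) (b i j : (R i).W) = _
      rw [← this]
      simp only [f2, LinearMap.sum_apply, LinearMap.smul_apply, LinearMap.comp_apply]
      rfl
    have h3 := LinearMap.congr_fun hf y
    simp only [f2, LinearMap.sum_apply, LinearMap.smul_apply, LinearMap.comp_apply] at h3
    exact h3
  have h3 := h2 ⟨x, hx⟩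
  rw [LinearMap.sum_apply]
  refine h3.trans (Finset.sum_congr rfl fun k _ => ?_)
  rw [LinearMap.smul_apply, ratOp, ratEnd_apply (R i) (l k) _ hx]

end GD.DT
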