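import Pool.Agent.H27.GD.Tate

/-!
# Natural derivations: brackets and central elements

On a finite family of polarised structures every natural derivation is the sum of a combination of
brackets and of a natural derivation which acts centrally.
-/

set_option autoImplicit false

noncomputable section

namespace GD.DT

open Complex GD

/-! ### Hodge components -/

/-- The projection to the Hodge piece of type `p`. -/
def hproj (R : Str) (p : ℕ) : Module.End ℂ R.W := hodgeEnd R fun q => if q = p then 1 else 0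

theorem hproj_self (R : Str) {p : ℕ} {x : R.W} (hx : x ∈ R.hodge p) : hproj R p x = x := by
  rw [hproj, hodgeEnd_apply _ _ _ _ hx, if_pos rfl, one_smul]

theorem hproj_ne (R : Str) {p q : ℕ} (h : q ≠ p) {x : R.W} (hx : x ∈ R.hodge q) :
    hproj R p x = 0 := by
  rw [hproj, hodgeEnd_apply _ _ _ _ hx, if_neg h, zero_smul]

theorem hproj_mem (R : Str) (p : ℕ) (x : R.W) : hproj R p x ∈ R.hodge p := by
  have key : (R.hodge p).mkQ ∘ₗ hproj R p = 0 := by
    refine ext_hodge fun q y hy => ?_
    rw [LinearMap.comp_apply, LinearMap.zero_apply]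
    by_cases h : q = p
    · subst h
      rw [hproj_self R hy]
      exact (Submodule.Quotient.mk_eq_zero _).2 hy
    · rw [hproj_ne R h hy, map_zero]
  exact (Submodule.Quotient.mk_eq_zero _).1 (LinearMap.congr_fun key x)

theorem sum_hproj (R : Str) (x : R.W) : ∑ p ∈ Finset.range (R.wt + 1), hproj R p x = x := by
  have key : ∑ p ∈ Finset.range (R.wt + 1), hproj R p = LinearMap.id := by
    refine ext_hodge fun q y hy => ?_
    rw [LinearMap.sum_apply, LinearMap.id_apply]
    by_cases hq : q ≤ R.wt
    · rw [Finset.sum_eq_single q, hproj_self R hy]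
      · intro p _ hp
        exact hproj_ne R (fun h => hp h.symm) hy
      · intro h
        exact absurd (Finset.mem_range.2 (by omega)) h
    · rw [R.hodge_large q (by omega)] at hy
      have : y = 0 := by simpa using hy
      rw [this]
      simp
  have := LinearMap.congr_fun key x
  rwa [LinearMap.sum_apply] at this

theorem hodgeEnd_hproj (R : Str) (c : ℕ → ℂ) (p : ℕ) (x : R.W) :
    hodgeEnd R c (hproj R p x) = c p • hproj R p x := hodgeEnd_apply R c p _ (hproj_mem R p x)

/-! ### The hermitian form -/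

/-- The hermitian form `E (C x, conj y)` of a polarised structure. -/
def herm {S : Str} (P : Pol S) : S.W →ₗ[ℂ] S.W →ₛₗ[starRingEnd ℂ] ℂ :=
  LinearMap.mk₂'ₛₗ (RingHom.id ℂ) (starRingEnd ℂ) (fun x y => P.E (weil S x) (S.conj y))
    (fun x x' y => by rw [map_add, map_add, LinearMap.add_apply])
    (fun c x y => by rw [map_smul, map_smul, LinearMap.smul_apply, RingHom.id_apply])
    (fun x y y' => by rw [map_add, map_add])
    (fun c x y => by rw [conj_smul, map_smul])

theorem herm_apply {S : Str} (P : Pol S) (x y : S.W) :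
    herm P x y = P.E (weil S x) (S.conj y) := rfl

theorem herm_pos {S : Str} (P : Pol S) (x : S.W) (hx : x ≠ 0) :
    ∃ r : ℝ, 0 < r ∧ herm P x x = r := by
  classical
  have hone : ∀ p ∈ Finset.range (S.wt + 1), ∃ r : ℝ, 0 ≤ r ∧ (hproj S p x ≠ 0 → 0 < r) ∧
      I ^ (2 * (p : ℤ) - S.wt) * P.E (hproj S p x) (S.conj (hproj S p x)) = r := by
    intro p hp
    by_cases h0 : hproj S p x = 0
    · refine ⟨0, le_rfl, fun h => absurd h0 h, ?_⟩
      rw [h0]
      simp
    · obtain ⟨r, hr, h⟩ := P.pos p (by have := Finset.mem_range.1 hp; omega) _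
        (hproj_mem S p x) h0
      exact ⟨r, hr.le, fun _ => hr, h⟩
  choose! r hr0 hr1 hr using hone
  have hsum : herm P x x = ∑ p ∈ Finset.range (S.wt + 1), (r p : ℂ) := by
    have h1 : weil S x = ∑ p ∈ Finset.range (S.wt + 1),
        I ^ (2 * (p : ℤ) - S.wt) • hproj S p x := by
      conv_lhs => rw [← sum_hproj S x]
      rw [map_sum]
      exact Finset.sum_congr rfl fun p _ => hodgeEnd_hproj S _ p x
    have h2 : S.conj x = ∑ q ∈ Finset.range (S.wt + 1), S.conj (hproj S q x) := by
      conv_lhs => rw [← sum_hproj S x]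
      rw [map_sum]
    rw [herm_apply, h1, h2, map_sum P.E, LinearMap.sum_apply]
    refine Finset.sum_congr rfl fun p hp => ?_
    rw [map_sum, Finset.sum_eq_single p]
    · rw [map_smul, LinearMap.smul_apply, smul_eq_mul]
      exact hr p hp
    · intro q hq hqp
      have hq' : q ≤ S.wt := by have := Finset.mem_range.1 hq; omega
      refine P.orth p (S.wt - q) (by omega) _ (Submodule.smul_mem _ _ (hproj_mem S p x)) _
        (S.hodge_conj q hq' _ (hproj_mem S q x))
    · intro h
      exact absurd hp h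
  refine ⟨∑ p ∈ Finset.range (S.wt + 1), r p, ?_, by rw [hsum]; push_cast; rfl⟩
  have hex : ∃ p ∈ Finset.range (S.wt + 1), hproj S p x ≠ 0 := by
    by_contra hcon
    push Not at hcon
    apply hx
    rw [← sum_hproj S x]
    exact Finset.sum_eq_zero hcon
  obtain ⟨p, hp, hne⟩ := hex
  exact Finset.sum_pos' (fun q hq => hr0 q hq) ⟨p, hp, hr1 p hp hne⟩

/-- The adjoint of a natural derivation. -/
def dag (T : Op) : Op := (starRingEnd ℂ (cc (weilOp T))) • wtOp - conjOp (weilOp T)

theorem isNat_dag {T : Op} (h : IsNat T) : IsNat (dag T) :=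
  Lnat.sub_mem (Lnat.smul_mem _ isNat_wtOp) (isNat_conjOp (isNat_weilOp h))

theorem dag_apply (T : Op) (R : Str) (x : R.W) : dag T R x =
    (starRingEnd ℂ (cc (weilOp T))) • ((R.wt : ℂ) • x) - R.conj (weilOp T R (R.conj x)) := rfl

theorem herm_dag {T : Op} (h : IsNat T) {S : Str} (P : Pol S) (a b : S.W) :
    herm P (T S a) b = herm P a (dag T S b) := by
  have h1 : weil S (T S a) = weilOp T S (weil S a) := by
    rw [weilOp_apply, weilInv_weil]
  have h2 := pol_der (isNat_weilOp h) P (weil S a) (S.conj b)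
  have h3 : S.conj (dag T S b) = (cc (weilOp T) * S.wt) • S.conj b - weilOp T S (S.conj b) := by
    rw [dag_apply, map_sub, conj_conj', conj_smul, conj_smul, Complex.conj_conj,
      Complex.conj_natCast, smul_smul]
  rw [herm_apply, herm_apply, h1, h3, map_sub, map_smul, smul_eq_mul]
  linear_combination h2

/-- On a finite family of polarised structures, a natural derivation is the sum of a combination of
brackets and of a natural derivation which acts centrally. -/
theorem split {ι : Type} [Fintype ι] (S : ι → Str) (P : ∀ i, Pol (S i)) {T : Op} (hT : IsNat T) :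
    ∃ Y ∈ Submodule.span ℂ {Z : Op | ∃ A B, IsNat A ∧ IsNat B ∧ Z = br A B},
      IsNat (T - Y) ∧ ∀ i, ∀ A, IsNat A → ∀ x,
        (T - Y) (S i) (A (S i) x) = A (S i) ((T - Y) (S i) x) := by
  let ρ : ∀ i, Lnat →ₗ[ℂ] Module.End ℂ (S i).W := fun i =>
    { toFun := fun A => A.1 (S i)
      map_add' := fun A B => rfl
      map_smul' := fun c A => rfl }
  let bb : Lnat → Lnat → Lnat := fun A B => ⟨br A.1 B.1, isNat_br A.2 B.2⟩
  obtain ⟨y, hy, hc⟩ := herm_ops (fun i => (S i).W) (fun i => herm (P i)) bb ρ
    (fun i x hx => herm_pos (P i) x hx) (fun i x y => rfl)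
    (fun A => ⟨⟨dag A.1, isNat_dag A.2⟩, fun i a b => herm_dag A.2 (P i) a b⟩) ⟨T, hT⟩
  refine ⟨y.1, ?_, Lnat.sub_mem hT y.2, fun i A hA x => ?_⟩
  · have hle : Submodule.span ℂ {z | ∃ a b, z = bb a b} ≤
        (Submodule.span ℂ {Z : Op | ∃ A B, IsNat A ∧ IsNat B ∧ Z = br A B}).comap
          Lnat.subtype := by
      refine Submodule.span_le.2 ?_
      rintro _ ⟨a, b, rfl⟩
      exact Submodule.subset_span ⟨a.1, b.1, a.2, b.2, rfl⟩
    exact hle hy
  · exact LinearMap.congr_fun (hc i ⟨A, hA⟩) x

end GD.DT
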