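import Pool.Agent.H27.GD.Need

/-!
# Characters of the central natural derivations
-/

set_option autoImplicit false

noncomputable section

namespace GD.DT

open Complex GD

/-- A simple constituent of a structure of `C` with a central action of a number field and an
embedding of this field. -/
structure Leaf (C : Str → Prop) where
  S : Str
  mem : C S
  M : Submodule ℚ S.W
  simple : IsSimple S M
  E : Type
  [fE : Field E]
  [nE : NumberField E]
  ι : E →+* Module.End ℂ (S.cx M)
  central : IsCentral ι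
  τ : E →+* ℂ

attribute [instance] Leaf.fE Leaf.nE

/-- The character of a leaf: the normalised trace. -/
def Leaf.char {C : Str → Prop} (l : Leaf C) (T : Op) : ℂ :=
  trOn (T l.S) (eig l.ι l.τ) / Module.finrank ℂ (eig l.ι l.τ)

/-- The sum of the characters of a list of leaves. -/
def lchar {C : Str → Prop} (ls : List (Leaf C)) (T : Op) : ℂ :=
  (ls.map fun l => l.char T).sum

/-- The natural derivations which act centrally on the structures `S k`. -/
def CentralOn {κ : Type} (S : κ → Str) : Set Op :=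
  {T | IsNat T ∧ ∀ k, ∀ A, IsNat A → ∀ x, T (S k) (A (S k) x) = A (S k) (T (S k) x)}

/-- `R` is spanned by eigenvectors of `Z` whose characters are sums of characters of leaves. -/
def Spans (C : Str → Prop) (Z : Set Op) (R : Str) : Prop :=
  ∀ w : R.W, w ∈ Submodule.span ℂ {v : R.W | ∃ ls : List (Leaf C), ∀ T ∈ Z,
    T R v = lchar ls T • v}

/-! ### Traces -/

theorem trOn_eq {W : Type} [AddCommGroup W] [Module ℂ W] (T : Module.End ℂ W)
    (U : Submodule ℂ W) (h : ∀ x ∈ U, T x ∈ U) :
    trOn T U = LinearMap.trace ℂ U (T.restrict h) := by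
  unfold trOn
  rw [dif_pos h]

theorem trOn_scalar {W : Type} [AddCommGroup W] [Module ℂ W] [FiniteDimensional ℂ W]
    (T : Module.End ℂ W) (U : Submodule ℂ W) (c : ℂ) (h : ∀ x ∈ U, T x = c • x) :
    trOn T U = c * Module.finrank ℂ U := by
  have h1 : ∀ x ∈ U, T x ∈ U := fun x hx => by
    rw [h x hx]
    exact U.smul_mem c hx
  rw [trOn_eq T U h1]
  have h2 : T.restrict h1 = c • LinearMap.id := by
    ext x
    rw [LinearMap.coe_restrict_apply, h x x.2]
    rfl
  rw [h2, map_smul, LinearMap.trace_id, smul_eq_mul]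

theorem trOn_add {W : Type} [AddCommGroup W] [Module ℂ W] (T T' : Module.End ℂ W)
    (U : Submodule ℂ W) (h : ∀ x ∈ U, T x ∈ U) (h' : ∀ x ∈ U, T' x ∈ U) :
    trOn (T + T') U = trOn T U + trOn T' U := by
  have h'' : ∀ x ∈ U, (T + T') x ∈ U := fun x hx => U.add_mem (h x hx) (h' x hx)
  rw [trOn_eq _ U h'', trOn_eq _ U h, trOn_eq _ U h', ← map_add]
  rfl

theorem trOn_smul {W : Type} [AddCommGroup W] [Module ℂ W] (T : Module.End ℂ W) (c : ℂ)
    (U : Submodule ℂ W) (h : ∀ x ∈ U, T x ∈ U) :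
    trOn (c • T) U = c * trOn T U := by
  have h'' : ∀ x ∈ U, (c • T) x ∈ U := fun x hx => U.smul_mem c (h x hx)
  rw [trOn_eq _ U h'', trOn_eq _ U h, ← smul_eq_mul, ← map_smul]
  rfl

theorem trOn_zero {W : Type} [AddCommGroup W] [Module ℂ W] (U : Submodule ℂ W) :
    trOn (0 : Module.End ℂ W) U = 0 := by
  have h : ∀ x ∈ U, (0 : Module.End ℂ W) x ∈ U := fun x _ => U.zero_mem
  rw [trOn_eq _ U h]
  have : (0 : Module.End ℂ W).restrict h = 0 := rfl
  rw [this, map_zero]

theorem trOn_bracket {W : Type} [AddCommGroup W] [Module ℂ W] [FiniteDimensional ℂ W]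
    (T T' : Module.End ℂ W) (U : Submodule ℂ W) (h : ∀ x ∈ U, T x ∈ U) (h' : ∀ x ∈ U, T' x ∈ U) :
    trOn (T * T' - T' * T) U = 0 := by
  have h'' : ∀ x ∈ U, (T * T' - T' * T) x ∈ U := fun x hx =>
    U.sub_mem (h _ (h' x hx)) (h' _ (h x hx))
  rw [trOn_eq _ U h'']
  have : (T * T' - T' * T).restrict h'' = T.restrict h * T'.restrict h' -
    T'.restrict h' * T.restrict h := rfl
  rw [this, map_sub, LinearMap.trace_mul_comm, sub_self]

/-! ### Leaves -/

variable {C : Str → Prop}

theorem mem_eig {S : Str} {M : Submodule ℚ S.W} {K : Type} [Field K]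
    {ι : K →+* Module.End ℂ (S.cx M)} {τ : K →+* ℂ} {x : S.W} :
    x ∈ eig ι τ ↔ ∃ h : x ∈ S.cx M, ∀ a, ι a ⟨x, h⟩ = τ a • (⟨x, h⟩ : S.cx M) := by
  unfold eig
  constructor
  · rintro ⟨y, hy, rfl⟩
    refine ⟨y.2, fun a => ?_⟩
    have := (Submodule.mem_iInf _).1 hy a
    exact Module.End.mem_eigenspace_iff.1 this
  · rintro ⟨h, hx⟩
    refine ⟨⟨x, h⟩, (Submodule.mem_iInf _).2 fun a => ?_, rfl⟩
    exact Module.End.mem_eigenspace_iff.2 (hx a)

/-- Natural derivations preserve the eigenspaces of endomorphisms. -/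
theorem nat_eig {S : Str} (P : Pol S) {M : Submodule ℚ S.W} (hM : IsSub S M) {K : Type} [Field K]
    {ι : K →+* Module.End ℂ (S.cx M)} (hι : ∀ a, IsEnd S M (ι a)) (τ : K →+* ℂ) {T : Op}
    (hT : IsNat T) : ∀ x ∈ eig ι τ, T S x ∈ eig ι τ := by
  intro x hx
  obtain ⟨h, hx⟩ := mem_eig.1 hx
  refine mem_eig.2 ⟨nat_cx P hM hT x h, fun a => ?_⟩
  apply Subtype.ext
  rw [← nat_end P hM hT (hι a) ⟨x, h⟩, hx a, Submodule.coe_smul, Submodule.coe_smul, map_smul]

theorem Leaf.stable (hP : ∀ S, C S → Nonempty (Pol S)) (l : Leaf C) {T : Op} (hT : IsNat T) :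
    ∀ x ∈ eig l.ι l.τ, T l.S x ∈ eig l.ι l.τ := by
  obtain ⟨P⟩ := hP l.S l.mem
  exact nat_eig P l.simple.sub l.central.isEnd l.τ hT

theorem Leaf.char_add (hP : ∀ S, C S → Nonempty (Pol S)) (l : Leaf C) {T T' : Op}
    (hT : IsNat T) (hT' : IsNat T') : l.char (T + T') = l.char T + l.char T' := by
  unfold Leaf.char
  have h : (T + T') l.S = T l.S + T' l.S := rfl
  rw [h, trOn_add _ _ _ (l.stable hP hT) (l.stable hP hT'), add_div]

theorem Leaf.char_smul (hP : ∀ S, C S → Nonempty (Pol S)) (l : Leaf C) {T : Op} (c : ℂ)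
    (hT : IsNat T) : l.char (c • T) = c * l.char T := by
  unfold Leaf.char
  have h : (c • T) l.S = c • T l.S := rfl
  rw [h, trOn_smul _ _ _ (l.stable hP hT), mul_div_assoc]

theorem Leaf.char_zero (l : Leaf C) : l.char 0 = 0 := by
  unfold Leaf.char
  have h : (0 : Op) l.S = 0 := rfl
  rw [h, trOn_zero, zero_div]

theorem Leaf.char_br (hP : ∀ S, C S → Nonempty (Pol S)) (l : Leaf C) {A B : Op}
    (hA : IsNat A) (hB : IsNat B) : l.char (br A B) = 0 := by
  unfold Leaf.char
  have h : (br A B) l.S = A l.S * B l.S - B l.S * A l.S := rfl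
  rw [h, trOn_bracket _ _ _ (l.stable hP hA) (l.stable hP hB), zero_div]

theorem lchar_nil (T : Op) : lchar ([] : List (Leaf C)) T = 0 := rfl

theorem lchar_cons (l : Leaf C) (ls : List (Leaf C)) (T : Op) :
    lchar (l :: ls) T = l.char T + lchar ls T := by
  simp [lchar]

theorem lchar_append (ls ls' : List (Leaf C)) (T : Op) :
    lchar (ls ++ ls') T = lchar ls T + lchar ls' T := by
  simp [lchar]

theorem lchar_add (hP : ∀ S, C S → Nonempty (Pol S)) (ls : List (Leaf C)) {T T' : Op}
    (hT : IsNat T) (hT' : IsNat T') : lchar ls (T + T') = lchar ls T + lchar ls T' := by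
  induction ls with
  | nil => simp [lchar_nil]
  | cons l ls ih =>
    rw [lchar_cons, lchar_cons, lchar_cons, ih, l.char_add hP hT hT']
    ring

/-- Combinations of brackets are natural and every character vanishes on them. -/
theorem span_br (hP : ∀ S, C S → Nonempty (Pol S)) {Y : Op}
    (hY : Y ∈ Submodule.span ℂ {Z : Op | ∃ A B, IsNat A ∧ IsNat B ∧ Z = br A B}) :
    IsNat Y ∧ ∀ ls : List (Leaf C), lchar ls Y = 0 := by
  have h0 : ∀ {Z : Op}, (∀ l : Leaf C, l.char Z = 0) → ∀ ls : List (Leaf C), lchar ls Z = 0 := by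
    intro Z h ls
    induction ls with
    | nil => rfl
    | cons l ls ih => rw [lchar_cons, ih, h l, add_zero]
  have key : IsNat Y ∧ ∀ l : Leaf C, l.char Y = 0 := by
    refine Submodule.span_induction (p := fun Y _ => IsNat Y ∧ ∀ l : Leaf C, l.char Y = 0)
      ?_ ?_ ?_ ?_ hY
    · rintro _ ⟨A, B, hA, hB, rfl⟩
      exact ⟨isNat_br hA hB, fun l => l.char_br hP hA hB⟩
    · exact ⟨Lnat.zero_mem, fun l => l.char_zero⟩
    · rintro a b - - ⟨ha, ha'⟩ ⟨hb, hb'⟩
      exact ⟨Lnat.add_mem ha hb, fun l => by rw [l.char_add hP ha hb, ha', hb', add_zero]⟩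
    · rintro c a - ⟨ha, ha'⟩
      exact ⟨Lnat.smul_mem c ha, fun l => by rw [l.char_smul hP c ha, ha', mul_zero]⟩
  exact ⟨key.1, h0 key.2⟩

/-- Rational parts of a central natural derivation are central. -/
theorem central_ratOp {S : Str} {T : Op}
    (hc : ∀ A, IsNat A → ∀ x, T S (A S x) = A S (T S x)) (l : ℂ →ₗ[ℚ] ℚ) :
    ∀ A, IsNat A → ∀ x, ratOp l T S (A S x) = A S (ratOp l T S x) := by
  -- first rational `A`
  have hrat : ∀ A : Op, IsNat A → IsRat A → ∀ x, ratOp l T S (A S x) = A S (ratOp l T S x) := by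
    intro A hA hr x
    have key : (ratOp l T S) ∘ₗ (A S) = (A S) ∘ₗ (ratOp l T S) := by
      refine ext_B fun b hb => ?_
      rw [LinearMap.comp_apply, LinearMap.comp_apply, ratOp, ratEnd_apply S l _ hb,
        ratEnd_apply S l _ (hr S b hb), hc A hA, map_prt (hr S)]
    exact LinearMap.congr_fun key x
  intro A hA x
  obtain ⟨n, c, m, h⟩ := exists_ratOp (fun _ : Unit => S) A
  have h1 := h ()
  have h2 : ∀ y, A S y = ∑ k, c k • ratOp (m k) A S y := by
    intro y
    rw [h1, LinearMap.sum_apply]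
    rfl
  rw [h2, h2, map_sum]
  refine Finset.sum_congr rfl fun k _ => ?_
  rw [map_smul, hrat _ (isNat_ratOp hA (m k)) (isRat_ratOp (m k) A)]

/-- A central natural derivation acts on the eigenspaces of the centre through the character. -/
theorem leaf_scalar (hP : ∀ S, C S → Nonempty (Pol S)) {S : Str} (hS : C S)
    {M : Submodule ℚ S.W} (hM : IsSimple S M) : ∃ (E : Type) (_ : Field E) (_ : NumberField E)
      (ι : E →+* Module.End ℂ (S.cx M)) (hι : IsCentral ι), S.cx M ≤ ⨆ τ : E →+* ℂ, eig ι τ ∧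
      ∀ (τ : E →+* ℂ) (T : Op), IsNat T → (∀ A, IsNat A → ∀ x, T S (A S x) = A S (T S x)) →
        ∀ v ∈ eig ι τ, T S v = (Leaf.mk S hS M hM E ι hι τ).char T • v := by
  obtain ⟨P⟩ := hP S hS
  obtain ⟨E, fE, nE, ι, hι, hcen, hle⟩ := exists_center P hM
  refine ⟨E, fE, nE, ι, hι, hle, fun τ T hT hc v hv => ?_⟩
  -- `T` is scalar on the eigenspace
  obtain ⟨n, c, m, h⟩ := exists_ratOp (fun _ : Unit => S) T
  have hk : ∀ k, ∃ a : E, ∀ x (hx : x ∈ S.cx M), ratOp (m k) T S x = (ι a ⟨x, hx⟩ : S.W) := by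
    intro k
    have hn := isNat_ratOp hT (m k)
    have hE := isEnd_restrict P hM.sub hn (isRat_ratOp (m k) T S) (central_ratOp hc (m k))
    obtain ⟨a, ha⟩ := hcen _ hE fun g hg => by
      ext x
      rw [Module.End.mul_apply, Module.End.mul_apply, LinearMap.coe_restrict_apply]
      exact nat_end P hM.sub hn hg x
    refine ⟨a, fun x hx => ?_⟩
    rw [← ha]
    rfl
  choose a ha using hk
  have hscal : ∀ x ∈ eig ι τ, T S x = (∑ k, c k * τ (a k)) • x := by
    intro x hx
    obtain ⟨hx1, hx2⟩ := mem_eig.1 hx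
    have h1 : T S x = ∑ k, c k • ratOp (m k) T S x := by
      rw [h (), LinearMap.sum_apply]
      rfl
    rw [h1, Finset.sum_smul]
    refine Finset.sum_congr rfl fun k _ => ?_
    rw [ha k x hx1, hx2 (a k), mul_smul]
    rfl
  by_cases hv0 : v = 0
  · rw [hv0, map_zero, smul_zero]
  · have hpos : (Module.finrank ℂ (eig ι τ) : ℂ) ≠ 0 := by
      intro h0
      have h1 : Module.finrank ℂ (eig ι τ) = 0 := by exact_mod_cast h0
      have h2 := Submodule.finrank_eq_zero.1 h1
      rw [h2] at hv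
      exact hv0 (by simpa using hv)
    have h3 : (Leaf.mk S hS M hM E ι hι τ).char T = ∑ k, c k * τ (a k) := by
      change trOn (T S) (eig ι τ) / Module.finrank ℂ (eig ι τ) = _
      rw [trOn_scalar _ _ _ hscal, mul_div_assoc, div_self hpos, mul_one]
    rw [h3]
    exact hscal v hv

/-- The structures of `C` are spanned by eigenvectors. -/
theorem spans_base (hP : ∀ S, C S → Nonempty (Pol S)) {S : Str} (hS : C S) :
    Spans C (CentralOn fun _ : Unit => S) S := by
  intro w
  obtain ⟨P⟩ := hP S hS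
  have hw : w ∈ Submodule.span ℂ {x : S.W | ∃ M, IsSimple S M ∧ x ∈ S.cx M} := by
    rw [span_simple P]
    exact Submodule.mem_top
  refine (Submodule.span_le.2 ?_ : Submodule.span ℂ {x : S.W | ∃ M, IsSimple S M ∧ x ∈ S.cx M} ≤ _)
    hw
  rintro x ⟨M, hM, hx⟩
  obtain ⟨E, fE, nE, ι, hι, hle, hsc⟩ := leaf_scalar hP hS hM
  refine (iSup_le fun τ => ?_ : (⨆ τ : E →+* ℂ, eig ι τ) ≤ _) (hle hx)
  intro v hv
  refine Submodule.subset_span ⟨[Leaf.mk S hS M hM E ι hι τ], fun T hT => ?_⟩
  rw [lchar_cons, lchar_nil, add_zero]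
  exact hsc τ T hT.1 (hT.2 ()) v hv

theorem spans_mono {Z Z' : Set Op} (h : Z' ⊆ Z) {R : Str} (hR : Spans C Z R) : Spans C Z' R := by
  intro w
  refine Submodule.span_mono ?_ (hR w)
  rintro v ⟨ls, hls⟩
  exact ⟨ls, fun T hT => hls T (h hT)⟩

/-- Every generated structure is spanned by eigenvectors of the natural derivations which act
centrally on a finite family of structures of `C`. -/
theorem spans_gen (hP : ∀ S, C S → Nonempty (Pol S)) {R : Str} (hR : Gen C R) :
    ∃ (κ : Type) (_ : Finite κ) (S : κ → Str), (∀ k, C (S k)) ∧ Spans C (CentralOn S) R := by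
  induction hR with
  | base R hR => exact ⟨Unit, inferInstance, fun _ => R, fun _ => hR, spans_base hP hR⟩
  | lin R n P f hPk hf htop ih =>
    choose κ hκ S hS hsp using ih
    refine ⟨Σ k, κ k, inferInstance, fun s => S s.1 s.2, fun s => hS s.1 s.2, fun w => ?_⟩
    have hw : w ∈ ⨆ k, LinearMap.range (f k) := htop ▸ Submodule.mem_top
    refine (iSup_le fun k => ?_ : (⨆ k, LinearMap.range (f k)) ≤ _) hw
    rintro _ ⟨u, rfl⟩
    have h1 := Submodule.mem_map_of_mem (f := f k) (hsp k u)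
    rw [Submodule.map_span] at h1
    refine Submodule.span_mono ?_ h1
    rintro _ ⟨v, ⟨ls, hls⟩, rfl⟩
    refine ⟨ls, fun T hT => ?_⟩
    rw [hT.1.nat _ _ _ (hf k), hls T ⟨hT.1, fun j => hT.2 ⟨k, j⟩⟩, map_smul]
  | ten R n P Q μ hPk hQk hμ htop ih ih' =>
    choose κ hκ S hS hsp using ih
    choose κ' hκ' S' hS' hsp' using ih'
    refine ⟨Σ k, (κ k ⊕ κ' k), inferInstance, fun s => Sum.elim (S s.1) (S' s.1) s.2, ?_, ?_⟩
    · rintro ⟨k, j | j⟩
      · exact hS k j
      · exact hS' k j
    · intro w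
      have hw : w ∈ ⨆ k, LinearMap.range (TensorProduct.lift (μ k)) := htop ▸ Submodule.mem_top
      refine (iSup_le fun k => ?_ : (⨆ k, LinearMap.range (TensorProduct.lift (μ k))) ≤ _) hw
      rintro _ ⟨u, rfl⟩
      induction u using TensorProduct.induction_on with
      | zero => rw [map_zero]; exact zero_mem _
      | add a b ha hb => rw [map_add]; exact add_mem ha hb
      | tmul a b =>
        rw [TensorProduct.lift.tmul]
        refine Submodule.span_induction (p := fun a _ => μ k a b ∈ _) ?_ ?_ ?_ ?_ (hsp k a)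
        · rintro v ⟨ls, hls⟩
          refine Submodule.span_induction (p := fun b _ => μ k v b ∈ _) ?_ ?_ ?_ ?_ (hsp' k b)
          · rintro v' ⟨ls', hls'⟩
            refine Submodule.subset_span ⟨ls ++ ls', fun T hT => ?_⟩
            rw [hT.1.der _ _ _ _ (hμ k), hls T ⟨hT.1, fun j => hT.2 ⟨k, Sum.inl j⟩⟩,
              hls' T ⟨hT.1, fun j => hT.2 ⟨k, Sum.inr j⟩⟩, lchar_append, map_smul, map_smul,
              LinearMap.smul_apply, add_smul]
          · rw [map_zero]; exact zero_mem _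
          · intro x y _ _ hx hy
            rw [map_add]; exact add_mem hx hy
          · intro c x _ hx
            rw [map_smul]; exact Submodule.smul_mem _ _ hx
        · rw [map_zero, LinearMap.zero_apply]; exact zero_mem _
        · intro x y _ _ hx hy
          rw [map_add, LinearMap.add_apply]; exact add_mem hx hy
        · intro c x _ hx
          rw [map_smul, LinearMap.smul_apply]; exact Submodule.smul_mem _ _ hx

/-! ### Independence of characters -/

/-- An eigenvector which is a combination of eigenvectors has one of their characters. -/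
theorem exists_char {W : Type} [AddCommGroup W] [Module ℂ W] {A : Type*} (ρ : A → Module.End ℂ W)
    (X : Set (A → ℂ)) {v : W} (hv : v ≠ 0) (chi : A → ℂ) (hchi : ∀ T, ρ T v = chi T • v)
    (hspan : v ∈ Submodule.span ℂ {u : W | ∃ φ ∈ X, ∀ T, ρ T u = φ T • u}) :
    ∃ φ ∈ X, ∀ T, chi T = φ T := by
  classical
  -- a representation as a sum of `n` eigenvectors
  have hrep : ∃ (n : ℕ) (u : Fin n → W), v = ∑ j, u j ∧ ∀ j, ∃ φ ∈ X, ∀ T, ρ T (u j) = φ T • u j := by
    refine Submodule.span_induction (p := fun v _ => ∃ (n : ℕ) (u : Fin n → W), v = ∑ j, u j ∧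
      ∀ j, ∃ φ ∈ X, ∀ T, ρ T (u j) = φ T • u j) ?_ ?_ ?_ ?_ hspan
    · intro u hu
      exact ⟨1, fun _ => u, by simp, fun _ => hu⟩
    · exact ⟨0, fun _ => 0, by simp, fun j => j.elim0⟩
    · rintro x y - - ⟨n, u, rfl, hu⟩ ⟨m, w, rfl, hw⟩
      refine ⟨n + m, Fin.append u w, ?_, fun j => ?_⟩
      · rw [Fin.sum_univ_add]
        simp
      · refine Fin.addCases (fun i => ?_) (fun i => ?_) j
        · rw [Fin.append_left]
          exact hu i
        · rw [Fin.append_right]
          exact hw i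
    · rintro c x - ⟨n, u, rfl, hu⟩
      refine ⟨n, fun j => c • u j, by rw [Finset.smul_sum], fun j => ?_⟩
      obtain ⟨φ, hφ, h⟩ := hu j
      exact ⟨φ, hφ, fun T => by rw [map_smul, h T, smul_comm]⟩
  obtain ⟨n, u, hvu, hu⟩ := hrep
  clear hspan
  induction n with
  | zero =>
    rw [Fin.sum_univ_zero] at hvu
    exact absurd hvu hv
  | succ n ih =>
    obtain ⟨φ, hφ, h⟩ := hu (Fin.last n)
    by_cases hall : ∀ T, chi T = φ T
    · exact ⟨φ, hφ, hall⟩
    · push Not at hall
      obtain ⟨T, hT⟩ := hall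
      -- eliminate the last vector
      have h1 : ρ T v = ∑ j, ρ T (u j) := by rw [hvu, map_sum]
      have hu' := hu
      choose ψ hψ hψ' using hu'
      rw [hchi T] at h1
      have h2 : ∑ j, ρ T (u j) = ∑ j : Fin n, ψ j.castSucc T • u j.castSucc +
          φ T • u (Fin.last n) := by
        rw [Fin.sum_univ_castSucc, h T]
        congr 1
        exact Finset.sum_congr rfl fun j _ => hψ' _ T
      have h3 : v = ∑ j : Fin n, u j.castSucc + u (Fin.last n) := by
        rw [hvu, Fin.sum_univ_castSucc]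
      have hne : chi T - φ T ≠ 0 := sub_ne_zero.2 hT
      have h4 : (chi T - φ T) • v = ∑ j : Fin n, (ψ j.castSucc T - φ T) • u j.castSucc := by
        rw [sub_smul, h1, h2]
        conv_lhs => rw [h3]
        simp only [sub_smul, Finset.sum_sub_distrib, smul_add, Finset.smul_sum]
        abel
      have h5 : v = ∑ j : Fin n, ((chi T - φ T)⁻¹ * (ψ j.castSucc T - φ T)) • u j.castSucc := by
        have := congrArg (fun x => (chi T - φ T)⁻¹ • x) h4
        simp only [Finset.smul_sum, smul_smul, inv_mul_cancel₀ hne, one_smul] at this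
        exact this
      refine ih _ h5 fun j => ?_
      obtain ⟨θ, hθ, h6⟩ := hu j.castSucc
      exact ⟨θ, hθ, fun T' => by rw [map_smul, h6 T', smul_comm]⟩

/-- The character of an eigenvector of all natural derivations in a generated structure is a sum of
characters of leaves. -/
theorem chars (hP : ∀ S, C S → Nonempty (Pol S)) {R : Str} (hR : Gen C R) {v : R.W} (hv : v ≠ 0)
    (chi : Op → ℂ) (hchi : ∀ T, IsNat T → T R v = chi T • v) :
    ∃ ls : List (Leaf C), ∀ T, IsNat T → chi T = lchar ls T := by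
  obtain ⟨κ, hκ, S, hS, hsp⟩ := spans_gen hP hR
  have := Fintype.ofFinite κ
  obtain ⟨φ, ⟨ls, rfl⟩, h⟩ := exists_char (A := CentralOn S) (fun T => T.1 R)
    {φ | ∃ ls : List (Leaf C), φ = fun T => lchar ls T.1} hv (fun T => chi T.1)
    (fun T => hchi T.1 T.2.1) (by
      refine Submodule.span_mono ?_ (hsp v)
      rintro u ⟨ls, hls⟩
      exact ⟨_, ⟨ls, rfl⟩, fun T => hls T.1 T.2⟩)
  refine ⟨ls, fun T hT => ?_⟩
  obtain ⟨Y, hY, hn, hc⟩ := split S (fun k => (hP _ (hS k)).some) hT
  have hZ : T - Y ∈ CentralOn S := ⟨hn, hc⟩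
  have h1 := h ⟨T - Y, hZ⟩
  obtain ⟨hYn, hYc⟩ := span_br hP hY
  have e1 : T = (T - Y) + Y := (sub_add_cancel T Y).symm
  -- `chi` vanishes on brackets
  have hchiY : chi Y = 0 := by
    have key : Y R v = 0 := by
      refine Submodule.span_induction (p := fun Y _ => Y R v = 0) ?_ ?_ ?_ ?_ hY
      · rintro _ ⟨A, B, hA, hB, rfl⟩
        rw [br_apply, hchi A hA, hchi B hB, map_smul, map_smul, hchi A hA, hchi B hB,
          smul_comm, sub_self]
      · rfl
      · intro a b _ _ ha hb
        change a R v + b R v = 0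
        rw [ha, hb, add_zero]
      · intro c a _ ha
        change c • a R v = 0
        rw [ha, smul_zero]
    have := hchi Y hYn
    rw [key] at this
    exact ((smul_eq_zero.1 this.symm).resolve_right hv)
  have hchiT : chi T = chi (T - Y) := by
    have a1 := hchi T hT
    have a2 := hchi (T - Y) hn
    have a3 := hchi Y hYn
    have a4 : (T - Y) R v = T R v - Y R v := rfl
    rw [a4, a1, a3, hchiY, zero_smul, sub_zero] at a2
    exact smul_left_injective ℂ hv a2
  have hl : lchar ls T = lchar ls (T - Y) := by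
    conv_lhs => rw [e1]
    rw [lchar_add hP ls hn hYn, hYc, add_zero]
  rw [hchiT, hl]
  exact h1

end GD.DT
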